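import Mathlib

/-! Elementary inequalities for `exp`, `cos`, `arctan` and the functions `p1, p2`. -/

namespace Pool.Agent.Lib.MP_e3fe77_co
open Real

lemma nn_of_deriv {f f' : ℝ → ℝ} (h : ∀ x, HasDerivAt f (f' x) x) (h0 : 0 ≤ f 0)
    (hp : ∀ x, 0 ≤ x → 0 ≤ f' x) {x : ℝ} (hx : 0 ≤ x) : 0 ≤ f x := by
  have hm : MonotoneOn f (Set.Ici 0) := by
    apply monotoneOn_of_deriv_nonneg (convex_Ici 0)
    · exact fun y _ => (h y).continuousAt.continuousWithinAt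
    · exact fun y _ => (h y).differentiableAt.differentiableWithinAt
    · intro y hy; rw [(h y).deriv]; exact hp y (le_of_lt (by simpa using hy))
  exact h0.trans (hm (Set.mem_Ici.2 le_rfl) hx hx)

lemma hd_exp_neg (x : ℝ) : HasDerivAt (fun y => exp (-y)) (-exp (-x)) x := by
  simpa using (hasDerivAt_neg x).exp

lemma cos_le_quartic {x : ℝ} (hx : 0 ≤ x) : cos x ≤ 1 - x ^ 2 / 2 + x ^ 4 / 24 := by
  have := nn_of_deriv (f := fun y => 1 - y ^ 2 / 2 + y ^ 4 / 24 - cos y)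
    (f' := fun y => -y + y ^ 3 / 6 + sin y) (fun y => by
      have := ((((hasDerivAt_pow 2 y).div_const 2).const_sub 1).add
        ((hasDerivAt_pow 4 y).div_const 24)).sub (hasDerivAt_cos y)
      refine HasDerivAt.congr_deriv this ?_; simp; ring) (by simp)
    (fun y hy => by have := sin_ge_sub_cube hy; linarith) hx
  linarith

lemma arctan_le_self' {x : ℝ} (hx : 0 ≤ x) : arctan x ≤ x := by
  have := nn_of_deriv (f := fun y => y - arctan y) (f' := fun y => 1 - 1 / (1 + y ^ 2))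
    (fun y => (hasDerivAt_id' y).sub (hasDerivAt_arctan y)) (by simp)
    (fun y _ => by
      have : 1 / (1 + y ^ 2) ≤ 1 := by rw [div_le_one (by positivity)]; nlinarith
      linarith) hx
  linarith

lemma arctan_ge_cube {x : ℝ} (hx : 0 ≤ x) : x - x ^ 3 / 3 ≤ arctan x := by
  have := nn_of_deriv (f := fun y => arctan y - (y - y ^ 3 / 3))
    (f' := fun y => 1 / (1 + y ^ 2) - (1 - y ^ 2))
    (fun y => by
      have := (hasDerivAt_arctan y).sub ((hasDerivAt_id' y).sub ((hasDerivAt_pow 3 y).div_const 3))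
      refine HasDerivAt.congr_deriv this ?_; simp) (by simp)
    (fun y _ => by
      have : 1 - y ^ 2 ≤ 1 / (1 + y ^ 2) := by rw [le_div_iff₀ (by positivity)]; nlinarith
      linarith) hx
  linarith

lemma le_arctan_of_nonpos {x : ℝ} (hx : x ≤ 0) : x ≤ arctan x := by
  have := arctan_le_self' (x := -x) (by linarith)
  rw [arctan_neg] at this; linarith

lemma exp_mul_neg (u : ℝ) : exp u * exp (-u) = 1 := by rw [← exp_add]; simp

lemma exp_neg_le_quad {u : ℝ} (hu : 0 ≤ u) : exp (-u) ≤ 1 - u + u ^ 2 / 2 := by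
  have := nn_of_deriv (f := fun y => 1 - y + y ^ 2 / 2 - exp (-y))
    (f' := fun y => -1 + y + exp (-y)) (fun y => by
      have := (((hasDerivAt_id' y).const_sub 1).add
        ((hasDerivAt_pow 2 y).div_const 2)).sub (hd_exp_neg y)
      refine HasDerivAt.congr_deriv this ?_; simp) (by simp)
    (fun y _ => by have := add_one_le_exp (-y); linarith) hu
  linarith

lemma pade_up {u : ℝ} (hu : 0 ≤ u) :
    (1 + u / 2 + u ^ 2 / 12) * exp (-u) ≤ 1 - u / 2 + u ^ 2 / 12 := by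
  have h1 : ∀ y, 0 ≤ y → 0 ≤ -1 / 2 + y / 6 + (1 / 2 + y / 3 + y ^ 2 / 12) * exp (-y) := by
    intro y hy
    refine nn_of_deriv (f := fun y => -1 / 2 + y / 6 + (1 / 2 + y / 3 + y ^ 2 / 12) * exp (-y))
      (f' := fun y => 1 / 6 - (1 / 6 + y / 6 + y ^ 2 / 12) * exp (-y)) (fun y => ?_) (by norm_num)
      (fun y hy => ?_) hy
    · have := (((hasDerivAt_id' y).div_const 6).const_add (-1 / 2)).add
        (((((hasDerivAt_id' y).div_const 3).const_add (1 / 2)).add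
          ((hasDerivAt_pow 2 y).div_const 12)).mul (hd_exp_neg y))
      refine HasDerivAt.congr_deriv this ?_; simp; ring
    · have h := quadratic_le_exp_of_nonneg hy
      have h2 := exp_mul_neg y
      have h3 := exp_pos (-y)
      nlinarith
  have := nn_of_deriv (f := fun y => 1 - y / 2 + y ^ 2 / 12 - (1 + y / 2 + y ^ 2 / 12) * exp (-y))
    (f' := fun y => -1 / 2 + y / 6 + (1 / 2 + y / 3 + y ^ 2 / 12) * exp (-y)) (fun y => by
      have := ((((hasDerivAt_id' y).div_const 2).const_sub 1).add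
        ((hasDerivAt_pow 2 y).div_const 12)).sub
        (((((hasDerivAt_id' y).div_const 2).const_add 1).add
          ((hasDerivAt_pow 2 y).div_const 12)).mul (hd_exp_neg y))
      refine HasDerivAt.congr_deriv this ?_; simp; ring) (by norm_num) h1 hu
  linarith

/-- derivative of a quartic times `exp` -/
lemma hd_quart (a b c d e y : ℝ) :
    HasDerivAt (fun y => (a + b * y + c * y ^ 2 + d * y ^ 3 + e * y ^ 4) * exp y)
      (((a + b) + (b + 2 * c) * y + (c + 3 * d) * y ^ 2 + (d + 4 * e) * y ^ 3 + e * y ^ 4) * exp y) y := by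
  have := ((((((hasDerivAt_id' y).const_mul b).const_add a).add
    ((hasDerivAt_pow 2 y).const_mul c)).add ((hasDerivAt_pow 3 y).const_mul d)).add
    ((hasDerivAt_pow 4 y).const_mul e)).mul (hasDerivAt_exp y)
  refine HasDerivAt.congr_deriv this ?_; simp; ring

lemma hd_quart0 (a b c d e y : ℝ) :
    HasDerivAt (fun y => a + b * y + c * y ^ 2 + d * y ^ 3 + e * y ^ 4)
      (b + 2 * c * y + 3 * d * y ^ 2 + 4 * e * y ^ 3 + 0 * y ^ 4) y := by
  have := (((((hasDerivAt_id' y).const_mul b).const_add a).add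
    ((hasDerivAt_pow 2 y).const_mul c)).add ((hasDerivAt_pow 3 y).const_mul d)).add
    ((hasDerivAt_pow 4 y).const_mul e)
  refine HasDerivAt.congr_deriv this ?_; simp; ring

lemma pade_lo {u : ℝ} (hu : 0 ≤ u) :
    1 - u / 2 + u ^ 2 / 12 - u ^ 4 / 720 ≤ (1 + u / 2 + u ^ 2 / 12 - u ^ 4 / 720) * exp (-u) := by
  have h3 := fun y (hy : 0 ≤ y) => nn_of_deriv
    (fun y => (hd_quart0 (1 / 6) 0 (-1 / 60) 0 0 y).sub
      (hd_quart (1 / 6) (-1 / 6) (1 / 15) (-1 / 90) (-1 / 720) y)) (by norm_num)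
    (fun y hy => by
      have h := exp_neg_le_quad hy
      have h2 := exp_mul_neg y
      have h3 := exp_pos y
      have h4 : 1 ≤ (1 - y + y ^ 2 / 2) * exp y := by nlinarith
      have h5 : 0 ≤ y ^ 4 * exp y := by positivity
      nlinarith [mul_nonneg hy (sub_nonneg.2 h4)]) hy
  have h2 := fun y (hy : 0 ≤ y) => nn_of_deriv
    (fun y => (hd_quart0 (1 / 2) (1 / 6) 0 (-1 / 180) 0 y).sub
      (hd_quart (1 / 2) (-1 / 3) (1 / 12) (-1 / 180) (-1 / 720) y)) (by norm_num)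
    (fun y hy => by have := h3 y hy; simp only [Pi.sub_apply] at this; linarith) hy
  have h1 := nn_of_deriv
    (fun y => (hd_quart0 1 (1 / 2) (1 / 12) 0 (-1 / 720) y).sub
      (hd_quart 1 (-1 / 2) (1 / 12) 0 (-1 / 720) y)) (by norm_num)
    (fun y hy => by have := h2 y hy; simp only [Pi.sub_apply] at this; linarith) hu
  simp only [Pi.sub_apply] at h1
  have e := exp_mul_neg u
  have p := exp_pos (-u)
  have := mul_nonneg h1 p.le
  have e2 : (1 - u / 2 + u ^ 2 / 12 - u ^ 4 / 720) * (exp u * exp (-u))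
      = 1 - u / 2 + u ^ 2 / 12 - u ^ 4 / 720 := by rw [e, mul_one]
  nlinarith

lemma cosh_ge {u : ℝ} : 1 + u ^ 2 / 2 + u ^ 4 / 24 + u ^ 6 / 720 ≤ cosh u := by
  have := sum_le_hasSum (Finset.range 4) (fun i _ => by
    have : 0 ≤ u ^ (2 * i) := by rw [pow_mul]; positivity
    positivity) (hasSum_cosh u)
  simp [Finset.sum_range_succ, Nat.factorial] at this
  linarith

lemma sin_ge_par {x : ℝ} (h0 : 0 ≤ x) (h1 : x ≤ π) : x * (1 - x / π) ≤ sin x := by
  have hp := pi_gt_three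
  have hp2 := pi_lt_d2
  have key : ∀ y, 0 ≤ y → y ≤ π / 2 → y * (1 - y / π) ≤ sin y := by
    intro y h0 h1
    have := sin_ge_sub_cube h0
    have h2 : y ^ 3 / 6 ≤ y * (y / π) := by
      rw [← mul_div_assoc, le_div_iff₀ (by linarith)]
      have : y * π ≤ 6 := by nlinarith
      nlinarith [mul_nonneg (sq_nonneg y) (sub_nonneg.2 this)]
    linarith
  rcases le_total x (π / 2) with h | h
  · exact key x h0 h
  · have := key (π - x) (by linarith) (by linarith)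
    rw [sin_pi_sub] at this
    convert this using 1; field_simp; ring

/-- upper bound for `exp` on `[0, 8]` -/
noncomputable def eU (x : ℝ) : ℝ :=
  (1 + x / 8 + (x / 8) ^ 2 / 2 + (x / 8) ^ 3 / 6 + (x / 8) ^ 4 / 24 + (x / 8) ^ 5 / 100) ^ 8

/-- lower bound for `exp` on `[0, ∞)` -/
noncomputable def eL (x : ℝ) : ℝ :=
  (1 + x / 16 + (x / 16) ^ 2 / 2 + (x / 16) ^ 3 / 6 + (x / 16) ^ 4 / 24) ^ 16

lemma exp_le_eU {x : ℝ} (h0 : 0 ≤ x) (h1 : x ≤ 8) : exp x ≤ eU x := by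
  have h := exp_bound' (x := x / 8) (by linarith) (by linarith) (n := 5) (by norm_num)
  simp [Finset.sum_range_succ, Nat.factorial] at h
  have e : exp x = exp (x / 8) ^ 8 := by rw [← exp_nat_mul]; congr 1; push_cast; ring
  rw [e, eU]
  apply pow_le_pow_left₀ (exp_pos _).le
  linarith

lemma eL_le_exp {x : ℝ} (h0 : 0 ≤ x) : eL x ≤ exp x := by
  have h := sum_le_exp_of_nonneg (x := x / 16) (by linarith) 5
  simp [Finset.sum_range_succ, Nat.factorial] at h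
  have e : exp x = exp (x / 16) ^ 16 := by rw [← exp_nat_mul]; congr 1; push_cast; ring
  rw [e, eL]
  apply pow_le_pow_left₀ (by positivity)
  linarith

lemma exp_neg_le_of {x E : ℝ} (h0 : 0 ≤ x) (h : 1 ≤ E * eL x) : exp (-x) ≤ E := by
  have h1 := eL_le_exp h0
  have h2 := exp_mul_neg x
  have h3 := exp_pos (-x)
  have h4 : 0 < eL x := by unfold eL; positivity
  have hE : 0 ≤ E := by by_contra hc; push Not at hc; nlinarith
  nlinarith [mul_le_mul_of_nonneg_left h1 hE]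

lemma le_exp_neg_of {x E : ℝ} (h0 : 0 ≤ x) (h1 : x ≤ 8) (hE : 0 ≤ E) (h : E * eU x ≤ 1) :
    E ≤ exp (-x) := by
  have h1 := exp_le_eU h0 h1
  have h2 := exp_mul_neg x
  have h3 := exp_pos (-x)
  nlinarith [mul_le_mul_of_nonneg_left h1 hE]

/-- `p1 u = 1 / (e^u - 1)` -/
noncomputable def p1 (u : ℝ) : ℝ := exp (-u) / (1 - exp (-u))
/-- `p2 u = e^u / (e^u - 1)^2` -/
noncomputable def p2 (u : ℝ) : ℝ := p1 u * (1 + p1 u)

lemma x_lt_one {u : ℝ} (hu : 0 < u) : exp (-u) < 1 := by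
  rw [exp_lt_one_iff]; linarith

lemma p1_pos {u : ℝ} (hu : 0 < u) : 0 < p1 u :=
  div_pos (exp_pos _) (by have := x_lt_one hu; linarith)

lemma p2_pos {u : ℝ} (hu : 0 < u) : 0 < p2 u := by
  have := p1_pos hu; unfold p2; positivity

lemma p1_eq {u : ℝ} (hu : 0 < u) : p1 u = (1 + p1 u) * exp (-u) := by
  have := x_lt_one hu
  have : 1 - exp (-u) ≠ 0 := by linarith
  unfold p1; field_simp; ring

lemma one_add_p1 {u : ℝ} (hu : 0 < u) : (1 + p1 u) * (1 - exp (-u)) = 1 := by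
  have := p1_eq hu; linarith

lemma k_le {u : ℝ} (hu : 0 < u) : u * (1 + p1 u) ≤ 1 + u / 2 + u ^ 2 / 12 := by
  have h1 := pade_up hu.le
  have h2 := one_add_p1 hu
  have h3 := p1_pos hu
  have : u ≤ (1 + u / 2 + u ^ 2 / 12) * (1 - exp (-u)) := by nlinarith
  calc u * (1 + p1 u) ≤ (1 + u / 2 + u ^ 2 / 12) * (1 - exp (-u)) * (1 + p1 u) := by gcongr
    _ = (1 + u / 2 + u ^ 2 / 12) * ((1 + p1 u) * (1 - exp (-u))) := by ring
    _ = _ := by rw [h2, mul_one]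

lemma le_k {u : ℝ} (hu : 0 < u) : 1 + u / 2 + u ^ 2 / 12 - u ^ 4 / 720 ≤ u * (1 + p1 u) := by
  have h1 := pade_lo hu.le
  have h2 := one_add_p1 hu
  have h3 := p1_pos hu
  have : (1 + u / 2 + u ^ 2 / 12 - u ^ 4 / 720) * (1 - exp (-u)) ≤ u := by nlinarith
  calc _ = (1 + u / 2 + u ^ 2 / 12 - u ^ 4 / 720) * ((1 + p1 u) * (1 - exp (-u))) := by
        rw [h2, mul_one]
    _ = (1 + u / 2 + u ^ 2 / 12 - u ^ 4 / 720) * (1 - exp (-u)) * (1 + p1 u) := by ring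
    _ ≤ _ := by gcongr

lemma le_k_sq {u : ℝ} (hu : 0 < u) : 1 + u + 5 / 12 * u ^ 2 ≤ (u * (1 + p1 u)) ^ 2 := by
  have h3 := p1_pos hu
  rcases le_total u 3 with h | h
  · have h1 := le_k hu
    have hu2 : u ^ 2 ≤ 9 := by nlinarith
    have h0 : 1 + u / 2 + u ^ 2 / 12 - u ^ 2 / 80 ≤ u * (1 + p1 u) := by nlinarith
    have h4 : 0 ≤ 1 + u / 2 + u ^ 2 / 12 - u ^ 4 / 720 := by nlinarith
    have h5 := pow_le_pow_left₀ h4 h1 2
    have h6 : u ^ 3 ≤ 27 := by nlinarith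
    have h7 : 0 ≤ u ^ 3 * (1 / 12 + u / 240 - u ^ 2 / 720 - u ^ 3 / 4320) := by
      apply mul_nonneg (by positivity); nlinarith
    have h8 : 0 ≤ u ^ 8 := by positivity
    nlinarith
  · have : u ≤ u * (1 + p1 u) := by nlinarith
    have h5 := pow_le_pow_left₀ hu.le this 2
    nlinarith

lemma le_k' {u : ℝ} (hu : 0 < u) : 1 + u / 2 ≤ u * (1 + p1 u) := by
  have h := le_k_sq hu
  have h3 := p1_pos hu
  exact le_of_sq_le_sq (by nlinarith) (by positivity)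

lemma chi_eq {u : ℝ} (hu : 0 < u) : u ^ 2 * p2 u = (u * (1 + p1 u)) ^ 2 * exp (-u) := by
  have := p1_eq hu
  unfold p2
  calc u ^ 2 * (p1 u * (1 + p1 u)) = u ^ 2 * (((1 + p1 u) * exp (-u)) * (1 + p1 u)) := by rw [← this]
    _ = _ := by ring

lemma chi_ge {u : ℝ} (hu : 0 < u) : (1 + u + 5 / 12 * u ^ 2) * exp (-u) ≤ u ^ 2 * p2 u := by
  rw [chi_eq hu]; have := le_k_sq hu; have := exp_pos (-u); gcongr

lemma chi_le {u : ℝ} (hu : 0 < u) : u ^ 2 * p2 u ≤ (1 + u / 2 + u ^ 2 / 12) ^ 2 * exp (-u) := by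
  rw [chi_eq hu]; have := k_le hu; have := exp_pos (-u); have := p1_pos hu; gcongr

lemma chi_le' {u : ℝ} (hu : 0 < u) : u ^ 2 * p2 u * (1 + u ^ 2 / 12 + u ^ 4 / 360) ≤ 1 := by
  have h1 := cosh_ge (u := u)
  rw [cosh_eq] at h1
  have h2 := one_add_p1 hu
  have h3 := p1_eq hu
  have h4 := exp_mul_neg u
  have h5 := p2_pos hu
  have e : p2 u * (exp u + exp (-u) - 2) = 1 := by
    have : p2 u = (1 + p1 u) ^ 2 * exp (-u) := by
      unfold p2; nth_rewrite 1 [h3]; ring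
    rw [this]
    calc (1 + p1 u) ^ 2 * exp (-u) * (exp u + exp (-u) - 2)
        = (1 + p1 u) ^ 2 * (exp u * exp (-u) + exp (-u) ^ 2 - 2 * exp (-u)) := by ring
      _ = ((1 + p1 u) * (1 - exp (-u))) ^ 2 := by rw [h4]; ring
      _ = 1 := by rw [h2]; ring
  calc u ^ 2 * p2 u * (1 + u ^ 2 / 12 + u ^ 4 / 360)
      = p2 u * (u ^ 2 + u ^ 4 / 12 + u ^ 6 / 360) := by ring
    _ ≤ p2 u * (exp u + exp (-u) - 2) := by gcongr; linarith
    _ = 1 := e

lemma chi_le_one {u : ℝ} (hu : 0 < u) : u ^ 2 * p2 u ≤ 1 := by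
  have h := chi_le' hu
  have h5 := p2_pos hu
  have : 0 ≤ u ^ 2 * p2 u * (u ^ 2 / 12 + u ^ 4 / 360) := by positivity
  nlinarith

lemma k3_le {u : ℝ} (hu : 0 < u) : u * (1 + 2 * p1 u) ≤ 2 + u ^ 2 / 6 := by
  have := k_le hu; nlinarith

lemma F3a {u : ℝ} (hu : 0 < u) : u ^ 3 * (p2 u * (1 + 2 * p1 u)) ≤ 2 := by
  have h := chi_le' hu
  have h5 := p2_pos hu
  have h6 := k3_le hu
  have : 0 ≤ u ^ 2 * p2 u * (u ^ 4 / 360) := by positivity
  calc u ^ 3 * (p2 u * (1 + 2 * p1 u)) = u ^ 2 * p2 u * (u * (1 + 2 * p1 u)) := by ring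
    _ ≤ u ^ 2 * p2 u * (2 + u ^ 2 / 6) := by gcongr
    _ ≤ 2 := by nlinarith

lemma F3b {u : ℝ} (hu : 0 < u) : u ^ 3 * (p2 u * (1 + 2 * p1 u))
    ≤ (1 + u / 2 + u ^ 2 / 12) ^ 2 * (2 + u ^ 2 / 6) * exp (-u) := by
  have h := chi_le hu
  have h5 := p2_pos hu
  have h7 := p1_pos hu
  have h6 := k3_le hu
  calc u ^ 3 * (p2 u * (1 + 2 * p1 u)) = u ^ 2 * p2 u * (u * (1 + 2 * p1 u)) := by ring
    _ ≤ (1 + u / 2 + u ^ 2 / 12) ^ 2 * exp (-u) * (2 + u ^ 2 / 6) := by gcongr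
    _ = _ := by ring

lemma F4a {u : ℝ} (hu : 0 < u) : u ^ 4 * (p2 u * (1 + 6 * p2 u)) ≤ 31 / 5 := by
  have h := chi_le' hu
  have h5 := p2_pos hu
  set c := u ^ 2 * p2 u with hc
  set y := u ^ 2 with hy
  have hy0 : 0 ≤ y := by positivity
  have hc0 : 0 ≤ c := by positivity
  have e : u ^ 4 * (p2 u * (1 + 6 * p2 u)) = c * (y + 6 * c) := by rw [hc, hy]; ring
  have e4 : u ^ 4 = y ^ 2 := by rw [hy]; ring
  rw [e]; rw [e4] at h
  set s := 1 + y / 12 + y ^ 2 / 360 with hs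
  have hs0 : 0 < s := by positivity
  have h1 : c ≤ 1 / s := by rw [le_div_iff₀ hs0]; exact h
  have h2 : y * s + 6 ≤ 31 / 5 * s ^ 2 := by
    rw [hs]; nlinarith [sq_nonneg (y ^ 2 - 60), sq_nonneg (y - 8), mul_nonneg hy0 (sq_nonneg (y - 8))]
  calc c * (y + 6 * c) ≤ 1 / s * (y + 6 * (1 / s)) := by gcongr
    _ = (y * s + 6) / s ^ 2 := by field_simp
    _ ≤ 31 / 5 := by rw [div_le_iff₀ (by positivity)]; exact h2

lemma F4b {u : ℝ} (hu : 0 < u) : u ^ 4 * (p2 u * (1 + 6 * p2 u))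
    ≤ (1 + u / 2 + u ^ 2 / 12) ^ 2 * (6 + u ^ 2) * exp (-u) := by
  have h := chi_le hu
  have h1 := chi_le_one hu
  have h5 := p2_pos hu
  calc u ^ 4 * (p2 u * (1 + 6 * p2 u)) = u ^ 2 * p2 u * (6 * (u ^ 2 * p2 u) + u ^ 2) := by ring
    _ ≤ (1 + u / 2 + u ^ 2 / 12) ^ 2 * exp (-u) * (6 * 1 + u ^ 2) := by gcongr
    _ = _ := by ring

lemma F1 {u : ℝ} (hu : 0 < u) : u * p1 u ≤ (1 + u / 2 + u ^ 2 / 12) * exp (-u) := by
  have h := k_le hu
  have h1 := p1_eq hu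
  have := exp_pos (-u)
  calc u * p1 u = u * (1 + p1 u) * exp (-u) := by nth_rewrite 1 [h1]; ring
    _ ≤ _ := by gcongr

lemma flo_anti {a b : ℝ} (ha : 0 ≤ a) (hab : a ≤ b) :
    (1 + b + 5 / 12 * b ^ 2) * exp (-b) ≤ (1 + a + 5 / 12 * a ^ 2) * exp (-a) := by
  obtain ⟨d, rfl⟩ : ∃ d, b = a + d := ⟨b - a, by ring⟩
  have hd : 0 ≤ d := by linarith
  have h := quadratic_le_exp_of_nonneg hd
  have e : exp (-a) = exp d * exp (-(a + d)) := by rw [← exp_add]; congr 1; ring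
  rw [e, ← mul_assoc]
  gcongr
  have : 0 ≤ a + 5 / 12 * a ^ 2 := by positivity
  calc _ ≤ (1 + a + 5 / 12 * a ^ 2) * (1 + d + d ^ 2 / 2) := by
        nlinarith [mul_nonneg ha hd, mul_nonneg this (sq_nonneg d), mul_nonneg (sq_nonneg a) hd]
    _ ≤ _ := by gcongr

lemma fhi_anti {a b : ℝ} (ha : 0 ≤ a) (hab : a ≤ b) :
    (1 + b / 2 + b ^ 2 / 12) ^ 2 * exp (-b) ≤ (1 + a / 2 + a ^ 2 / 12) ^ 2 * exp (-a) := by
  obtain ⟨d, rfl⟩ : ∃ d, b = a + d := ⟨b - a, by ring⟩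
  have hd : 0 ≤ d := by linarith
  have h := quadratic_le_exp_of_nonneg (x := d / 2) (by linarith)
  have e : exp (-a) = exp (d / 2) ^ 2 * exp (-(a + d)) := by
    rw [← exp_nat_mul, ← exp_add]; congr 1; push_cast; ring
  rw [e, ← mul_assoc, ← mul_pow]
  gcongr
  have : 0 ≤ a / 2 + a ^ 2 / 12 := by positivity
  calc _ ≤ (1 + a / 2 + a ^ 2 / 12) * (1 + d / 2 + (d / 2) ^ 2 / 2) := by
        nlinarith [mul_nonneg ha hd, mul_nonneg this (sq_nonneg d), mul_nonneg (sq_nonneg a) hd]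
    _ ≤ _ := by gcongr

end Pool.Agent.Lib.MP_e3fe77_co
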