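import Pool.Agent.Lib.MP_e3fe77_co.Kron

/-! Coefficients of small index, uniformly in `n`, through a Bonferroni inequality. -/

namespace Pool.Agent.Lib.MP_e3fe77_co
open PowerSeries Finset

/-- the first `M` coefficients are non-negative -/
def NN (M : ℕ) (f : ℤ⟦X⟧) : Prop := ∀ i < M, 0 ≤ coeff i f

variable {M : ℕ} {f g : ℤ⟦X⟧}

lemma NN.add (h : NN M f) (k : NN M g) : NN M (f + g) := fun i hi => by
  rw [map_add]; exact add_nonneg (h i hi) (k i hi)

lemma NN.mul (h : NN M f) (k : NN M g) : NN M (f * g) := fun i hi => by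
  rw [coeff_mul]
  refine sum_nonneg fun x hx => ?_
  have := mem_antidiagonal.1 hx
  exact mul_nonneg (h _ (by omega)) (k _ (by omega))

lemma NN.of_eq (h : NN M f) (e : g = f) : NN M g := e ▸ h

lemma NN.X_pow (j : ℕ) : NN M (X ^ j) := fun i _ => by
  rw [coeff_X_pow]; split_ifs <;> norm_num

lemma NN.one : NN M 1 := (NN.X_pow 0).of_eq (by simp)

lemma NN.zero : NN M 0 := fun i _ => by simp

lemma NN.sumX (s : Finset ℕ) : NN M (∑ a ∈ s, X ^ a) :=
  sum_induction _ (NN M) (fun _ _ => NN.add) NN.zero (fun a _ => NN.X_pow a)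

/-- the geometric series in `X ^ b` -/
def G (b : ℕ) : ℤ⟦X⟧ := mk fun i => if b ∣ i then 1 else 0

lemma NN.G (b : ℕ) : NN M (G b) := fun i _ => by
  rw [MP_e3fe77_co.G, coeff_mk]; split_ifs <;> norm_num

lemma G_mul {b : ℕ} (hb : 1 ≤ b) : G b * (1 - X ^ b) = 1 := by
  ext i
  rw [mul_sub, mul_one, map_sub, coeff_mul_X_pow', coeff_one, G, coeff_mk]
  by_cases h : b ≤ i
  · rw [if_pos h, coeff_mk, if_neg (show i ≠ 0 by omega)]
    simp [Nat.dvd_sub_iff_left h (dvd_refl b)]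
  · rw [if_neg h]
    by_cases h0 : i = 0
    · simp [h0]
    · rw [if_neg h0, if_neg (fun hd => h (Nat.le_of_dvd (by omega) hd))]; simp

/-- a product of geometric series -/
noncomputable def GG (lo hi : ℕ) : ℤ⟦X⟧ := ∏ b ∈ Ioc lo hi, G b

lemma coe_pr (lo hi : ℕ) : (pr lo hi : ℤ⟦X⟧) = ∏ b ∈ Ioc lo hi, (1 - X ^ b) := by
  rw [pr, ← Polynomial.coeToPowerSeries.ringHom_apply, map_prod]
  simp

lemma GG_mul (lo hi : ℕ) : GG lo hi * (pr lo hi : ℤ⟦X⟧) = 1 := by
  rw [coe_pr, GG, ← prod_mul_distrib]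
  exact prod_eq_one fun b hb => G_mul (by have := (mem_Ioc.1 hb).1; omega)

lemma GG_nn {lo hi : ℕ} (h : lo ≤ hi) : NN M (GG lo hi) ∧ NN M (GG lo hi - 1) ∧
    NN M (1 + (∑ b ∈ Ioc lo hi, X ^ b) * GG lo hi - GG lo hi) := by
  induction hi, h using Nat.le_induction with
  | base => simp [GG, NN.one, NN.zero]
  | succ k hk ih =>
    obtain ⟨h1, h2, h3⟩ := ih
    have e := G_mul (b := k + 1) (by omega)
    unfold GG at *
    rw [prod_Ioc_succ_top hk, sum_Ioc_succ_top hk]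
    have h4 := h1.mul (NN.G (k + 1))
    have h5 := (NN.X_pow (k + 1)).mul h4
    refine ⟨h4, (h2.add h5).of_eq ?_, (h3.add ((NN.sumX (Ioc lo k)).mul h5)).of_eq ?_⟩
    · linear_combination (∏ b ∈ Ioc lo k, G b) * e
    · linear_combination ((∑ b ∈ Ioc lo k, X ^ b) - 1) * (∏ b ∈ Ioc lo k, G b) * e

lemma bonf {F : ℤ⟦X⟧} (hF : NN M F) (s : Finset ℕ) : NN M (F - (∑ a ∈ s, X ^ a) * F) →
    NN M (F - F * ∏ a ∈ s, (1 - X ^ a)) ∧
      NN M (F * ∏ a ∈ s, (1 - X ^ a) - F + (∑ a ∈ s, X ^ a) * F) := by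
  induction s using Finset.induction_on with
  | empty => intro _; simp [NN.zero]
  | insert a s ha ih =>
    rw [sum_insert ha, prod_insert ha]
    intro h
    have h0 : NN M (F - (∑ a ∈ s, X ^ a) * F) := (h.add ((NN.X_pow a).mul hF)).of_eq (by ring)
    obtain ⟨h1, h2⟩ := ih h0
    exact ⟨(h1.add ((NN.X_pow a).mul (h2.add h0))).of_eq (by ring),
      (h2.add ((NN.X_pow a).mul h1)).of_eq (by ring)⟩

lemma sum_le_G {l lo hi : ℕ} (h : l ≤ lo) : NN M (X ^ (l + 1) * G 1 - ∑ a ∈ Ioc lo hi, X ^ a) := by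
  intro i _
  rw [map_sub, coeff_X_pow_mul', map_sum, G, coeff_mk]
  simp only [coeff_X_pow, sum_ite_eq, mem_Ioc, one_dvd, if_true]
  split_ifs <;> omega

lemma NN.rec' {U Y : ℤ⟦X⟧} (hY : NN M Y) (h : NN M (U - X * Y * U)) : NN M U := by
  have : ∀ N ≤ M, NN N U := by
    intro N
    induction N with
    | zero => intro _ i hi; omega
    | succ N ih =>
      intro hN i hi
      have h1 := h i (by omega)
      have h2 : NN N (Y * U) := NN.mul (fun i hi => hY i (by omega)) (ih (by omega))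
      rw [map_sub, mul_assoc] at h1
      rcases i with _ | i
      · simpa using h1
      · rw [coeff_succ_X_mul] at h1
        have := h2 i (by omega); linarith
  exact this M le_rfl

/-- Newton iteration for an inverse modulo a power of two -/
def inv2 (a T : ℕ) : ℕ → ℕ
  | 0 => 1
  | k + 1 => let x := inv2 a T k; (x * (T + 2 - ((a * x) &&& (T - 1)))) &&& (T - 1)

/-- the check for all `n ≥ 2 h` and all indices below `M` -/
def chkB (h M b k : ℕ) : Bool :=
  let B := 6 * h + 4 + b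
  let T := 1 <<< (B * M)
  let q := (1 <<< B) + (1 <<< (B * (4 * h + 1))) + (1 <<< (B * (6 * h + 1))) - 1
  let den := pt B (6 * h / 4 + 1) 2 (1 + 1) (6 * h + 1) * q
  let num := q + (1 <<< (B * (20 * h + 1)))
  let x := T - ((num * inv2 (den &&& (T - 1)) T 24) &&& (T - 1))
  (x &&& rep B (((1 <<< (6 * h + 4)) - 1) <<< b) k == 0) && decide (M ≤ 2 ^ k)
    && (((x * den + num) &&& (T - 1)) == 0)

theorem chkB_sound {h M b k : ℕ} (hc : chkB h M b k = true) (hh : 1 ≤ h) {n : ℕ} (hn : 2 * h ≤ n) :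
    ∀ m < M, 0 ≤ (En n).coeff m := by
  simp only [chkB, Bool.and_eq_true, beq_iff_eq, decide_eq_true_eq] at hc
  obtain ⟨⟨h1, h2⟩, h3⟩ := hc
  obtain ⟨B, hB⟩ : ∃ B, B = 6 * h + 4 + b := ⟨_, rfl⟩
  rw [← hB] at h1 h3
  have hb := Bd.dig hB h2 h1
  set q := (1 <<< B) + (1 <<< (B * (4 * h + 1))) + (1 <<< (B * (6 * h + 1))) - 1 with hq
  set den := pt B (6 * h / 4 + 1) 2 (1 + 1) (6 * h + 1) * q with hden
  set num := q + (1 <<< (B * (20 * h + 1))) with hnum
  generalize 1 <<< (B * M) - ((num * inv2 (den &&& (1 <<< (B * M) - 1)) (1 <<< (B * M)) 24)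
    &&& (1 <<< (B * M) - 1)) = x at h3 hb
  obtain ⟨H, hH⟩ : ∃ H : ℤ⟦X⟧, (1 - X - X ^ (4 * h + 1) - X ^ (6 * h + 1)) * H = 1 := by
    apply IsUnit.exists_right_inv
    rw [isUnit_iff_constantCoeff]; simp
  have eL := GG_mul 1 (6 * h)
  have e1 := G_mul (b := 1) le_rfl
  rw [pow_one] at e1
  have hZ : NN M (GG 1 (6 * h) - X ^ (20 * h + 1) * GG 1 (6 * h) * H) := by
    refine kron_ps (Q := pr 1 (6 * h)
        * (1 - Polynomial.X - Polynomial.X ^ (4 * h + 1) - Polynomial.X ^ (6 * h + 1)))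
      (R := 1 - Polynomial.X - Polynomial.X ^ (4 * h + 1) - Polynomial.X ^ (6 * h + 1)
        - Polynomial.X ^ (20 * h + 1)) ?_ ?_ (x := x) (B := B) (fun i => ?_) ?_
    · simp only [Polynomial.coe_mul, Polynomial.coe_sub, Polynomial.coe_one, Polynomial.coe_pow,
        Polynomial.coe_X]
      linear_combination (1 - X ^ (20 * h + 1) * H) * (1 - X - X ^ (4 * h + 1) - X ^ (6 * h + 1)) * eL
        - X ^ (20 * h + 1) * hH
    · rw [Polynomial.mul_coeff_zero, pr_coeff_zero]; simp [Polynomial.coeff_X_pow]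
    · have a1 := hb.pr (show 1 ≤ 6 * h by omega)
      have a2 := ((a1.sub (a1.mulX 1)).sub (a1.mulX (4 * h + 1))).sub (a1.mulX (6 * h + 1))
      have a3 := (((Bd.one.sub (Bd.one.mulX 1)).sub (Bd.one.mulX (4 * h + 1))).sub
        (Bd.one.mulX (6 * h + 1))).sub (Bd.one.mulX (20 * h + 1))
      have a4 := (a2.sub a3) i
      simp only [one_mul, pow_one] at a4
      rw [← mul_assoc, mul_sub, mul_sub, mul_sub, mul_one]
      refine a4.trans_lt ?_
      rw [← pow_add, hB, show 6 * h + 4 + b = (6 * h - 1 + b) + 5 by omega, pow_add 2 _ 5]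
      have : (1 : ℤ) ≤ 2 ^ (6 * h - 1 + b) := one_le_pow₀ (by norm_num)
      linarith
    · have eq : (q : ℤ) = 2 ^ B + (2 ^ B) ^ (4 * h + 1) + (2 ^ B) ^ (6 * h + 1) - 1 := by
        rw [hq, Nat.cast_sub]
        · simp [Nat.shiftLeft_eq, pow_mul]
        · simp only [Nat.shiftLeft_eq, one_mul]
          exact Nat.one_le_two_pow.trans (Nat.le_add_left _ _)
      rw [Nat.shiftLeft_eq, one_mul, Nat.and_two_pow_sub_one_eq_mod] at h3
      have := Int.natCast_dvd_natCast.2 (Nat.dvd_of_mod_eq_zero h3)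
      rw [Nat.cast_add, Nat.cast_mul, hden, hnum, Nat.cast_mul, Nat.cast_add, eq, pt_pr (by omega),
        Odd.neg_one_pow ⟨3 * h - 1, by omega⟩, Nat.shiftLeft_eq, one_mul] at this
      push_cast at this
      convert this using 1
      simp only [Polynomial.eval_mul, Polynomial.eval_sub, Polynomial.eval_one, Polynomial.eval_pow,
        Polynomial.eval_X]
      rw [pow_mul 2 B (20 * h + 1)]; ring
  obtain ⟨l1, -, -⟩ := GG_nn (M := M) (show 1 ≤ 6 * h by omega)
  obtain ⟨u1, u2, u3⟩ := GG_nn (M := M) (show 6 * h ≤ 3 * n by omega)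
  obtain ⟨v1, v2, v3⟩ := GG_nn (M := M) (show 2 * n ≤ 4 * n by omega)
  have hW := u1.mul v1
  have hU : NN M ((1 - X) * H - GG (6 * h) (3 * n) * GG (2 * n) (4 * n)) := by
    refine NN.rec' (Y := (X ^ (4 * h) + X ^ (6 * h)) * G 1)
      (((NN.X_pow _).add (NN.X_pow _)).mul (NN.G 1)) ?_
    refine (((u3.add (((NN.sumX (Ioc (6 * h) (3 * n))).mul u1).mul v2)).add (u1.mul v3)).add
      (((sum_le_G (l := 6 * h) (lo := 6 * h) (hi := 3 * n) le_rfl).add
        (sum_le_G (l := 4 * h) (lo := 2 * n) (hi := 4 * n) (by omega))).mul hW)).of_eq ?_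
    linear_combination hH - (X ^ (4 * h + 1) + X ^ (6 * h + 1)) * H * e1
  have hF := l1.mul hW
  have hS : NN M (GG 1 (6 * h) * (GG (6 * h) (3 * n) * GG (2 * n) (4 * n))
      - (∑ a ∈ Ioc (10 * n) (15 * n), X ^ a)
        * (GG 1 (6 * h) * (GG (6 * h) (3 * n) * GG (2 * n) (4 * n)))) := by
    refine ((((l1.mul ((u2.mul v1).add v2)).add hZ).add
      ((((NN.X_pow (20 * h + 1)).mul (NN.G 1)).mul l1).mul hU)).add
      ((sum_le_G (l := 20 * h) (lo := 10 * n) (hi := 15 * n) (by omega)).mul hF)).of_eq ?_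
    linear_combination (-(X ^ (20 * h + 1)) * GG 1 (6 * h) * H) * e1
  have hE := (bonf hF _ hS).2.add hS
  have hD : En n * (pr 1 (6 * h) * pr (6 * h) (3 * n) * pr (2 * n) (4 * n))
      = pr (10 * n) (15 * n) := by
    rw [← Dn_eq, ← pr_mul (a := 0) (b := 1) (c := 3 * n) (by omega) (by omega),
      pr_mul (show 1 ≤ 6 * h by omega) (by omega), En]
    have : pr 0 1 = 1 - Polynomial.X := by simp [pr]
    rw [this]; ring
  have hD2 := congrArg (fun P : Polynomial ℤ => (P : ℤ⟦X⟧)) hD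
  simp only [Polynomial.coe_mul] at hD2
  have e2 := GG_mul (6 * h) (3 * n)
  have e3 := GG_mul (2 * n) (4 * n)
  intro m hm
  rw [← Polynomial.coeff_coe]
  refine hE.of_eq ?_ m hm
  rw [← coe_pr, ← hD2]
  generalize (pr 1 (6 * h) : ℤ⟦X⟧) = a1 at *
  generalize (pr (6 * h) (3 * n) : ℤ⟦X⟧) = a2 at *
  generalize (pr (2 * n) (4 * n) : ℤ⟦X⟧) = a3 at *
  linear_combination (-(En n : ℤ⟦X⟧)) * (GG (6 * h) (3 * n) * a2 * (GG (2 * n) (4 * n) * a3) * eL
    + (GG (2 * n) (4 * n) * a3) * e2 + e3)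

theorem chkB_64 : chkB 32 4110 230 13 = true := by decide +kernel
theorem chkB_76 : chkB 38 5250 260 13 = true := by decide +kernel

end Pool.Agent.Lib.MP_e3fe77_co
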