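import Pool.Agent.Lib.MP_e3fe77_co.RegII

/-! The range of large `n τ`. -/

namespace Pool.Agent.Lib.MP_e3fe77_co
open Real Finset

lemma PR.bound {P R : ℝ → ℝ} (h : PR P R) {n : ℕ} {τ T E : ℝ} (h0 : 0 ≤ T) (hT : T ≤ n * τ)
    (hE : exp (-T) ≤ E) (k : ℕ) :
    R ((k * n : ℕ) * τ) * exp (-((k * n : ℕ) * τ)) ≤ R (k * T) * E ^ k := by
  refine (h.anti (a := k * T) (by positivity) ?_).trans ?_
  · push_cast; rw [mul_assoc]; gcongr
  · have := h.2.2.2.2 (k * T) (by positivity)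
    rw [show -((k : ℝ) * T) = k * -T by ring, exp_nat_mul]; gcongr

lemma PR.sB_le {P R : ℝ → ℝ} (h : PR P R) {n : ℕ} {τ T E x : ℝ} (hτ : 0 < τ) (hx : exp τ ≤ x)
    (h0 : 0 ≤ T) (hT : T ≤ n * τ) (hE : exp (-T) ≤ E) {f : ℕ → ℝ}
    (hf : ∀ b, 0 < b → f b ≤ P (b * τ) * exp (-(b * τ))) :
    τ * sB n f ≤ x * (R 0 + R (2 * T) * E ^ 2) := by
  have a1 := h.upper' hτ (show 0 ≤ 3 * n by omega)
  have a2 := h.upper' hτ (show 2 * n ≤ 4 * n by omega)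
  have a3 := h.bound h0 hT hE 2
  have a4 := mul_le_mul_of_nonneg_left (MP_e3fe77_co.sB_le (n := n) hf) hτ.le
  have a5 := h.nonneg (a := (2 * n : ℕ) * τ) (by positivity)
  have a6 := h.2.2.2.2 0 le_rfl
  simp only [Nat.cast_zero, zero_mul, neg_zero, exp_zero, mul_one] at a1
  refine a4.trans ?_
  rw [sB, mul_add]
  refine (add_le_add a1 a2).trans ?_
  rw [← mul_add]
  have := (exp_pos τ).le.trans hx
  push_cast at a3 a5 ⊢
  gcongr

/-- antiderivative polynomial for `c3` -/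
noncomputable def R3 : ℝ → ℝ := pol (25 / 2) (21 / 2) (17 / 4) (13 / 12) (3 / 16) (1 / 48) (1 / 864)
/-- antiderivative polynomial for `c4` -/
noncomputable def R4 : ℝ → ℝ := pol 54 48 21 (35 / 6) (13 / 12) (1 / 8) (1 / 144)

/-- numerical conditions for one arc when `n τ` is large -/
def FarOK3 (E L x b m : ℝ) : Prop := 0 ≤ x ∧ b ^ 2 ≤ x ^ 2 * (1 - (x / 52) ^ 2 / 12) ∧
  m ≤ b ^ 2 / (1.014 * (1.014 ^ 2 + b ^ 2)) - 2 * E ^ 4 - L

/-- numerical conditions for the range of large `n τ` -/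
def OKIII (T El E L v k3 k4 b0 b1 b2 b3
    s0 l1 u om k sg g g2 x0 x1 x2 x3 m1 m2 m3 m4 d1 d2 d3 d4 : ℝ) : Prop :=
  EOK T El E ∧ AOK 0 E L ∧
  v ≤ (1 - 1 / 52) * (Rl 0 - Rl (3 * T) * E ^ 3) - (1 + 1.014 / 52) * (R2 (10 * T) * E ^ 10) ∧
  (1 + 1.014 / 52) * (R2 0 + R2 (2 * T) * E ^ 2) ≤ u ∧
  (1 + 1.014 / 52) * (R3 0 + R3 (2 * T) * E ^ 2) ≤ k3 ∧
  (1 + 1.014 / 52) * (R4 0 + R4 (2 * T) * E ^ 2) ≤ k4 ∧ 0 ≤ k3 ∧ 0 ≤ k4 ∧
  x0 ≤ x1 ∧ x1 ≤ x2 ∧ x2 ≤ x3 ∧ x3 ≤ 150 ∧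
  FarOK3 E L x0 b0 m1 ∧ FarOK3 E L x1 b1 m2 ∧ FarOK3 E L x2 b2 m3 ∧ FarOK3 E L x3 b3 m4 ∧
  s0 ^ 2 ≤ 52 ∧ 1 ≤ l1 * s0 ^ 2 * 0.987 ∧ k3 ≤ 6 * 0.987 * g ∧ k3 ≤ 6 * g2 ∧
  k ≤ v - k4 * x0 ^ 2 / 12 ∧
  CoreOK s0 l1 1 1 u om k sg g g2 x0 x1 x2 x3 m1 m2 m3 m4 d1 d2 d3 d4

theorem regIII {T El E L v k3 k4 b0 b1 b2 b3
    s0 l1 u om k sg g g2 x0 x1 x2 x3 m1 m2 m3 m4 d1 d2 d3 d4 : ℝ}
    (ok : OKIII T El E L v k3 k4 b0 b1 b2 b3
      s0 l1 u om k sg g g2 x0 x1 x2 x3 m1 m2 m3 m4 d1 d2 d3 d4)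
    {n m : ℕ} {τ : ℝ} (hτ : 0 < τ) (hτ1 : τ ≤ 1 / 52) (h1 : T ≤ n * τ) (hmu : mu n τ = m) :
    0 ≤ (En n).coeff m := by
  obtain ⟨hE, hA, hv, hu, hk3, hk4, hk30, hk40, h01, h12, h23, h3, f0, f1, f2, f3, hs, hl1, hg, hg2,
    hk, hc⟩ := ok
  have hT := hE.1
  have hEn : exp (-(n * τ)) ≤ E := (exp_le_exp.2 (by linarith)).trans hE.hi
  have hx : exp τ ≤ 1 + 1.014 / 52 := by have := exp_small hτ.le (by linarith); linarith
  have far : ∀ {x b m' θ : ℝ}, FarOK3 E L x b m' → x * τ ≤ θ → θ ≤ π →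
      rho n τ θ ≤ -(1 / τ * m') := by
    intro x b m' θ ⟨g0, g1, g2⟩ a1 a2
    have a3 := tailA hτ le_rfl hEn le_rfl (exp_pos _).le hA.1 hA.2 θ
    have a4 := tailFar (n := n) (β := b * τ) (q := τ) (e := 1.014 * τ) hτ le_rfl (by positivity) a1 a2
      (by
        have : (x * τ) ^ 2 ≤ (x / 52) ^ 2 := by rw [div_eq_mul_one_div]; gcongr
        calc (b * τ) ^ 2 = b ^ 2 * τ ^ 2 := by ring
          _ ≤ x ^ 2 * (1 - (x / 52) ^ 2 / 12) * τ ^ 2 := by gcongr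
          _ ≤ x ^ 2 * (1 - (x * τ) ^ 2 / 12) * τ ^ 2 := by gcongr
          _ = _ := by ring)
      hτ (by nlinarith [sq_nonneg (b * τ)])
      (by have := exp_small hτ.le (by linarith); linarith) hEn
    have e : (b * τ) ^ 2 / (1.014 * τ * ((1.014 * τ) ^ 2 + (b * τ) ^ 2)) - E ^ 4 / τ - E ^ 4 / τ
        = 1 / τ * (b ^ 2 / (1.014 * (1.014 ^ 2 + b ^ 2)) - 2 * E ^ 4) := by field_simp; ring
    have a5 := mul_le_mul_of_nonneg_left g2 (show 0 ≤ 1 / τ by positivity)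
    rw [e] at a4
    rw [rho_eq_sub, div_eq_mul_one_div L] at *
    linarith
  have hπ : x3 * τ ≤ π := by nlinarith [pi_gt_three, f3.1]
  have conv : ∀ {S K : ℝ}, τ * S ≤ K → S ≤ K * (1 / τ) := fun h => by
    rw [mul_one_div, le_div_iff₀' hτ]; exact h
  refine regAB (ν := 1 / τ) (v := v) (k3 := k3) (k4 := k4) (θ1 := x1 * τ) (θ2 := x2 * τ)
    (θ3 := x3 * τ) hτ (by linarith) hmu hc (hs.trans (by rw [le_div_iff₀ hτ]; linarith)) hl1
    (by field_simp; rfl) hk30 hk40 hg hg2 hk ?_ ?_ ?_ ?_ ?_ (by gcongr) (by gcongr) (by gcongr) hπ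
    le_rfl le_rfl le_rfl
    (fun θ a1 a2 => far f0 a1 (a2.trans (le_trans (by gcongr; linarith) hπ)))
    (fun θ a1 a2 => far f1 a1 (a2.trans (le_trans (by gcongr) hπ)))
    (fun θ a1 a2 => far f2 a1 (a2.trans hπ)) (fun θ a1 a2 => far f3 a1 a2)
  · exact conv ((PR2.sB_le hτ hx hT h1 hE.hi fun b hb => c2_le (npos hτ hb) le_rfl).trans hu)
  · have a1 := sB_le (n := n) (g := fun b => c2 (b * τ)) fun b hb => c2_ge (npos hτ hb) le_rfl
    have a2 := sA_le (n := n) (f := fun b => c2 (b * τ)) fun b hb =>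
      c2_le (npos hτ (by omega)) le_rfl
    have a3 := PRlo.lower hτ (show 0 ≤ 3 * n by omega)
    have a4 := PRlo.lower hτ (show 2 * n ≤ 4 * n by omega)
    have a5 := PR2.upper' hτ (show 10 * n ≤ 15 * n by omega)
    have a6 := PRlo.bound hT h1 hE.hi 3
    have a7 := PR2.bound hT h1 hE.hi 10
    have w1 := PRlo.anti (a := (0 : ℕ) * τ) (b := (3 * n : ℕ) * τ) (by positivity)
      (by gcongr; omega)
    have w2 := PRlo.anti (a := (2 * n : ℕ) * τ) (b := (4 * n : ℕ) * τ) (by positivity)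
      (by gcongr; omega)
    have w3 := PR2.nonneg (a := (10 * n : ℕ) * τ) (by positivity)
    have x1 : 1 - 1 / 52 ≤ exp (-τ) := by have := add_one_le_exp (-τ); linarith
    rw [← Rl] at a3 a4 a6 w1 w2; rw [← R2] at a5 a7 w3
    simp only [Nat.cast_zero, zero_mul, neg_zero, exp_zero, mul_one] at a3 w1
    have b1 := mul_nonneg (exp_pos (-τ)).le (sub_nonneg.2 w2)
    have b2 := mul_le_mul_of_nonneg_right x1 (sub_nonneg.2 w1)
    have b3 := mul_le_mul_of_nonneg_left a1 hτ.le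
    have b4 := mul_le_mul_of_nonneg_left a2 hτ.le
    have b5 := mul_le_mul_of_nonneg_right hx w3
    rw [sB, mul_add] at b3
    rw [sA, sA] at b4
    rw [mul_one_div, div_le_iff₀' hτ, mul_sub, sA]
    push_cast at *
    linarith
  · have a2 := sA_le (n := n) (f := fun b => c3 (b * τ))
      (g := fun b => pol 2 2 1 (1 / 3) (1 / 12) (1 / 72) (1 / 864) (b * τ) * exp (-(b * τ)))
      fun b hb => (F3b (npos hτ (by omega))).trans_eq (by unfold pol; ring)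
    have a5 := PR3.upper' hτ (show 10 * n ≤ 15 * n by omega)
    have w1 := PR3.anti (a := 0) (b := (10 * n : ℕ) * τ) le_rfl (by positivity)
    have w2 := PR3.nonneg (a := (10 * n : ℕ) * τ) (by positivity)
    have w3 := PR3.2.2.2.2 (2 * T) (by positivity)
    rw [← R3] at a5 w1 w2 w3
    rw [neg_zero, exp_zero, mul_one] at w1
    refine conv ((mul_le_mul_of_nonneg_left a2 hτ.le).trans (a5.trans (le_trans ?_ hk3)))
    have : 0 ≤ R3 (2 * T) * E ^ 2 := by positivity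
    gcongr; linarith
  · exact conv ((PR3.sB_le hτ hx hT h1 hE.hi fun b hb =>
      (F3b (npos hτ hb)).trans_eq (by unfold pol; ring)).trans hk3)
  · exact conv ((PR4.sB_le hτ hx hT h1 hE.hi fun b hb =>
      (F4b (npos hτ hb)).trans_eq (by unfold pol; ring)).trans hk4)

lemma mu_le {n : ℕ} {τ T E x : ℝ} (hτ : 0 < τ) (hx : exp τ ≤ x) (h0 : 0 ≤ T) (hT : T ≤ n * τ)
    (hE : exp (-T) ≤ E) :
    τ ^ 2 * mu n τ ≤ x * (5 / 3 + (5 / 3 + 2 / 3 * (2 * T) + (2 * T) ^ 2 / 12) * E ^ 2) := by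
  have a1 := PR1.sB_le hτ hx h0 hT hE (f := fun b => b * p1 (b * τ) * τ + b * p1 (b * τ) * 0)
    fun b hb => le_trans (le_of_eq (by ring)) ((F1 (npos hτ hb)).trans_eq (by unfold pol; ring))
  have a2 : sA n (fun _ => 0) ≤ sA n (fun b => b * p1 (b * τ)) := sA_le fun b hb =>
    mul_nonneg (Nat.cast_nonneg b) (p1_pos (npos hτ (by omega))).le
  rw [sB_lin] at a1; rw [sA_const] at a2
  have e6 : mu n τ = -(sA n (fun b => b * p1 (b * τ)) - sB n (fun b => b * p1 (b * τ))) := rfl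
  have := mul_le_mul_of_nonneg_left a2 (sq_nonneg τ)
  unfold pol at a1
  rw [e6]; linarith

end Pool.Agent.Lib.MP_e3fe77_co
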