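import Pool.Agent.Lib.MP_e3fe77_co.RegI
import Pool.Agent.Lib.MP_e3fe77_co.RegIII

/-! Numerical certificates. -/

namespace Pool.Agent.Lib.MP_e3fe77_co

theorem ok1 : OKI 0 0.12 0.17 0.17 0.843664 0.843665 0.843664 0.843665 0.2165 60.99 0.2281 7.387
    0.2 0.45 1.8 2.9 2.899 2.903 2.626 2.457 2.267 1.483 0 3.019 7.553 1.303 0 0 2.521 62.47
    0.2225 0.0164 1.413 0.7427 1.641 7.41 0.8866 0.01485 0.01197 0.004433 0.006023
    0.00000000000000000000002 0.00000000000000000011 0.000000034 0.000000000082 := by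
  simp only [OKI, EOK, AOK, BlockOK, ZOK, FarOK, FarOK3, CoreOK, eU, eL, Fk, eY, eX, kap, Rl, R2,
    R3, R4, pol]
  norm_num

theorem ok2 : OKI 0.12 0.26 0.19 0.26 0.826959 0.82696 0.771051 0.771052 0.1877 51.23 0.1349 6.091
    0.16 0.4 1.5 2.6 2.599 2.611 2.259 1.44 1.342 1.244 0.2572 1.985 4.391 1.719 0 0 2.177 57.26
    0.00255 0.01952 1.413 0.3906 2.263 6.11 1.584 0.004999 0.004243 0.00715 0.008391 0.000000082
    0.00000094 0.000000000087 0.0000000000019 := by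
  simp only [OKI, EOK, AOK, BlockOK, ZOK, FarOK, FarOK3, CoreOK, eU, eL, Fk, eY, eX, kap, Rl, R2,
    R3, R4, pol]
  norm_num

theorem ok3 : OKII 0.26 0.36 0.771051 0.771052 0.697676 0.697677 0.1087 2.166 0.35 0.6 1.6 1.599
    1.639 1.801 0.542 0.524 0.506 0.488 0.5291 0.918 0.8638 0.8096 0.7554 1.205 1.507 1.348 1.047
    0 1.757 0.01584 3.847 0.6324 1.355 1.215 1.689 1.667 0.56 1.35 2.31 6.16 0.111 0.7869 1.338
    1.382 0.00083 0.0000000000000000000059 0.00000000000000000000000000000033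
    0.000000000000000000000000000000067 := by
  simp only [OKII, EOK, AOK, BlockOK, ZOK, FarOK, FarOK3, CoreOK, eU, eL, Fk, eY, eX, kap, Rl, R2,
    R3, R4, pol]
  norm_num

theorem ok4 : OKII 0.36 0.8 0.697676 0.697677 0.449328 0.449329 0.04565 2.069 0.5 0.8 1.6 1.599
    1.787 0.9066 0.433 0.406 0.3791 0.3521 0.2316 0.5752 0.5254 0.4757 0.4259 0.3697 0.8726 0.7452
    0.4713 0 0.55 0.01584 2.778 0.6324 1.522 1.147 1.689 1.667 0.46 1.39 2.23 4.45 0.1047 0.2428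
    0.4231 0.7797 0.0013 0.00000019 0.0000000000028 0.0000000000000000000084 := by
  simp only [OKII, EOK, AOK, BlockOK, ZOK, FarOK, FarOK3, CoreOK, eU, eL, Fk, eY, eX, kap, Rl, R2,
    R3, R4, pol]
  norm_num

theorem ok5 : OKII 0.8 1.3 0.449328 0.449329 0.272531 0.272532 0.0006587 2.308 0.75 1 1.6 1.599
    2.06 0.4447 0.3999 0.3598 0.3197 0.2796 0.1181 0.508 0.4391 0.3702 0.2792 0.1742 0.6467 0.5242
    0.29 0 0.2276 0.01584 1.25 0.6324 1.807 1.053 1.689 1.667 0.44 0.938 1.25 2 0.1172 0.1733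
    0.2267 0.4438 0.00056 0.000016 0.00000052 0.00000000000082 := by
  simp only [OKII, EOK, AOK, BlockOK, ZOK, FarOK, FarOK3, CoreOK, eU, eL, Fk, eY, eX, kap, Rl, R2,
    R3, R4, pol]
  norm_num

theorem ok6 : OKII 1.3 1.65 0.272531 0.272532 0.192049 0.192051 0.000004514 1.845 0.85 1.1 1.7
    1.699 2.368 0.302 0.3891 0.3382 0.2874 0.2362 0.08087 0.4454 0.3756 0.3059 0.1995 0.1011
    0.5498 0.4331 0.1935 0 0.1332 0.01584 0.7693 0.6324 1.344 1.22 1.689 1.667 0.44 0.654 0.847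
    1.31 0.08086 0.101 0.1331 0.3019 0.0057 0.0016 0.00021 0.0000000047 := by
  simp only [OKII, EOK, AOK, BlockOK, ZOK, FarOK, FarOK3, CoreOK, eU, eL, Fk, eY, eX, kap, Rl, R2,
    R3, R4, pol]
  norm_num

theorem ok7 : OKIII 1.65 0.192049 0.192051 0.000000137 2.625 18.92 86.53 0.2999 0.3999 0.5999
    1.499 7.21 0.0195 4.499 0.6667 1.976 1.007 3.195 3.154 0.3 0.4 0.6 1.5 0.0766 0.13 0.2529
    0.6738 0.019 0.0012 0.0000021 0.0000000000000021 := by
  simp only [OKIII, EOK, AOK, BlockOK, ZOK, FarOK, FarOK3, CoreOK, eU, eL, Fk, eY, eX, kap, Rl, R2,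
    R3, R4, pol]
  norm_num

end Pool.Agent.Lib.MP_e3fe77_co
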