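import Pool.Agent.Lib.MP_e3fe77_co.Kron

/-! Kernel computations for small `n`. -/

namespace Pool.Agent.Lib.MP_e3fe77_co

theorem chk_range0 (n : ℕ) (h1 : 1 ≤ n) (h2 : n < 42) : ∃ k, chk n k = true := by
  interval_cases n
  · exact ⟨5, by decide +kernel⟩
  · exact ⟨7, by decide +kernel⟩
  · exact ⟨8, by decide +kernel⟩
  · exact ⟨9, by decide +kernel⟩
  · exact ⟨10, by decide +kernel⟩
  · exact ⟨10, by decide +kernel⟩
  · exact ⟨11, by decide +kernel⟩
  · exact ⟨11, by decide +kernel⟩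
  · exact ⟨12, by decide +kernel⟩
  · exact ⟨12, by decide +kernel⟩
  · exact ⟨12, by decide +kernel⟩
  · exact ⟨12, by decide +kernel⟩
  · exact ⟨13, by decide +kernel⟩
  · exact ⟨13, by decide +kernel⟩
  · exact ⟨13, by decide +kernel⟩
  · exact ⟨13, by decide +kernel⟩
  · exact ⟨13, by decide +kernel⟩
  · exact ⟨14, by decide +kernel⟩
  · exact ⟨14, by decide +kernel⟩
  · exact ⟨14, by decide +kernel⟩
  · exact ⟨14, by decide +kernel⟩
  · exact ⟨14, by decide +kernel⟩
  · exact ⟨14, by decide +kernel⟩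
  · exact ⟨14, by decide +kernel⟩
  · exact ⟨14, by decide +kernel⟩
  · exact ⟨15, by decide +kernel⟩
  · exact ⟨15, by decide +kernel⟩
  · exact ⟨15, by decide +kernel⟩
  · exact ⟨15, by decide +kernel⟩
  · exact ⟨15, by decide +kernel⟩
  · exact ⟨15, by decide +kernel⟩
  · exact ⟨15, by decide +kernel⟩
  · exact ⟨15, by decide +kernel⟩
  · exact ⟨15, by decide +kernel⟩
  · exact ⟨15, by decide +kernel⟩
  · exact ⟨16, by decide +kernel⟩
  · exact ⟨16, by decide +kernel⟩
  · exact ⟨16, by decide +kernel⟩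
  · exact ⟨16, by decide +kernel⟩
  · exact ⟨16, by decide +kernel⟩
  · exact ⟨16, by decide +kernel⟩

end Pool.Agent.Lib.MP_e3fe77_co
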