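import Pool.Agent.Lib.MP_e3fe77_co.Chk2

/-! Kernel computations for small `n`. -/

namespace Pool.Agent.Lib.MP_e3fe77_co

theorem chk_range3 (n : ℕ) (h1 : 58 ≤ n) (h2 : n < 64) : ∃ k, chk n k = true := by
  interval_cases n
  · exact ⟨17, by decide +kernel⟩
  · exact ⟨17, by decide +kernel⟩
  · exact ⟨17, by decide +kernel⟩
  · exact ⟨17, by decide +kernel⟩
  · exact ⟨17, by decide +kernel⟩
  · exact ⟨17, by decide +kernel⟩

end Pool.Agent.Lib.MP_e3fe77_co
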