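import Pool.Agent.Lib.MP_e3fe77_co.Basic

/-! Abstract saddle point estimate. -/

namespace Pool.Agent.Lib.MP_e3fe77_co
open Real

lemma int_ge {H F f : ℝ → ℝ} (hH : Continuous H) {a b : ℝ} (hab : a ≤ b)
    (hF : ∀ x, HasDerivAt F (f x) x) (hf : Continuous f) (h : ∀ x, a ≤ x → x ≤ b → f x ≤ H x) :
    F b - F a ≤ ∫ x in a..b, H x := by
  rw [← intervalIntegral.integral_eq_sub_of_hasDerivAt (fun x _ => hF x) (hf.intervalIntegrable _ _)]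
  exact intervalIntegral.integral_mono_on hab (hf.intervalIntegrable _ _)
    (hH.intervalIntegrable _ _) (fun x hx => h x hx.1 hx.2)

lemma int_ge_const {H : ℝ → ℝ} (hH : Continuous H) {a b K : ℝ} (ha : 0 ≤ a) (hab : a ≤ b)
    (hK : 0 ≤ K) (h : ∀ x, a ≤ x → x ≤ b → -K ≤ H x) : -(K * b) ≤ ∫ x in a..b, H x := by
  have := int_ge hH hab (F := fun x => -K * x) (f := fun _ => -K)
    (fun x => by simpa using (hasDerivAt_id' x).const_mul (-K)) continuous_const h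
  nlinarith

lemma hd_gauss (a0 a2 a4 a6 σ x : ℝ) :
    HasDerivAt (fun x => (a0 + a2 * x ^ 2 + a4 * x ^ 4 + a6 * x ^ 6) * exp (-(x ^ 2 / σ ^ 2)))
      ((2 * a2 * x + 4 * a4 * x ^ 3 + 6 * a6 * x ^ 5
        - 2 * x / σ ^ 2 * (a0 + a2 * x ^ 2 + a4 * x ^ 4 + a6 * x ^ 6)) * exp (-(x ^ 2 / σ ^ 2))) x := by
  have := (((((hasDerivAt_pow 2 x).const_mul a2).const_add a0).add
    ((hasDerivAt_pow 4 x).const_mul a4)).add ((hasDerivAt_pow 6 x).const_mul a6)).mul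
    (((hasDerivAt_pow 2 x).div_const (σ ^ 2)).neg.exp)
  refine HasDerivAt.congr_deriv this ?_; simp; ring

lemma re_ge {r θ φ : ℝ} (hr0 : 0 ≤ r) (hr1 : r ≤ 1) (h0 : 0 ≤ θ) (h1 : θ ≤ π) :
    (1 - r) * (1 - φ ^ 2 / 2) - θ * |φ| ≤ cos φ - r * cos (θ + φ) := by
  have h2 := one_sub_sq_div_two_le_cos (x := φ)
  have h3 : cos φ - cos (θ + φ) = 2 * sin (θ / 2) * sin (φ + θ / 2) := by
    rw [cos_sub_cos, show (φ - (θ + φ)) / 2 = -(θ / 2) by ring, sin_neg,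
      show (φ + (θ + φ)) / 2 = φ + θ / 2 by ring]; ring
  have h4 : 0 ≤ sin (θ / 2) := sin_nonneg_of_nonneg_of_le_pi (by linarith) (by linarith)
  have h5 : sin (θ / 2) ≤ θ / 2 := sin_le (by linarith)
  have h6 : -|φ| ≤ sin (φ + θ / 2) := by
    have := abs_sin_sub_sin_le (φ + θ / 2) (θ / 2)
    rw [show φ + θ / 2 - θ / 2 = φ by ring] at this
    have := (abs_le.1 this).1
    linarith
  have h7 : 0 ≤ |φ| := abs_nonneg φ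
  have h8 : -(θ * |φ|) ≤ cos φ - cos (θ + φ) := by
    rw [h3]; nlinarith [mul_le_mul_of_nonneg_left h6 h4]
  have h9 : -(θ * |φ|) ≤ r * (cos φ - cos (θ + φ)) := by
    have : 0 ≤ θ * |φ| := by positivity
    nlinarith [mul_le_mul_of_nonneg_left h8 hr0]
  nlinarith [mul_le_mul_of_nonneg_left h2 (sub_nonneg.2 hr1)]

lemma re_ge' {r θ φ : ℝ} (hr0 : 0 ≤ r) (hr1 : r ≤ 1) (h0 : 0 ≤ θ) :
    -((1 - r) + θ) ≤ cos φ - r * cos (θ + φ) := by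
  have h2 := neg_one_le_cos φ
  have h3 := abs_cos_sub_cos_le φ (θ + φ)
  rw [show φ - (θ + φ) = -θ by ring, abs_neg, abs_of_nonneg h0] at h3
  have := (abs_le.1 h3).1
  nlinarith [mul_le_mul_of_nonneg_left this hr0, mul_le_mul_of_nonneg_left h2 (sub_nonneg.2 hr1)]

lemma core0 {H ρ φ : ℝ → ℝ} (hH : Continuous H) {r U w σ γ θ0 θ1 θ2 θ3 e1 e2 e3 e4 : ℝ}
    (hr0 : 0 ≤ r) (hr1 : r ≤ 1)
    (hHe : ∀ θ, H θ = exp (ρ θ) * (cos (φ θ) - r * cos (θ + φ θ)))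
    (hw : 0 ≤ w) (hw0 : w ≤ θ0) (h01 : θ0 ≤ θ1) (h12 : θ1 ≤ θ2) (h23 : θ2 ≤ θ3) (h3 : θ3 ≤ π)
    (hσ : 0 < σ) (hγ : 0 ≤ γ) (hU : U * w ^ 2 ≤ 2)
    (hlow : ∀ θ, 0 ≤ θ → θ ≤ w → 1 - U * θ ^ 2 / 2 ≤ exp (ρ θ))
    (hup : ∀ θ, 0 ≤ θ → θ ≤ θ0 → ρ θ ≤ -(θ ^ 2 / σ ^ 2))
    (hφ : ∀ θ, 0 ≤ θ → θ ≤ θ0 → |φ θ| ≤ γ * θ ^ 3)
    (t1 : ∀ θ, θ0 ≤ θ → θ ≤ θ1 → exp (ρ θ) ≤ e1) (t2 : ∀ θ, θ1 ≤ θ → θ ≤ θ2 → exp (ρ θ) ≤ e2)
    (t3 : ∀ θ, θ2 ≤ θ → θ ≤ θ3 → exp (ρ θ) ≤ e3) (t4 : ∀ θ, θ3 ≤ θ → θ ≤ π → exp (ρ θ) ≤ e4) :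
    (1 - r) * (2 * w / 3) - ((1 - r) * γ ^ 2 / 2 * (1.733 * σ ^ 7) + γ * (0.708 * σ ^ 5))
      - ((1 - r + θ1) * e1 * θ1 + (1 - r + θ2) * e2 * θ2 + (1 - r + θ3) * e3 * θ3 + 2 * e4 * π)
      ≤ ∫ θ in (0 : ℝ)..π, H θ := by
  set c := 1 - r with hc
  have hc0 : 0 ≤ c := by linarith
  set k := c * γ ^ 2 / 2 with hk
  have hk0 : 0 ≤ k := by positivity
  have hI : ∀ a b, IntervalIntegrable H MeasureTheory.volume a b := hH.intervalIntegrable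
  rw [← intervalIntegral.integral_add_adjacent_intervals (hI 0 θ3) (hI θ3 π),
    ← intervalIntegral.integral_add_adjacent_intervals (hI 0 θ2) (hI θ2 θ3),
    ← intervalIntegral.integral_add_adjacent_intervals (hI 0 θ1) (hI θ1 θ2),
    ← intervalIntegral.integral_add_adjacent_intervals (hI 0 θ0) (hI θ0 θ1),
    ← intervalIntegral.integral_add_adjacent_intervals (hI 0 w) (hI w θ0)]
  have tail : ∀ a b e, 0 ≤ a → a ≤ b → (∀ θ, a ≤ θ → θ ≤ b → exp (ρ θ) ≤ e) →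
      -((c + b) * e * b) ≤ ∫ θ in a..b, H θ := by
    intro a b e ha hab h
    have he : 0 ≤ e := (exp_pos _).le.trans (h a le_rfl hab)
    refine int_ge_const hH ha hab (mul_nonneg (by linarith) he) (fun x h1 h2 => ?_)
    rw [hHe]
    have h4 := re_ge' (φ := φ x) hr0 hr1 (ha.trans h1)
    have h5 := h x h1 h2
    have h6 := exp_pos (ρ x)
    nlinarith [mul_le_mul_of_nonneg_left h4 h6.le,
      mul_le_mul_of_nonneg_left h5 (show 0 ≤ c + b by linarith)]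
  have p1 := tail θ0 θ1 e1 (by linarith) h01 t1
  have p2 := tail θ1 θ2 e2 (by linarith) h12 t2
  have p3 := tail θ2 θ3 e3 (by linarith) h23 t3
  have p4 : -(2 * e4 * π) ≤ ∫ θ in θ3..π, H θ := by
    have he : 0 ≤ e4 := (exp_pos _).le.trans (t4 θ3 le_rfl h3)
    refine int_ge_const hH (by linarith) h3 (by positivity) (fun x h1 h2 => ?_)
    rw [hHe]
    have h4 : -2 ≤ cos (φ x) - r * cos (x + φ x) := by
      have := neg_one_le_cos (φ x)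
      nlinarith [mul_le_mul_of_nonneg_left (cos_le_one (x + φ x)) hr0]
    have h5 := t4 x h1 h2
    have h6 := exp_pos (ρ x)
    nlinarith [mul_le_mul_of_nonneg_left h4 h6.le]
  clear_value k
  obtain ⟨a0, ha0⟩ : ∃ a0, a0 = γ * (0.35 * σ ^ 5 + σ ^ 5 / 2.8)
    + k * (0.865 * σ ^ 7 + 3 * σ ^ 7 / 3.46) := ⟨_, rfl⟩
  obtain ⟨a2, ha2⟩ : ∃ a2, a2 = γ * (0.35 * σ ^ 3 + σ ^ 3 / 2.8)
    + k * (0.865 * σ ^ 5 + 3 * σ ^ 5 / 3.46) := ⟨_, rfl⟩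
  obtain ⟨a4, ha4⟩ : ∃ a4, a4 = γ * (σ / 5.6) + k * (0.865 * σ ^ 3 / 2 + 3 * σ ^ 3 / 6.92) :=
    ⟨_, rfl⟩
  obtain ⟨a6, ha6⟩ : ∃ a6, a6 = k * (σ / 6.92) := ⟨_, rfl⟩
  obtain ⟨g, hg⟩ : ∃ g : ℝ → ℝ, g = fun x => (2 * a2 * x + 4 * a4 * x ^ 3 + 6 * a6 * x ^ 5
        - 2 * x / σ ^ 2 * (a0 + a2 * x ^ 2 + a4 * x ^ 4 + a6 * x ^ 6)) * exp (-(x ^ 2 / σ ^ 2)) :=
    ⟨_, rfl⟩
  have hgc : Continuous g := by rw [hg]; fun_prop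
  have key : ∀ x, 0 ≤ x → x ≤ θ0 → c * exp (ρ x) + g x ≤ H x := by
    intro x h0 h1
    have e : g x = -((γ * (0.7 * σ * x ^ 3 + x ^ 5 / (2.8 * σ))
        + k * (0.865 * σ * x ^ 5 + x ^ 7 / (3.46 * σ))) * exp (-(x ^ 2 / σ ^ 2))) := by
      simp only [hg, ha0, ha2, ha4, ha6]; field_simp; ring
    have q4 : x ^ 4 ≤ 0.7 * σ * x ^ 3 + x ^ 5 / (2.8 * σ) := by
      have : 0 ≤ x ^ 3 * (1.4 * σ - x) ^ 2 / (2.8 * σ) := by positivity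
      have e : x ^ 3 * (1.4 * σ - x) ^ 2 / (2.8 * σ)
        = 0.7 * σ * x ^ 3 + x ^ 5 / (2.8 * σ) - x ^ 4 := by field_simp; ring
      linarith
    have q6 : x ^ 6 ≤ 0.865 * σ * x ^ 5 + x ^ 7 / (3.46 * σ) := by
      have : 0 ≤ x ^ 5 * (1.73 * σ - x) ^ 2 / (3.46 * σ) := by positivity
      have e : x ^ 5 * (1.73 * σ - x) ^ 2 / (3.46 * σ)
        = 0.865 * σ * x ^ 5 + x ^ 7 / (3.46 * σ) - x ^ 6 := by field_simp; ring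
      linarith
    have h4 := re_ge (φ := φ x) hr0 hr1 h0 (by linarith)
    have h5 := hφ x h0 h1
    have h6 : φ x ^ 2 ≤ (γ * x ^ 3) ^ 2 := by rw [← sq_abs]; gcongr
    have h7 : exp (ρ x) ≤ exp (-(x ^ 2 / σ ^ 2)) := exp_le_exp.2 (hup x h0 h1)
    have h8 : c - (γ * x ^ 4 + k * x ^ 6) ≤ cos (φ x) - r * cos (x + φ x) := by
      have := mul_le_mul_of_nonneg_left h5 h0
      have := mul_le_mul_of_nonneg_left h6 hc0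
      rw [hk]; nlinarith
    have h9 : exp (ρ x) * (γ * x ^ 4 + k * x ^ 6) ≤ (γ * (0.7 * σ * x ^ 3 + x ^ 5 / (2.8 * σ))
        + k * (0.865 * σ * x ^ 5 + x ^ 7 / (3.46 * σ))) * exp (-(x ^ 2 / σ ^ 2)) := by
      rw [mul_comm]; gcongr
    rw [hHe, e]
    have h10 := mul_le_mul_of_nonneg_left h8 (exp_pos (ρ x)).le
    rw [mul_sub] at h10
    linarith
  have q1 := int_ge hH hw
    (F := fun x => c * (x - U * x ^ 3 / 6)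
      + (a0 + a2 * x ^ 2 + a4 * x ^ 4 + a6 * x ^ 6) * exp (-(x ^ 2 / σ ^ 2)))
    (f := fun x => c * (1 - U * x ^ 2 / 2) + g x)
    (fun x => by
      have := (((hasDerivAt_id' x).sub (((hasDerivAt_pow 3 x).const_mul U).div_const 6)).const_mul
        c).add (hd_gauss a0 a2 a4 a6 σ x)
      refine HasDerivAt.congr_deriv this ?_; simp only [hg]; push_cast; ring)
    (by fun_prop)
    (fun x h0 h1 => by
      have := key x h0 (h1.trans hw0)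
      have := mul_le_mul_of_nonneg_left (hlow x h0 h1) hc0
      linarith)
  have q2 := int_ge hH hw0 (f := g) (fun x => by rw [hg]; exact hd_gauss a0 a2 a4 a6 σ x) hgc
    (fun x h0 h1 => by
      have := key x (hw.trans h0) h1
      have := mul_nonneg hc0 (exp_pos (ρ x)).le
      linarith)
  have q3 : 0 ≤ (a0 + a2 * θ0 ^ 2 + a4 * θ0 ^ 4 + a6 * θ0 ^ 6) * exp (-(θ0 ^ 2 / σ ^ 2)) := by
    simp only [ha0, ha2, ha4, ha6]; positivity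
  have q4 : a0 ≤ k * (1.733 * σ ^ 7) + γ * (0.708 * σ ^ 5) := by
    have : 0 ≤ k * σ ^ 7 := by positivity
    have : 0 ≤ γ * σ ^ 5 := by positivity
    rw [ha0]; norm_num; linarith
  have q5 : c * (2 * w / 3) ≤ c * (w - U * w ^ 3 / 6) := by
    apply mul_le_mul_of_nonneg_left _ hc0
    nlinarith [mul_le_mul_of_nonneg_left hU hw]
  simp only [ne_eq, OfNat.ofNat_ne_zero, not_false_eq_true, zero_pow, mul_zero, zero_div, sub_zero,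
    add_zero, neg_zero, exp_zero, mul_one, zero_add] at q1
  linarith

lemma decay {s s0 m d : ℝ} (p : ℕ) (hs0 : 0 < s0) (hs : s0 ≤ s) (hm : (p : ℝ) ≤ 2 * (s0 ^ 2 * m))
    (hd : 1 ≤ d * eL (s0 ^ 2 * m)) : s ^ p * exp (-(s ^ 2 * m)) ≤ s0 ^ p * d := by
  have hp : (0 : ℝ) ≤ p := Nat.cast_nonneg p
  have h1 := exp_neg_le_of (by linarith) hd
  obtain ⟨l, rfl⟩ : ∃ l, s = s0 * l := ⟨s / s0, by field_simp⟩
  have hl : 1 ≤ l := by nlinarith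
  set x := s0 ^ 2 * m with hx
  have h2 : l ^ p ≤ exp (x * (l ^ 2 - 1)) := by
    calc l ^ p ≤ exp (l - 1) ^ p := by gcongr; have := add_one_le_exp (l - 1); linarith
      _ = exp (p * (l - 1)) := by rw [← exp_nat_mul]
      _ ≤ _ := by
        apply exp_le_exp.2
        have : 0 ≤ x := by linarith
        nlinarith [mul_nonneg this (sq_nonneg (l - 1)), mul_le_mul_of_nonneg_right hm (sub_nonneg.2 hl)]
  have e : exp (-x) = exp (x * (l ^ 2 - 1)) * exp (-((s0 * l) ^ 2 * m)) := by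
    rw [← exp_add]; congr 1; rw [hx]; ring
  calc (s0 * l) ^ p * exp (-((s0 * l) ^ 2 * m))
      = s0 ^ p * (l ^ p * exp (-((s0 * l) ^ 2 * m))) := by rw [mul_pow]; ring
    _ ≤ s0 ^ p * (exp (x * (l ^ 2 - 1)) * exp (-((s0 * l) ^ 2 * m))) := by gcongr
    _ ≤ _ := by rw [← e]; gcongr

/-- the numerical conditions used by `core` -/
def CoreOK (s0 l1 l2 cb u om k sg g g2 x0 x1 x2 x3 m1 m2 m3 m4 d1 d2 d3 d4 : ℝ) : Prop :=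
  0 < s0 ∧ 0 ≤ om ∧ u * om ^ 2 ≤ 2 ∧ om ≤ x0 * s0 ∧ 0 < sg ∧ 2 ≤ k * sg ^ 2 ∧ 0 ≤ g ∧ 0 ≤ g2 ∧
  0 ≤ x1 ∧ 0 ≤ x2 ∧ 0 ≤ x3 ∧ 0 ≤ cb ∧ 0 ≤ l1 ∧
  3 ≤ 2 * (s0 ^ 2 * m1) ∧ 3 ≤ 2 * (s0 ^ 2 * m2) ∧ 3 ≤ 2 * (s0 ^ 2 * m3) ∧ 7 ≤ 2 * (s0 ^ 2 * m4) ∧
  1 ≤ d1 * eL (s0 ^ 2 * m1) ∧ 1 ≤ d2 * eL (s0 ^ 2 * m2) ∧ 1 ≤ d3 * eL (s0 ^ 2 * m3) ∧
  1 ≤ d4 * eL (s0 ^ 2 * m4) ∧
  (g * (0.708 * sg ^ 5) + g2 ^ 2 / 2 * (1.733 * sg ^ 7)) / s0 ^ 2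
    + l1 * s0 ^ 3 * ((cb + x1) * x1 * d1 + (cb + x2) * x2 * d2 + (cb + x3) * x3 * d3)
    + 6.3 * l1 * l2 ^ 2 * s0 ^ 7 * d4 ≤ 2 * om / 3

lemma core {H ρ φ : ℝ → ℝ} (hH : Continuous H)
    {s0 l1 l2 cb u om k sg g g2 x0 x1 x2 x3 m1 m2 m3 m4 d1 d2 d3 d4 : ℝ}
    (ok : CoreOK s0 l1 l2 cb u om k sg g g2 x0 x1 x2 x3 m1 m2 m3 m4 d1 d2 d3 d4)
    {r ν l γ θ1 θ2 θ3 : ℝ} (hr0 : 0 ≤ r) (hr1 : r < 1)
    (hHe : ∀ θ, H θ = exp (ρ θ) * (cos (φ θ) - r * cos (θ + φ θ)))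
    (hν : s0 ^ 2 ≤ ν) (hl : 0 < l) (hl1 : l ≤ l1 * ν * (1 - r)) (hl2 : 1 ≤ l2 * ν * l)
    (hcb : 1 - r ≤ cb * l) (hγ : 0 ≤ γ) (hg : γ * l ^ 4 ≤ g * ν * (1 - r)) (hg2 : γ * l ^ 3 ≤ g2 * ν)
    (h01 : x0 * l ≤ θ1) (h12 : θ1 ≤ θ2) (h23 : θ2 ≤ θ3) (h3 : θ3 ≤ π)
    (hx1 : θ1 ≤ x1 * l) (hx2 : θ2 ≤ x2 * l) (hx3 : θ3 ≤ x3 * l)
    (hlow : ∀ θ, 0 ≤ θ → θ ≤ x0 * l → u * ν * (θ / l) ^ 2 ≤ 2 →
      1 - u * ν * (θ / l) ^ 2 / 2 ≤ exp (ρ θ))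
    (hup : ∀ θ, 0 ≤ θ → θ ≤ x0 * l → ρ θ ≤ -(k * ν * (θ / l) ^ 2 / 2))
    (hφ : ∀ θ, 0 ≤ θ → θ ≤ x0 * l → |φ θ| ≤ γ * θ ^ 3)
    (t1 : ∀ θ, x0 * l ≤ θ → θ ≤ θ1 → ρ θ ≤ -(ν * m1))
    (t2 : ∀ θ, θ1 ≤ θ → θ ≤ θ2 → ρ θ ≤ -(ν * m2))
    (t3 : ∀ θ, θ2 ≤ θ → θ ≤ θ3 → ρ θ ≤ -(ν * m3))
    (t4 : ∀ θ, θ3 ≤ θ → θ ≤ π → ρ θ ≤ -(ν * m4)) :
    0 ≤ ∫ θ in (0 : ℝ)..π, H θ := by
  obtain ⟨hs0, hom, hu, hom0, hsg, hk, hg0, hg20, hx10, hx20, hx30, hcb0, hl10, hm1, hm2, hm3, hm4,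
    hd1, hd2, hd3, hd4, hfin⟩ := ok
  obtain ⟨s, hs, rfl⟩ : ∃ s, s0 ≤ s ∧ ν = s ^ 2 :=
    ⟨√ν, le_sqrt_of_sq_le hν, (sq_sqrt ((sq_nonneg _).trans hν)).symm⟩
  have hsp : 0 < s := hs0.trans_le hs
  set c := 1 - r with hc
  have hc0 : 0 < c := by linarith
  have hw0 : l * om / s ≤ x0 * l := by
    rw [div_le_iff₀ hsp]
    have hx0 : 0 ≤ x0 := by by_contra h; push Not at h; nlinarith
    nlinarith [mul_le_mul_of_nonneg_left hs hx0]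
  have hU : u * s ^ 2 / l ^ 2 * (l * om / s) ^ 2 ≤ 2 := by
    have : u * s ^ 2 / l ^ 2 * (l * om / s) ^ 2 = u * om ^ 2 := by field_simp
    rw [this]; exact hu
  have hθ1 : 0 ≤ θ1 := le_trans (le_trans (by positivity) hw0) h01
  have main := core0 hH (U := u * s ^ 2 / l ^ 2) (w := l * om / s) (σ := l * sg / s) (γ := γ)
    hr0 hr1.le hHe (by positivity) hw0 h01 h12 h23 h3 (by positivity) hγ hU
    (fun θ h0 h1 => by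
      have e : u * s ^ 2 / l ^ 2 * θ ^ 2 = u * s ^ 2 * (θ / l) ^ 2 := by field_simp
      rw [e]
      refine hlow θ h0 (h1.trans hw0) ?_
      rw [← e]
      rcases le_total 0 u with hu0 | hu0
      · refine le_trans ?_ hU; gcongr
      · have : u * s ^ 2 / l ^ 2 * θ ^ 2 = u * (s ^ 2 / l ^ 2 * θ ^ 2) := by ring
        rw [this]
        exact (mul_nonpos_of_nonpos_of_nonneg hu0 (by positivity)).trans (by norm_num))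
    (fun θ h0 h1 => by
      refine (hup θ h0 h1).trans (neg_le_neg ?_)
      have e : θ ^ 2 / (l * sg / s) ^ 2 = 2 / sg ^ 2 * s ^ 2 * (θ / l) ^ 2 / 2 := by field_simp
      rw [e]
      have : 2 / sg ^ 2 ≤ k := by rw [div_le_iff₀ (by positivity)]; exact hk
      gcongr)
    hφ (fun θ h0 h1 => exp_le_exp.2 (t1 θ h0 h1)) (fun θ h0 h1 => exp_le_exp.2 (t2 θ h0 h1))
    (fun θ h0 h1 => exp_le_exp.2 (t3 θ h0 h1)) (fun θ h0 h1 => exp_le_exp.2 (t4 θ h0 h1))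
  refine le_trans ?_ main
  rw [← hc]
  have hK : 0 < c * l / s := by positivity
  have b1 : γ * (0.708 * (l * sg / s) ^ 5) ≤ c * l / s * (g * (0.708 * sg ^ 5) / s0 ^ 2) := by
    calc γ * (0.708 * (l * sg / s) ^ 5) = γ * l ^ 4 * (l * (0.708 * sg ^ 5) / s ^ 5) := by
          field_simp
      _ ≤ g * s ^ 2 * c * (l * (0.708 * sg ^ 5) / s ^ 5) := by gcongr
      _ = c * l / s * (g * (0.708 * sg ^ 5) / s ^ 2) := by field_simp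
      _ ≤ _ := by gcongr
  have b2 : c * γ ^ 2 / 2 * (1.733 * (l * sg / s) ^ 7)
      ≤ c * l / s * (g2 ^ 2 / 2 * (1.733 * sg ^ 7) / s0 ^ 2) := by
    calc c * γ ^ 2 / 2 * (1.733 * (l * sg / s) ^ 7)
        = (γ * l ^ 3) ^ 2 * (c * l * (1.733 * sg ^ 7) / 2 / s ^ 7) := by field_simp
      _ ≤ (g2 * s ^ 2) ^ 2 * (c * l * (1.733 * sg ^ 7) / 2 / s ^ 7) := by gcongr
      _ = c * l / s * (g2 ^ 2 / 2 * (1.733 * sg ^ 7) / s ^ 2) := by field_simp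
      _ ≤ _ := by gcongr
  have b3 : ∀ θ x m d, 0 ≤ θ → 0 ≤ x → θ ≤ x * l → 3 ≤ 2 * (s0 ^ 2 * m) →
      1 ≤ d * eL (s0 ^ 2 * m) →
      (c + θ) * exp (-(s ^ 2 * m)) * θ ≤ c * l / s * (l1 * s0 ^ 3 * ((cb + x) * x * d)) := by
    intro θ x m d h0 hx h1 hm hd
    have h := decay 3 hs0 hs (by exact_mod_cast hm) hd
    calc (c + θ) * exp (-(s ^ 2 * m)) * θ
        ≤ (cb * l + x * l) * exp (-(s ^ 2 * m)) * (x * l) := by gcongr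
      _ = (cb + x) * x * l * exp (-(s ^ 2 * m)) * l := by ring
      _ ≤ (cb + x) * x * l * exp (-(s ^ 2 * m)) * (l1 * s ^ 2 * c) := by gcongr
      _ = c * l / s * (l1 * ((cb + x) * x) * (s ^ 3 * exp (-(s ^ 2 * m)))) := by field_simp
      _ ≤ c * l / s * (l1 * ((cb + x) * x) * (s0 ^ 3 * d)) := by gcongr
      _ = _ := by ring
  have b4 : 2 * exp (-(s ^ 2 * m4)) * π ≤ c * l / s * (6.3 * l1 * l2 ^ 2 * s0 ^ 7 * d4) := by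
    have h := decay 7 hs0 hs (by exact_mod_cast hm4) hd4
    have hp := pi_lt_d2
    have h1 : 1 ≤ (l2 * s ^ 2 * l) ^ 2 := one_le_pow₀ hl2
    calc 2 * exp (-(s ^ 2 * m4)) * π ≤ 2 * exp (-(s ^ 2 * m4)) * 3.15 * 1 := by
          rw [mul_one]; gcongr
      _ ≤ 2 * exp (-(s ^ 2 * m4)) * 3.15 * (l2 * s ^ 2 * l) ^ 2 := by gcongr
      _ = 6.3 * l2 ^ 2 * s ^ 4 * l * exp (-(s ^ 2 * m4)) * l := by ring
      _ ≤ 6.3 * l2 ^ 2 * s ^ 4 * l * exp (-(s ^ 2 * m4)) * (l1 * s ^ 2 * c) := by gcongr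
      _ = c * l / s * (6.3 * l1 * l2 ^ 2 * (s ^ 7 * exp (-(s ^ 2 * m4)))) := by field_simp
      _ ≤ c * l / s * (6.3 * l1 * l2 ^ 2 * (s0 ^ 7 * d4)) := by gcongr
      _ = _ := by ring
  have b31 := b3 θ1 x1 m1 d1 hθ1 hx10 hx1 hm1 hd1
  have b32 := b3 θ2 x2 m2 d2 (by linarith) hx20 hx2 hm2 hd2
  have b33 := b3 θ3 x3 m3 d3 (by linarith) hx30 hx3 hm3 hd3
  have b5 := mul_le_mul_of_nonneg_left hfin hK.le
  have e : c * (2 * (l * om / s) / 3) = c * l / s * (2 * om / 3) := by field_simp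
  rw [e]
  rw [add_div] at b5
  linarith

end Pool.Agent.Lib.MP_e3fe77_co
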