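import Pool.Agent.Lib.MP_e3fe77_co.Basic

/-! Polar form of one factor `1 - exp (-u + i v)` and bounds for its modulus and argument. -/

namespace Pool.Agent.Lib.MP_e3fe77_co
open Real

lemma polar {a b : ℝ} (ha : 0 < a) :
    (a : ℂ) - b * Complex.I
      = Complex.exp ((log (a ^ 2 + b ^ 2) / 2 : ℝ) - (arctan (b / a) : ℝ) * Complex.I) := by
  have h0 : 0 < a ^ 2 + b ^ 2 := by positivity
  have h1 : exp (log (a ^ 2 + b ^ 2) / 2) = a * √(1 + (b / a) ^ 2) := by
    have : a * √(1 + (b / a) ^ 2) = √(a ^ 2 + b ^ 2) := by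
      rw [show a ^ 2 + b ^ 2 = a ^ 2 * (1 + (b / a) ^ 2) by field_simp,
        sqrt_mul (sq_nonneg a), sqrt_sq ha.le]
    rw [this, sqrt_eq_rpow, rpow_def_of_pos h0]; congr 1; ring
  have h2 : 0 < √(1 + (b / a) ^ 2) := by positivity
  rw [sub_eq_add_neg ((log (a ^ 2 + b ^ 2) / 2 : ℝ) : ℂ), Complex.exp_add, ← Complex.ofReal_exp, h1,
    ← neg_mul, ← Complex.ofReal_neg, Complex.exp_mul_I, ← Complex.ofReal_cos,
    ← Complex.ofReal_sin, cos_neg, sin_neg, cos_arctan, sin_arctan]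
  have h3 : ((√(1 + (b / a) ^ 2) : ℝ) : ℂ) ≠ 0 := by exact_mod_cast h2.ne'
  have h4 : (a : ℂ) ≠ 0 := by exact_mod_cast ha.ne'
  generalize √(1 + (b / a) ^ 2) = q at h3
  push_cast
  field_simp
  ring

/-- logarithm of the modulus of the normalised factor -/
noncomputable def Lg (u v : ℝ) : ℝ := log (1 + 2 * p2 u * (1 - cos v)) / 2
/-- minus the argument of the factor -/
noncomputable def Fa (u v : ℝ) : ℝ := arctan (p1 u * sin v / (1 + p1 u * (1 - cos v)))

lemma s_nonneg (v : ℝ) : 0 ≤ 1 - cos v := by have := cos_le_one v; linarith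
lemma s_le_two (v : ℝ) : 1 - cos v ≤ 2 := by have := neg_one_le_cos v; linarith
lemma s_le_sq (v : ℝ) : 1 - cos v ≤ v ^ 2 / 2 := by
  have := one_sub_sq_div_two_le_cos (x := v); linarith

lemma factor_eq {u : ℝ} (hu : 0 < u) (v : ℝ) :
    1 - Complex.exp (-(u : ℂ) + v * Complex.I)
      = ((1 - exp (-u) : ℝ) : ℂ) * Complex.exp ((Lg u v : ℝ) - (Fa u v : ℝ) * Complex.I) := by
  have hp := p1_pos hu
  have hs := s_nonneg v
  have h := polar (a := 1 + p1 u * (1 - cos v)) (b := p1 u * sin v) (by positivity)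
  have e : (1 + p1 u * (1 - cos v)) ^ 2 + (p1 u * sin v) ^ 2 = 1 + 2 * p2 u * (1 - cos v) := by
    have := sin_sq_add_cos_sq v
    unfold p2
    linear_combination (p1 u) ^ 2 * this
  rw [e] at h
  unfold Lg Fa
  rw [← h, Complex.exp_add, Complex.exp_mul_I, ← Complex.ofReal_neg, ← Complex.ofReal_exp,
    ← Complex.ofReal_cos, ← Complex.ofReal_sin]
  have h1 := one_add_p1 hu
  have h2 : (1 - exp (-u)) * p1 u = exp (-u) := by linarith
  have h3 : ((1 - exp (-u) : ℝ) : ℂ) * (p1 u : ℝ) = (exp (-u) : ℝ) := by exact_mod_cast h2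
  generalize exp (-u) = x at h3 ⊢
  push_cast at h3 ⊢
  linear_combination (-1 + Complex.cos v + Complex.sin v * Complex.I) * h3

lemma Lg_nonneg {u : ℝ} (hu : 0 < u) (v : ℝ) : 0 ≤ Lg u v := by
  have := p2_pos hu; have := s_nonneg v
  unfold Lg
  have : 0 ≤ log (1 + 2 * p2 u * (1 - cos v)) := log_nonneg (by nlinarith)
  linarith

lemma Lg_le {u : ℝ} (hu : 0 < u) (v : ℝ) : Lg u v ≤ p2 u * v ^ 2 / 2 := by
  have h := p2_pos hu; have := s_nonneg v; have h2 := s_le_sq v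
  unfold Lg
  have := log_le_sub_one_of_pos (x := 1 + 2 * p2 u * (1 - cos v)) (by positivity)
  nlinarith

lemma le_Lg {u : ℝ} (hu : 0 < u) {v : ℝ} (hv : 0 ≤ v) :
    p2 u * v ^ 2 / 2 - p2 u * (1 + 6 * p2 u) * v ^ 4 / 24 ≤ Lg u v := by
  have h := p2_pos hu; have h0 := s_nonneg v; have h2 := s_le_sq v
  have h3 := cos_le_quartic hv
  unfold Lg
  set s := 1 - cos v
  have hw : 0 ≤ 2 * p2 u * s := by positivity
  have h4 := le_log_one_add_of_nonneg hw
  have h5 : 2 * p2 u * s - (2 * p2 u * s) ^ 2 / 2 ≤ 2 * (2 * p2 u * s) / (2 * p2 u * s + 2) := by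
    rw [le_div_iff₀ (by positivity)]; nlinarith [pow_nonneg hw 3]
  have h6 : s ^ 2 ≤ (v ^ 2 / 2) ^ 2 := by gcongr
  have h7 : v ^ 2 / 2 - v ^ 4 / 24 ≤ s := by simp only [s]; linarith
  nlinarith [mul_le_mul_of_nonneg_left h7 h.le, mul_le_mul_of_nonneg_left h6 (sq_nonneg (p2 u))]

lemma one_add_four_p2 {u : ℝ} (hu : 0 < u) :
    1 + 4 * p2 u = ((1 + exp (-u)) / (1 - exp (-u))) ^ 2 := by
  have := x_lt_one hu
  have : 1 - exp (-u) ≠ 0 := by linarith
  unfold p2 p1; field_simp; ring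

lemma xs_le_Lg {u : ℝ} (hu : 0 < u) (v : ℝ) : exp (-u) * (1 - cos v) ≤ Lg u v := by
  have h := p2_pos hu; have h0 := s_nonneg v; have h2 := s_le_two v
  have hx := x_lt_one hu; have hx0 := exp_pos (-u)
  have h4 := one_add_four_p2 hu
  unfold Lg
  set s := 1 - cos v
  set x := exp (-u)
  have h5 : exp (4 * x) ≤ 1 + 4 * p2 u := by
    have h6 := exp_le_two_add_div_two_sub (x := 2 * x) (by linarith) (by linarith)
    have : exp (4 * x) = exp (2 * x) ^ 2 := by rw [← exp_nat_mul]; congr 1; push_cast; ring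
    rw [this, h4]
    have e : (2 + 2 * x) / (2 - 2 * x) = (1 + x) / (1 - x) := by
      have : 1 - x ≠ 0 := by linarith
      have : 2 - 2 * x ≠ 0 := by linarith
      field_simp
    rw [← e]; gcongr
  have h7 := convexOn_exp.2 (Set.mem_univ 0) (Set.mem_univ (4 * x))
    (show 0 ≤ 1 - s / 2 by linarith) (show 0 ≤ s / 2 by linarith) (by ring)
  simp only [smul_eq_mul, mul_zero, zero_add, exp_zero, mul_one] at h7
  have h8 : exp (s / 2 * (4 * x)) ≤ 1 + 2 * p2 u * s := by nlinarith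
  have h9 := (le_log_iff_exp_le (by positivity)).2 h8
  linarith

lemma Lg_le_x {u : ℝ} (hu : 0 < u) (v : ℝ) : Lg u v ≤ 2 * exp (-u) / (1 - exp (-u) ^ 2) := by
  have h := p2_pos hu; have h0 := s_nonneg v; have h2 := s_le_two v
  have hx := x_lt_one hu; have hx0 := exp_pos (-u)
  have h4 := one_add_four_p2 hu
  unfold Lg
  set s := 1 - cos v
  set x := exp (-u)
  have hx2 : 0 < 1 - x ^ 2 := by nlinarith
  set z := 2 * x / (1 - x ^ 2) with hz
  have h5 : (1 + x) / (1 - x) ≤ exp z := by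
    refine le_trans ?_ (quadratic_le_exp_of_nonneg (by positivity))
    have h1 : 1 - x ≠ 0 := by linarith
    have h3 : 1 + x ≠ 0 := by linarith
    have : 1 + z + z ^ 2 / 2 - (1 + x) / (1 - x) = 2 * x ^ 4 / (1 - x ^ 2) ^ 2 := by
      rw [hz, show 1 - x ^ 2 = (1 - x) * (1 + x) by ring]; field_simp; ring
    have : 0 ≤ 2 * x ^ 4 / (1 - x ^ 2) ^ 2 := by positivity
    linarith
  have h6 : 1 + 2 * p2 u * s ≤ exp (2 * z) := by
    have : exp (2 * z) = exp z ^ 2 := by rw [← exp_nat_mul]; congr 1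
    rw [this]
    calc 1 + 2 * p2 u * s ≤ 1 + 4 * p2 u := by nlinarith
      _ = _ := h4
      _ ≤ _ := by
        have : 0 ≤ (1 + x) / (1 - x) := div_nonneg (by linarith) (by linarith)
        gcongr
  have h9 := (log_le_iff_le_exp (by positivity)).2 h6
  linarith

lemma s_ge_par {v : ℝ} (h0 : 0 ≤ v) (h1 : v ≤ 6.28) : (v * (1 - v / 6.28)) ^ 2 ≤ 2 * (1 - cos v) := by
  have hp := pi_gt_d2
  have h := sin_ge_par (x := v / 2) (by linarith) (by linarith)
  have e : 2 * (1 - cos v) = (2 * sin (v / 2)) ^ 2 := by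
    have := cos_two_mul (v / 2)
    rw [show 2 * (v / 2) = v by ring] at this
    have := sin_sq_add_cos_sq (v / 2)
    nlinarith
  rw [e]
  have h2 : v / 2 / π ≤ v / 6.28 := by
    rw [div_div]; apply div_le_div_of_nonneg_left h0 (by norm_num); linarith
  have h3 : v / 6.28 ≤ 1 := by rw [div_le_one (by norm_num)]; exact h1
  apply pow_le_pow_left₀ (mul_nonneg h0 (by linarith))
  nlinarith

lemma Fa_le {u : ℝ} (hu : 0 < u) {v : ℝ} (hv : 0 ≤ v) : Fa u v ≤ p1 u * v := by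
  have hp := p1_pos hu; have hs := s_nonneg v
  unfold Fa
  rcases le_total 0 (sin v) with h | h
  · refine (arctan_le_self' (by positivity)).trans ?_
    have := sin_le hv
    rw [div_le_iff₀ (by positivity)]
    nlinarith [mul_nonneg (mul_nonneg hp.le hv) (mul_nonneg hp.le hs)]
  · have : p1 u * sin v / (1 + p1 u * (1 - cos v)) ≤ 0 :=
      div_nonpos_of_nonpos_of_nonneg (mul_nonpos_of_nonneg_of_nonpos hp.le h) (by positivity)
    exact (arctan_le_zero.2 this).trans (by positivity)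

lemma le_Fa {u : ℝ} (hu : 0 < u) {v : ℝ} (hv : 0 ≤ v) :
    p1 u * v - p2 u * (1 + 2 * p1 u) * v ^ 3 / 6 ≤ Fa u v := by
  have hp := p1_pos hu; have hs := s_nonneg v; have hs2 := s_le_sq v
  have h3 := sin_ge_sub_cube hv
  have h4 := sin_le hv
  unfold Fa p2
  set p := p1 u
  set s := 1 - cos v
  have hd : 0 < 1 + p * s := by positivity
  have hv3 : 0 ≤ v ^ 3 := by positivity
  rcases le_total 0 (sin v) with h | h
  · set y := p * sin v / (1 + p * s) with hy
    have hy0 : 0 ≤ y := by positivity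
    refine le_trans ?_ (arctan_ge_cube hy0)
    have h5 : y ≤ p * v := by
      rw [hy, div_le_iff₀ hd]; nlinarith [mul_nonneg (mul_nonneg hp.le hv) (mul_nonneg hp.le hs)]
    have h6 : p * sin v * (1 - p * s) ≤ y := by
      rw [hy, le_div_iff₀ hd]
      nlinarith [mul_nonneg (mul_nonneg hp.le h) (sq_nonneg (p * s))]
    have h7 : y ^ 3 ≤ (p * v) ^ 3 := by gcongr
    have h8 : sin v * s ≤ v * (v ^ 2 / 2) := by gcongr
    nlinarith [mul_le_mul_of_nonneg_left h8 (sq_nonneg p), mul_le_mul_of_nonneg_left h3 hp.le]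
  · have h5 : p * sin v / (1 + p * s) ≤ 0 :=
      div_nonpos_of_nonpos_of_nonneg (mul_nonpos_of_nonneg_of_nonpos hp.le h) hd.le
    refine le_trans ?_ (le_arctan_of_nonpos h5)
    have h6 : p * sin v ≤ p * sin v / (1 + p * s) := by
      rw [le_div_iff₀ hd]
      nlinarith [mul_nonneg (mul_nonneg hp.le (neg_nonneg.2 h)) (mul_nonneg hp.le hs)]
    nlinarith [mul_le_mul_of_nonneg_left h3 hp.le, mul_nonneg (sq_nonneg p) hv3,
      mul_nonneg (pow_nonneg hp.le 3) hv3]

end Pool.Agent.Lib.MP_e3fe77_co
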