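import Pool.Agent.Lib.MP_e3fe77_co.Reduce

/-! Kronecker substitution: sign checks for coefficients through big integer arithmetic. -/

namespace Pool.Agent.Lib.MP_e3fe77_co
open Polynomial Finset

lemma kron (B M : ℕ) : ∀ R : ℤ[X], (∀ i, |R.coeff i| < 2 ^ B) →
    (2 ^ (B * M) : ℤ) ∣ R.eval (2 ^ B) → ∀ i < M, R.coeff i = 0 := by
  induction M with
  | zero => intro R _ _ i hi; omega
  | succ M ih =>
    intro R hb hd
    have e : R.eval (2 ^ B) = 2 ^ B * R.divX.eval (2 ^ B) + R.coeff 0 := by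
      conv_lhs => rw [← X_mul_divX_add R]
      simp
    rw [e, mul_add, mul_one, pow_add, mul_comm] at hd
    have h0 : R.coeff 0 = 0 := by
      apply Int.eq_zero_of_abs_lt_dvd _ (hb 0)
      exact (dvd_add_right (dvd_mul_right _ _)).1 ((dvd_mul_right _ _).trans hd)
    rw [h0, add_zero] at hd
    have := ih R.divX (fun i => by rw [coeff_divX]; exact hb _)
      ((mul_dvd_mul_iff_left (by positivity)).1 hd)
    intro i hi
    rcases i with _ | i
    · exact h0
    · rw [← coeff_divX]; exact this i (by omega)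

/-- all coefficients are bounded by `K` -/
def Bd (K : ℤ) (P : ℤ[X]) : Prop := ∀ i, |P.coeff i| ≤ K

lemma Bd.nn {K : ℤ} {P : ℤ[X]} (h : Bd K P) : 0 ≤ K := (abs_nonneg _).trans (h 0)

lemma Bd.mulX {K : ℤ} {P : ℤ[X]} (h : Bd K P) (j : ℕ) : Bd K (P * X ^ j) := fun i => by
  rw [coeff_mul_X_pow']; split_ifs
  · exact h _
  · simpa using h.nn

lemma Bd.sub {K L : ℤ} {P Q : ℤ[X]} (h : Bd K P) (g : Bd L Q) : Bd (K + L) (P - Q) := fun i => by
  rw [coeff_sub]; exact (abs_sub _ _).trans (add_le_add (h i) (g i))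

lemma Bd.one : Bd 1 1 := fun i => by rw [coeff_one]; split_ifs <;> simp

lemma Bd.pr {K : ℤ} {P : ℤ[X]} (h : Bd K P) {lo hi : ℕ} (hl : lo ≤ hi) :
    Bd (2 ^ (hi - lo) * K) (P * pr lo hi) := by
  induction hi, hl using Nat.le_induction with
  | base => simpa [MP_e3fe77_co.pr] using h
  | succ k hk ih =>
    have := ih.sub (ih.mulX (k + 1))
    unfold MP_e3fe77_co.pr at *
    rw [prod_Ioc_succ_top hk, show k + 1 - lo = k - lo + 1 by omega]
    convert this using 1 <;> ring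

/-- the polynomial whose coefficients are the first `M` digits of `x` in base `2 ^ B` -/
noncomputable def dig (B M x : ℕ) : ℤ[X] :=
  ∑ i ∈ range M, C ((x / 2 ^ (B * i) % 2 ^ B : ℕ) : ℤ) * X ^ i

lemma dig_coeff (B M x i : ℕ) :
    (dig B M x).coeff i = if i < M then ((x / 2 ^ (B * i) % 2 ^ B : ℕ) : ℤ) else 0 := by
  rw [dig, finsetSum_coeff]
  simp only [coeff_C_mul, coeff_X_pow, mul_ite, mul_one, mul_zero]
  rw [sum_ite_eq]; simp

lemma dig_eval (B M x : ℕ) : (dig B M x).eval (2 ^ B) = ((x % 2 ^ (B * M) : ℕ) : ℤ) := by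
  induction M with
  | zero => simp [dig, Nat.mod_one]
  | succ M ih =>
    unfold dig at *
    rw [sum_range_succ, eval_add, ih, mul_add, mul_one, pow_add, Nat.mod_mul]
    simp only [eval_mul, eval_C, eval_pow, eval_X]
    push_cast; rw [← pow_mul]; ring

lemma kron_ps {Z : PowerSeries ℤ} {Q R : ℤ[X]} (hZ : Z * (Q : PowerSeries ℤ) = R)
    (hQ : Q.coeff 0 = 1) {x B M : ℕ} (hb : ∀ i, |(dig B M x * Q - R).coeff i| < 2 ^ B)
    (hd : (2 ^ (B * M) : ℤ) ∣ x * Q.eval (2 ^ B) - R.eval (2 ^ B)) :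
    ∀ i < M, 0 ≤ PowerSeries.coeff i Z := by
  have h1 := kron B M _ hb (by
    rw [eval_sub, eval_mul, dig_eval]
    have : ((x % 2 ^ (B * M) : ℕ) : ℤ) = x - 2 ^ (B * M) * (x / 2 ^ (B * M) : ℕ) := by
      have := Nat.mod_add_div x (2 ^ (B * M))
      rw [eq_sub_iff_add_eq]; exact_mod_cast this
    rw [this, sub_mul, sub_right_comm, mul_assoc]
    exact dvd_sub hd (dvd_mul_right _ _))
  have h2 : (PowerSeries.X : PowerSeries ℤ) ^ M ∣ ((dig B M x : PowerSeries ℤ) - Z) * Q := by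
    rw [PowerSeries.X_pow_dvd_iff, sub_mul, hZ]
    intro i hi
    rw [← Polynomial.coe_mul, ← Polynomial.coe_sub, coeff_coe]; exact h1 i hi
  have hu : IsUnit (Q : PowerSeries ℤ) := by
    rw [PowerSeries.isUnit_iff_constantCoeff, ← PowerSeries.coeff_zero_eq_constantCoeff_apply,
      coeff_coe, hQ]; exact isUnit_one
  rw [hu.dvd_mul_right, PowerSeries.X_pow_dvd_iff] at h2
  intro i hi
  have := h2 i hi
  rw [map_sub, coeff_coe, dig_coeff, if_pos hi, sub_eq_zero] at this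
  rw [← this]; positivity

/-- `2 ^ k` copies of the digit `h` -/
def rep (B h : ℕ) : ℕ → ℕ
  | 0 => h
  | k + 1 => let r := rep B h k; r + (r <<< (B * 2 ^ k))

lemma rep_lt {B h : ℕ} (hh : h < 2 ^ B) (k : ℕ) : rep B h k < 2 ^ (B * 2 ^ k) := by
  induction k with
  | zero => simpa [rep]
  | succ k ih =>
    simp only [rep, Nat.shiftLeft_eq]
    rw [pow_succ, ← mul_assoc, mul_two, pow_add]
    nlinarith

lemma rep_small {B b c : ℕ} (hB : B = c + b) (k : ℕ) : ∀ x,
    x &&& rep B (((1 <<< c) - 1) <<< b) k = 0 → ∀ i < 2 ^ k, x / 2 ^ (B * i) % 2 ^ B < 2 ^ b := by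
  have hh : ((1 <<< c) - 1) <<< b < 2 ^ B := by
    simp only [Nat.shiftLeft_eq, one_mul, hB, pow_add]
    exact Nat.mul_lt_mul_of_pos_right (Nat.sub_lt (by positivity) one_pos) (by positivity)
  induction k with
  | zero =>
    intro x h i hi
    obtain rfl : i = 0 := by omega
    have h1 := congrArg (· / 2 ^ b) h
    simp only [rep, Nat.and_div_two_pow, Nat.shiftLeft_eq, one_mul, Nat.zero_div] at h1
    rw [Nat.mul_div_cancel _ (by positivity), Nat.and_two_pow_sub_one_eq_mod] at h1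
    rw [mul_zero, pow_zero, Nat.div_one, hB, add_comm, pow_add, Nat.mod_mul, h1]
    simpa using Nat.mod_lt _ (by positivity)
  | succ k ih =>
    intro x h i hi
    have hr := rep_lt hh k
    simp only [rep] at h
    rw [Nat.shiftLeft_eq (rep _ _ _)] at h
    have h1 := congrArg (· / 2 ^ (B * 2 ^ k)) h
    have h2 := congrArg (· % 2 ^ (B * 2 ^ k)) h
    simp only [Nat.and_div_two_pow, Nat.zero_div] at h1
    simp only [Nat.and_mod_two_pow, Nat.zero_mod] at h2
    rw [Nat.add_mul_div_right _ _ (by positivity), Nat.div_eq_of_lt hr, zero_add] at h1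
    rw [Nat.add_mul_mod_self_right, Nat.mod_eq_of_lt hr] at h2
    by_cases hik : i < 2 ^ k
    · have := ih _ h2 i hik
      obtain ⟨j, hj⟩ : ∃ j, 2 ^ k = i + 1 + j := ⟨2 ^ k - (i + 1), by omega⟩
      rwa [hj, show B * (i + 1 + j) = B * i + (B + B * j) by ring, pow_add, Nat.mod_mul_right_div_self,
        pow_add, Nat.mod_mul_right_mod] at this
    · obtain ⟨j, rfl⟩ : ∃ j, i = 2 ^ k + j := ⟨i - 2 ^ k, by omega⟩
      have := ih _ h1 j (by rw [pow_succ] at hi; omega)
      rwa [Nat.div_div_eq_div_mul, ← pow_add, ← mul_add] at this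

lemma Bd.dig {B b c k x M : ℕ} (hB : B = c + b) (hM : M ≤ 2 ^ k)
    (h : x &&& rep B (((1 <<< c) - 1) <<< b) k = 0) : Bd (2 ^ b) (dig B M x) := fun i => by
  rw [dig_coeff]; split_ifs with hi
  · have := rep_small hB k x h i (by omega)
    rw [abs_of_nonneg (by positivity)]; exact_mod_cast this.le
  · simp

/-- sequential product of the numbers `2 ^ (B k) - 1` -/
def sq (B : ℕ) : ℕ → ℕ → ℕ → ℕ → ℕ
  | 0, _, _, acc => acc
  | g + 1, lo, hi, acc => if lo < hi then sq B g (lo + 1) hi ((acc <<< (B * lo)) - acc) else acc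

/-- product tree for the numbers `2 ^ (B k) - 1` -/
def pt (B g : ℕ) : ℕ → ℕ → ℕ → ℕ
  | 0, lo, hi => sq B g lo hi 1
  | d + 1, lo, hi => if lo < hi then pt B g d lo hi * pt B g d (lo + g * 2 ^ d) hi else 1

lemma sq_eq (B g : ℕ) : ∀ lo hi acc, ((sq B g lo hi acc : ℕ) : ℤ)
    = acc * ∏ k ∈ Ico lo (min (lo + g) hi), (((2 : ℤ) ^ B) ^ k - 1) := by
  induction g with
  | zero => intro lo hi acc; rw [Ico_eq_empty (by omega)]; simp [sq]
  | succ g ih =>
    intro lo hi acc
    rw [sq]; split_ifs with h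
    · rw [ih, prod_eq_prod_Ico_succ_bot (show lo < min (lo + (g + 1)) hi by omega),
        show lo + 1 + g = lo + (g + 1) by ring, Nat.shiftLeft_eq,
        Nat.cast_sub (Nat.le_mul_of_pos_right _ (by positivity))]
      push_cast; rw [pow_mul]; ring
    · rw [Ico_eq_empty (by omega)]; simp

lemma pt_eq (B g d : ℕ) : ∀ lo hi, ((pt B g d lo hi : ℕ) : ℤ)
    = ∏ k ∈ Ico lo (min (lo + g * 2 ^ d) hi), (((2 : ℤ) ^ B) ^ k - 1) := by
  induction d with
  | zero => intro lo hi; simp [pt, sq_eq]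
  | succ d ih =>
    intro lo hi
    rw [pt]; split_ifs with h
    · rw [Nat.cast_mul, ih, ih, pow_succ, ← mul_assoc, mul_two, ← add_assoc]
      generalize g * 2 ^ d = t
      by_cases h2 : lo + t ≤ hi
      · rw [min_eq_left h2, prod_Ico_consecutive _ (by omega) (by omega)]
      · rw [Ico_eq_empty (a := lo + t) (by omega), prod_empty, mul_one, min_eq_right (by omega),
          min_eq_right (by omega)]
    · rw [Ico_eq_empty (by omega)]; simp

lemma pt_pr {B g d lo hi : ℕ} (h : hi ≤ lo + g * 2 ^ d) :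
    ((pt B g d (lo + 1) (hi + 1) : ℕ) : ℤ) = (-1) ^ (hi - lo) * (pr lo hi).eval (2 ^ B) := by
  rw [pt_eq, min_eq_right (by omega), pr, eval_prod, ← Nat.card_Ioc, ← prod_neg,
    show Ico (lo + 1) (hi + 1) = Ioc lo hi by ext; simp]
  simp

lemma pr_eval_ne {B lo hi : ℕ} (hB : 1 ≤ B) : (pr lo hi).eval (2 ^ B) ≠ 0 := by
  rw [pr, eval_prod, prod_ne_zero_iff]
  intro k hk
  have hk : k ≠ 0 := by have := (mem_Ioc.1 hk).1; omega
  have : (1 : ℤ) < (2 ^ B) ^ k := one_lt_pow₀ (one_lt_pow₀ (by norm_num) (by omega)) hk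
  simp; omega

lemma pr_coeff_zero (lo hi : ℕ) : (pr lo hi).coeff 0 = 1 := by
  rw [coeff_zero_eq_eval_zero, pr, eval_prod]
  refine prod_eq_one fun k hk => ?_
  have hk : k ≠ 0 := by have := (mem_Ioc.1 hk).1; omega
  simp [hk]

/-- the complete check for one value of `n` -/
def chk (n k : ℕ) : Bool :=
  let B := 20 * n + 8
  let M := 26 * n * n + 4 - 5 * n
  let T := 1 <<< (B * M)
  let num := ((1 <<< B) - 1) * pt B (5 * n / 64 + 1) 6 (10 * n + 1) (15 * n + 1)
  let den := pt B (3 * n / 16 + 1) 4 (0 + 1) (3 * n + 1) * pt B (2 * n / 16 + 1) 4 (2 * n + 1) (4 * n + 1)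
  let x := T - ((num / den) &&& (T - 1))
  (x &&& rep B (((1 <<< (5 * n + 2)) - 1) <<< (15 * n + 6)) k == 0) && decide (M ≤ 2 ^ k)

theorem chk_sound {n k : ℕ} (h : chk n k = true) :
    ∀ m, m + 5 * n ≤ 26 * n ^ 2 + 3 → 0 ≤ (En n).coeff m := by
  simp only [chk, Bool.and_eq_true, beq_iff_eq, decide_eq_true_eq] at h
  obtain ⟨h1, h2⟩ := h
  obtain ⟨B, hB⟩ : ∃ B, B = 20 * n + 8 := ⟨_, rfl⟩
  obtain ⟨M, hM⟩ : ∃ M, M = 26 * n * n + 4 - 5 * n := ⟨_, rfl⟩
  rw [← hB, ← hM] at h1; rw [← hM] at h2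
  have hb := Bd.dig (show B = 5 * n + 2 + (15 * n + 6) by omega) h2 h1
  set num := ((1 <<< B) - 1) * pt B (5 * n / 64 + 1) 6 (10 * n + 1) (15 * n + 1) with hnum
  set den := pt B (3 * n / 16 + 1) 4 (0 + 1) (3 * n + 1)
    * pt B (2 * n / 16 + 1) 4 (2 * n + 1) (4 * n + 1) with hden
  set x := 1 <<< (B * M) - ((num / den) &&& (1 <<< (B * M) - 1)) with hx
  have hD := Dn_eq n
  have hZ : En n * (pr 0 (3 * n) * pr (2 * n) (4 * n)) = (1 - X) * pr (10 * n) (15 * n) := by
    rw [En, mul_assoc, hD]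
  intro m hm
  have := kron_ps (Z := (En n : PowerSeries ℤ)) (Q := pr 0 (3 * n) * pr (2 * n) (4 * n))
    (R := (1 - X) * pr (10 * n) (15 * n)) (by rw [← Polynomial.coe_mul, hZ])
    (by rw [mul_coeff_zero, pr_coeff_zero, pr_coeff_zero, mul_one]) (x := x) (B := B) (M := M)
    (fun i => by
      have a1 := (hb.pr (Nat.zero_le (3 * n))).pr (show 2 * n ≤ 4 * n by omega)
      have a2 := (Bd.one.sub (Bd.one.mulX 1)).pr (show 10 * n ≤ 15 * n by omega)
      rw [mul_assoc] at a1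
      rw [one_mul, pow_one] at a2
      refine ((a1.sub a2) i).trans_lt ?_
      rw [← pow_add, ← pow_add, show 4 * n - 2 * n + (3 * n - 0 + (15 * n + 6)) = 20 * n + 6 by omega,
        show 15 * n - 10 * n = 5 * n by omega, hB]
      have : (2 : ℤ) ^ (5 * n) ≤ 2 ^ (20 * n + 6) := pow_le_pow_right₀ (by norm_num) (by omega)
      have h3 : (0 : ℤ) < 2 ^ (20 * n + 6) := by positivity
      rw [show 20 * n + 8 = 20 * n + 6 + 2 by ring, pow_add 2 (20 * n + 6) 2]; linarith)
    (by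
      have e1 : (den : ℤ) = (-1) ^ (5 * n) * (pr 0 (3 * n) * pr (2 * n) (4 * n)).eval (2 ^ B) := by
        rw [hden, Nat.cast_mul, pt_pr (by omega), pt_pr (by omega), eval_mul,
          show 5 * n = (3 * n - 0) + (4 * n - 2 * n) by omega, pow_add]; ring
      have e2 : (num : ℤ) = -(En n).eval (2 ^ B) * den := by
        rw [e1, hnum, Nat.cast_mul, pt_pr (by omega), ← hD, En, Nat.shiftLeft_eq, one_mul,
          Nat.cast_sub (Nat.one_le_two_pow), show 15 * n - 10 * n = 5 * n by omega]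
        simp only [eval_mul, eval_sub, eval_one, eval_X]; push_cast; ring
      have e3 : (den : ℤ) ≠ 0 := by
        rw [e1, eval_mul]
        exact mul_ne_zero (pow_ne_zero _ (by norm_num))
          (mul_ne_zero (pr_eval_ne (by omega)) (pr_eval_ne (by omega)))
      have e4 : ((num / den : ℕ) : ℤ) = -(En n).eval (2 ^ B) := by
        rw [Int.natCast_div, e2, Int.mul_ediv_cancel _ e3]
      rw [← hZ, eval_mul (p := En n), ← sub_mul]
      apply Dvd.dvd.mul_right
      rw [hx, Nat.shiftLeft_eq, one_mul, Nat.and_two_pow_sub_one_eq_mod,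
        Nat.cast_sub (Nat.mod_lt _ (by positivity)).le]
      have := Nat.mod_add_div (num / den) (2 ^ (B * M))
      have e5 : (((num / den) % 2 ^ (B * M) : ℕ) : ℤ)
          = -(En n).eval (2 ^ B) - 2 ^ (B * M) * ((num / den / 2 ^ (B * M) : ℕ) : ℤ) := by
        rw [← e4, eq_sub_iff_add_eq]; exact_mod_cast this
      rw [e5]
      exact ⟨1 + ((num / den / 2 ^ (B * M) : ℕ) : ℤ), by push_cast; ring⟩)
    m (by rw [hM]; have : 26 * n ^ 2 = 26 * n * n := by ring
          omega)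
  rwa [coeff_coe] at this

end Pool.Agent.Lib.MP_e3fe77_co
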