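import Pool.Agent.Lib.MP_e3fe77_co.Cert
import Pool.Agent.Lib.MP_e3fe77_co.Bonf
import Pool.Agent.Lib.MP_e3fe77_co.Chk3

/-! Choice of the radius and conclusion. -/

namespace Pool.Agent.Lib.MP_e3fe77_co
open Real Finset

lemma mu_cont (n : ℕ) {a b : ℝ} (ha : 0 < a) : ContinuousOn (mu n) (Set.Icc a b) := by
  have h : ∀ lo hi : ℕ,
      ContinuousOn (fun τ : ℝ => ∑ k ∈ Ioc lo hi, (k : ℝ) * p1 (k * τ)) (Set.Icc a b) := by
    intro lo hi
    refine continuousOn_finsetSum _ fun k hk => ContinuousOn.mul continuousOn_const ?_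
    unfold p1
    refine ContinuousOn.div (by fun_prop) (by fun_prop) fun τ hτ => ?_
    have := x_lt_one (bpos (ha.trans_le hτ.1) hk)
    linarith
  exact ((h _ _).sub ((h _ _).add (h _ _))).neg

lemma exists_radius {n m : ℕ} (hn : 64 ≤ n) (hm : m + 5 * n ≤ 26 * n ^ 2 + 3) {b : ℝ}
    (hb : 0.001 ≤ b) (hmu : mu n b ≤ m) : ∃ τ, 0.074 ≤ (n : ℝ) ^ 2 * τ ∧ τ ≤ b ∧ mu n τ = m := by
  have hn' : (64 : ℝ) ≤ n := by exact_mod_cast hn
  have hn0 : (0 : ℝ) < n := by linarith
  have ha : (0 : ℝ) < 0.074 / n ^ 2 := by positivity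
  have hab : (0.074 : ℝ) / n ^ 2 ≤ b := by
    rw [div_le_iff₀ (by positivity)]; nlinarith
  have h1 := mu_ge hn ha
  have e : (0.074 : ℝ) / n ^ 2 * n ^ 3 = 0.074 * n := by field_simp
  have hm' : (m : ℝ) + 5 * n ≤ 26 * n ^ 2 + 3 := by exact_mod_cast hm
  rw [e] at h1
  obtain ⟨τ, h2, h3⟩ := intermediate_value_Icc' hab (mu_cont n ha) (⟨hmu, by linarith⟩ :
    (m : ℝ) ∈ Set.Icc (mu n b) (mu n (0.074 / n ^ 2)))
  exact ⟨τ, by have := h2.1; rw [div_le_iff₀ (by positivity)] at this; linarith, h2.2, h3⟩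

lemma analytic {n m : ℕ} (hn : 64 ≤ n) {τ : ℝ} (h0 : 0.074 ≤ (n : ℝ) ^ 2 * τ)
    (h1 : n * τ ≤ 1.65 ∨ τ ≤ 1 / 52) (hmu : mu n τ = m) : 0 ≤ (En n).coeff m := by
  have hτ : 0 < τ := by
    by_contra hh; push Not at hh
    have := mul_nonpos_of_nonneg_of_nonpos (sq_nonneg (n : ℝ)) hh
    linarith
  rcases le_total (n * τ) 0.12 with a1 | a1
  · exact regI ok1 hn h0 (by positivity) a1 hmu
  rcases le_total (n * τ) 0.26 with a2 | a2
  · exact regI ok2 hn h0 a1 a2 hmu
  rcases le_total (n * τ) 0.36 with a3 | a3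
  · exact regII ok3 hn a2 a3 hmu
  rcases le_total (n * τ) 0.8 with a4 | a4
  · exact regII ok4 hn a3 a4 hmu
  rcases le_total (n * τ) 1.3 with a5 | a5
  · exact regII ok5 hn a4 a5 hmu
  rcases le_total (n * τ) 1.65 with a6 | a6
  · exact regII ok6 hn a5 a6 hmu
  rcases h1 with h1 | h1
  · exact regII ok6 hn a5 h1 hmu
  · exact regIII ok7 hτ h1 a6 hmu

theorem En_nonneg {n : ℕ} (hn : 1 ≤ n) (m : ℕ) (hm : m + 5 * n ≤ 26 * n ^ 2 + 3) :
    0 ≤ (En n).coeff m := by
  by_cases h0 : n < 64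
  · have : ∃ k, chk n k = true := by
      by_cases a : n < 42
      · exact chk_range0 n hn a
      by_cases b : n < 51
      · exact chk_range1 n (by omega) b
      by_cases c : n < 58
      · exact chk_range2 n (by omega) c
      · exact chk_range3 n (by omega) h0
    obtain ⟨k, hk⟩ := this
    exact chk_sound hk m hm
  have hn1 : 64 ≤ n := by omega
  by_cases h1 : n < 76
  · by_cases h2 : m < 4110
    · exact chkB_sound chkB_64 (by norm_num) (by omega) m h2
    have hn' : (64 : ℝ) ≤ n := by exact_mod_cast hn1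
    have hn2 : (n : ℝ) ≤ 75 := by exact_mod_cast (show n ≤ 75 by omega)
    have hm' : (4110 : ℝ) ≤ m := by exact_mod_cast (show 4110 ≤ m by omega)
    have a := mu_le (n := n) (τ := 2 / 91) (T := 1.4065) (E := 0.24501) (by norm_num)
      (exp_small (by norm_num) (by norm_num)) (by norm_num) (by linarith)
      (exp_neg_le_of (by norm_num) (by unfold eL; norm_num))
    obtain ⟨τ, b1, b2, b3⟩ := exists_radius hn1 hm (b := 2 / 91) (by norm_num)
      (by norm_num at a; linarith)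
    refine analytic hn1 b1 (Or.inl ?_) b3
    nlinarith
  · by_cases h2 : m < 5250
    · exact chkB_sound chkB_76 (by norm_num) (by omega) m h2
    have hn' : (76 : ℝ) ≤ n := by exact_mod_cast (show 76 ≤ n by omega)
    have hm' : (5250 : ℝ) ≤ m := by exact_mod_cast (show 5250 ≤ m by omega)
    have a := mu_le (n := n) (τ := 1 / 52) (T := 1.4615) (E := 0.2319) (by norm_num)
      (exp_small (by norm_num) (by norm_num)) (by norm_num) (by linarith)
      (exp_neg_le_of (by norm_num) (by unfold eL; norm_num))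
    obtain ⟨τ, b1, b2, b3⟩ := exists_radius hn1 hm (b := 1 / 52) (by norm_num)
      (by norm_num at a; linarith)
    exact analytic hn1 b1 (Or.inr b2) b3

end Pool.Agent.Lib.MP_e3fe77_co
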