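import Pool.Agent.Lib.MP_e3fe77_co.Sums

/-! The quotients are polynomials; they are palindromic and have their roots on the unit circle. -/

namespace Pool.Agent.Lib.MP_e3fe77_co
open Polynomial Finset

/-- the product of `1 - X ^ i` over `lo < i ≤ hi` -/
noncomputable def pr (lo hi : ℕ) : ℤ[X] := ∏ i ∈ Ioc lo hi, (1 - X ^ i)

/-- a product of cyclotomic polynomials -/
noncomputable def cyc (K : ℕ) (e : ℕ → ℕ) : ℤ[X] := ∏ d ∈ Icc 1 K, cyclotomic d ℤ ^ e d

lemma cyc_mul (K : ℕ) (e f : ℕ → ℕ) : cyc K e * cyc K f = cyc K (fun d => e d + f d) := by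
  simp [cyc, pow_add, prod_mul_distrib]

lemma cyc_congr {K : ℕ} {e f : ℕ → ℕ} (h : ∀ d, 1 ≤ d → e d = f d) : cyc K e = cyc K f :=
  prod_congr rfl fun d hd => by rw [h d (mem_Icc.1 hd).1]

/-- indicator of divisibility -/
def dv (j d : ℕ) : ℕ := if d ∣ j then 1 else 0

lemma one_sub_pow {K j : ℕ} (h1 : 1 ≤ j) (h2 : j ≤ K) : (1 - X ^ j : ℤ[X]) = -cyc K (dv j) := by
  rw [← neg_sub, ← prod_cyclotomic_eq_X_pow_sub_one h1 ℤ, cyc]
  congr 1
  have : Nat.divisors j = (Icc 1 K).filter (· ∣ j) := by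
    ext d; simp only [Nat.mem_divisors, mem_filter, mem_Icc]
    constructor
    · rintro ⟨h, -⟩
      exact ⟨⟨Nat.pos_of_dvd_of_pos h h1, (Nat.le_of_dvd h1 h).trans h2⟩, h⟩
    · rintro ⟨-, h⟩; exact ⟨h, by omega⟩
  rw [this, prod_filter]
  refine prod_congr rfl fun d _ => ?_
  unfold dv; split_ifs <;> simp

lemma pr_zero_eq {K m : ℕ} (h : m ≤ K) : pr 0 m = (-1) ^ m * cyc K (fun d => m / d) := by
  induction m with
  | zero => simp [pr, cyc]
  | succ m ih =>
    have e : cyc K (fun d => (m + 1) / d) = cyc K (fun d => m / d) * cyc K (dv (m + 1)) := by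
      rw [cyc_mul]; exact cyc_congr fun d _ => by rw [Nat.succ_div]; rfl
    have ih := ih (by omega)
    unfold pr at *
    rw [prod_Ioc_succ_top (Nat.zero_le m), ih, one_sub_pow (by omega) h, e]; ring

lemma pr_mul {a b c : ℕ} (h1 : a ≤ b) (h2 : b ≤ c) : pr a b * pr b c = pr a c :=
  prod_Ioc_consecutive _ h1 h2

/-- the exponent of the `d`-th cyclotomic polynomial in the quotient -/
def ex (n d : ℕ) : ℕ := 15 * n / d + 2 * n / d - (10 * n / d + 4 * n / d + 3 * n / d)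

lemma floors (n d : ℕ) : 15 * n / d = 60 * n / d / 4 ∧ 2 * n / d = 60 * n / d / 30 ∧
    10 * n / d = 60 * n / d / 6 ∧ 4 * n / d = 60 * n / d / 15 ∧ 3 * n / d = 60 * n / d / 20 := by
  have h : ∀ a b, a * b = 60 → a * n / d = 60 * n / d / b := by
    intro a b h
    have hb : 0 < b := by rcases b with _ | b; · omega
                          · omega
    rw [Nat.div_div_eq_div_mul, ← h, mul_right_comm, Nat.mul_div_mul_right _ _ hb]
  exact ⟨h _ _ rfl, h _ _ rfl, h _ _ rfl, h _ _ rfl, h _ _ rfl⟩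

lemma ex_add (n d : ℕ) :
    ex n d + (10 * n / d + 4 * n / d + 3 * n / d) = 15 * n / d + 2 * n / d := by
  obtain ⟨h1, h2, h3, h4, h5⟩ := floors n d
  unfold ex; rw [h1, h2, h3, h4, h5]; omega

lemma ex_pos {n d c : ℕ} (hc : c = 1 ∨ c = 3) (hd : 3 * c ≤ d) (h : d ∣ 10 * n + c) : 1 ≤ ex n d := by
  obtain ⟨h1, h2, h3, h4, h5⟩ := floors n d
  unfold ex; rw [h1, h2, h3, h4, h5]
  obtain ⟨j, hj⟩ := h
  have hd0 : 0 < d := by omega
  have j2 : j % 2 = 1 := by
    by_contra hh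
    obtain ⟨i, rfl⟩ : ∃ i, j = 2 * i := ⟨j / 2, by omega⟩
    rw [mul_left_comm] at hj; omega
  have j5 : j % 5 ≠ 0 := by
    intro hh
    obtain ⟨i, rfl⟩ : ∃ i, j = 5 * i := ⟨j / 5, by omega⟩
    rw [mul_left_comm] at hj; omega
  obtain ⟨i, rfl⟩ : ∃ i, j = i + 1 := ⟨j - 1, by omega⟩
  have k1 : 6 * i + 4 ≤ 60 * n / d := by
    rw [Nat.le_div_iff_mul_le hd0]; nlinarith
  have k2 : 60 * n / d < 6 * i + 6 := by
    have : 1 ≤ c := by omega
    rw [Nat.div_lt_iff_lt_mul hd0]; nlinarith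
  generalize 60 * n / d = k at *
  omega

/-- the polynomial `[15n]! [2n]! / ([10n]! [4n]! [3n]!)` -/
noncomputable def Dn (n : ℕ) : ℤ[X] := cyc (15 * n) (ex n)

lemma Dn_full (n : ℕ) :
    Dn n * (pr 0 (10 * n) * pr 0 (4 * n) * pr 0 (3 * n)) = pr 0 (15 * n) * pr 0 (2 * n) := by
  rw [pr_zero_eq (K := 15 * n) (m := 10 * n) (by omega),
    pr_zero_eq (K := 15 * n) (m := 4 * n) (by omega),
    pr_zero_eq (K := 15 * n) (m := 3 * n) (by omega),
    pr_zero_eq (K := 15 * n) (m := 15 * n) (by omega),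
    pr_zero_eq (K := 15 * n) (m := 2 * n) (by omega)]
  have e : Dn n * (cyc (15 * n) (fun d => 10 * n / d) * cyc (15 * n) (fun d => 4 * n / d)
      * cyc (15 * n) (fun d => 3 * n / d))
      = cyc (15 * n) (fun d => 15 * n / d) * cyc (15 * n) (fun d => 2 * n / d) := by
    rw [Dn, cyc_mul, cyc_mul, cyc_mul, cyc_mul]
    exact cyc_congr fun d _ => ex_add n d
  have s : ((-1 : ℤ[X])) ^ (10 * n) * (-1) ^ (4 * n) * (-1) ^ (3 * n)
      = (-1) ^ (15 * n) * (-1) ^ (2 * n) := by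
    rw [← pow_add, ← pow_add, ← pow_add]; congr 1; omega
  linear_combination ((-1) ^ (15 * n) * (-1) ^ (2 * n)) * e
    + (Dn n * (cyc (15 * n) (fun d => 10 * n / d) * cyc (15 * n) (fun d => 4 * n / d)
      * cyc (15 * n) (fun d => 3 * n / d))) * s

/-- nonzero, of degree `N`, and equal to its reverse up to the sign `(-1)^k` -/
def Pal (k N : ℕ) (P : ℤ[X]) : Prop := P ≠ 0 ∧ P.natDegree = N ∧ P.reverse = (-1) ^ k * P

lemma Pal.mul {k l N M : ℕ} {P Q : ℤ[X]} (h : Pal k N P) (g : Pal l M Q) :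
    Pal (k + l) (N + M) (P * Q) :=
  ⟨mul_ne_zero h.1 g.1, by rw [natDegree_mul h.1 g.1, h.2.1, g.2.1],
    by rw [reverse_mul_of_domain, h.2.2, g.2.2]; ring⟩

lemma Pal.cancel {k l N M : ℕ} {P Q : ℤ[X]} (h : Pal k N (P * Q)) (g : Pal l M Q) :
    Pal (k + l) (N - M) P := by
  have hP : P ≠ 0 := left_ne_zero_of_mul h.1
  refine ⟨hP, by rw [← h.2.1, natDegree_mul hP g.1, g.2.1]; omega, ?_⟩
  have h1 := h.2.2
  rw [reverse_mul_of_domain, g.2.2] at h1
  apply mul_right_cancel₀ g.1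
  have : ((-1 : ℤ[X])) ^ l * (-1) ^ l = 1 := by rw [← mul_pow]; simp
  linear_combination ((-1) ^ l) * h1 - (P.reverse * Q) * this

lemma pal_base {j : ℕ} (hj : 1 ≤ j) : Pal 1 j (1 - X ^ j) := by
  have hd : (1 - X ^ j : ℤ[X]).natDegree = j := by
    rw [← neg_sub, natDegree_neg, ← C_1, natDegree_X_pow_sub_C]
  refine ⟨fun h => by rw [h] at hd; simp at hd; omega, hd, ?_⟩
  rw [reverse, hd, reflect_sub, reflect_one, reflect_monomial]
  simp

lemma pal_pr {lo hi : ℕ} (h : lo ≤ hi) : Pal (hi - lo) (∑ i ∈ Ioc lo hi, i) (pr lo hi) := by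
  induction hi, h using Nat.le_induction with
  | base => simpa [pr, Pal] using (reverse_C (1 : ℤ))
  | succ k hk ih =>
    have := ih.mul (pal_base (j := k + 1) (by omega))
    unfold pr at *
    rw [prod_Ioc_succ_top hk, sum_Ioc_succ_top hk, show k + 1 - lo = k - lo + 1 by omega]
    exact this

lemma pr_ne {lo hi : ℕ} (h : lo ≤ hi) : pr lo hi ≠ 0 := (pal_pr h).1

lemma Dn_eq (n : ℕ) : Dn n * (pr 0 (3 * n) * pr (2 * n) (4 * n)) = pr (10 * n) (15 * n) := by
  have h := Dn_full n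
  rw [← pr_mul (a := 0) (b := 10 * n) (c := 15 * n) (by omega) (by omega),
    ← pr_mul (a := 0) (b := 2 * n) (c := 4 * n) (by omega) (by omega)] at h
  apply mul_right_cancel₀ (mul_ne_zero (pr_ne (Nat.zero_le (10 * n))) (pr_ne (Nat.zero_le (2 * n))))
  linear_combination h

lemma pal_Dn (n : ℕ) : Pal (10 * n) (52 * n ^ 2) (Dn n) := by
  have h1 := pal_pr (lo := 10 * n) (hi := 15 * n) (by omega)
  rw [← Dn_eq] at h1
  have h2 := h1.cancel ((pal_pr (lo := 0) (hi := 3 * n) (by omega)).mul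
    (pal_pr (lo := 2 * n) (hi := 4 * n) (by omega)))
  have e : ∑ i ∈ Ioc (10 * n) (15 * n), i
      = 52 * n ^ 2 + (∑ i ∈ Ioc 0 (3 * n), i + ∑ i ∈ Ioc (2 * n) (4 * n), i) := by
    have a1 := sum_one' (lo := 10 * n) (hi := 15 * n) (by omega)
    have a2 := sum_one' (lo := 0) (hi := 3 * n) (by omega)
    have a3 := sum_one' (lo := 2 * n) (hi := 4 * n) (by omega)
    apply Nat.cast_injective (R := ℝ)
    push_cast at *
    rw [a1, a2, a3]; ring
  rw [e, Nat.add_sub_cancel] at h2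
  convert h2 using 1
  omega

lemma exists_A {n : ℕ} (hn : 1 ≤ n) : ∃ A : ℤ[X], A * (1 - X ^ (10 * n + 1)) = (1 - X) * Dn n := by
  refine ⟨cyc (15 * n) (fun d => ex n d + dv 1 d - dv (10 * n + 1) d), ?_⟩
  have h1 := one_sub_pow (K := 15 * n) (j := 1) le_rfl (by omega)
  rw [pow_one] at h1
  rw [h1, one_sub_pow (K := 15 * n) (by omega) (by omega), Dn, mul_neg, neg_mul, cyc_mul, cyc_mul]
  congr 1
  refine cyc_congr fun d hd => ?_
  unfold dv
  by_cases h : d ∣ 10 * n + 1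
  · by_cases g : d = 1
    · subst g; simp; omega
    · have : d ≠ 2 := by rintro rfl; omega
      have := ex_pos (Or.inl rfl) (by omega) h
      simp [h, g]; omega
  · simp only [h, if_false]; omega

lemma exists_B {n : ℕ} (hn : 1 ≤ n) : ∃ B : ℤ[X],
    B * ((1 - X) * (1 - X ^ (10 * n + 3))) = (1 - X ^ 3) * (1 - X ^ 7) * Dn n := by
  refine ⟨cyc (15 * n) (fun d => ex n d + dv 3 d + dv 7 d - (dv 1 d + dv (10 * n + 3) d)), ?_⟩
  have h1 := one_sub_pow (K := 15 * n) (j := 1) le_rfl (by omega)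
  rw [pow_one] at h1
  rw [h1, one_sub_pow (K := 15 * n) (j := 10 * n + 3) (by omega) (by omega),
    one_sub_pow (K := 15 * n) (j := 3) (by omega) (by omega),
    one_sub_pow (K := 15 * n) (j := 7) (by omega) (by omega), Dn, neg_mul_neg, neg_mul_neg,
    cyc_mul, cyc_mul, cyc_mul, cyc_mul]
  refine cyc_congr fun d hd => ?_
  unfold dv
  by_cases g : d = 1
  · subst g; simp; omega
  have g1 : ¬ d ∣ 1 := by simpa using g
  by_cases h : d ∣ 10 * n + 3
  · by_cases g3 : d = 3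
    · subst g3; simp [h]; omega
    by_cases g7 : d = 7
    · subst g7; simp [h]; omega
    have : 9 ≤ d := by
      by_contra hh
      have : d = 2 ∨ d = 4 ∨ d = 5 ∨ d = 6 ∨ d = 8 := by omega
      rcases this with rfl | rfl | rfl | rfl | rfl <;> omega
    have := ex_pos (Or.inr rfl) (by omega) h
    simp only [h, g1, if_true, if_false]; omega
  · simp only [h, g1, if_false]; omega

/-- a product of real quadratic factors `X^2 - 2 c X + 1` with `-1 ≤ c ≤ c0` -/
def Good (c0 : ℝ) (P : ℤ[X]) : Prop :=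
  ∃ (ι : Type) (s : Finset ι) (c : ι → ℝ), (∀ i ∈ s, -1 ≤ c i ∧ c i ≤ c0) ∧
    P.map (Int.castRingHom ℂ) = ∏ i ∈ s, (X ^ 2 - C (2 * (c i : ℂ)) * X + 1)

lemma Good.one (c0 : ℝ) : Good c0 1 := ⟨Unit, ∅, fun _ => 0, by simp, by simp⟩

lemma Good.mul {c0 : ℝ} {P Q : ℤ[X]} (h : Good c0 P) (g : Good c0 Q) : Good c0 (P * Q) := by
  obtain ⟨ι, s, c, h1, h2⟩ := h
  obtain ⟨κ, t, d, g1, g2⟩ := g
  refine ⟨ι ⊕ κ, s.disjSum t, Sum.elim c d, ?_, ?_⟩
  · rintro (i | i) hi
    · exact h1 i (by simpa using hi)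
    · exact g1 i (by simpa using hi)
  · rw [prod_disjSum, Polynomial.map_mul, h2, g2]; rfl

lemma Good.pow {c0 : ℝ} {P : ℤ[X]} (h : Good c0 P) (k : ℕ) : Good c0 (P ^ k) := by
  induction k with
  | zero => simpa using Good.one c0
  | succ k ih => rw [pow_succ]; exact ih.mul h

lemma Good.cyclo {K d : ℕ} (h3 : 3 ≤ d) (hK : d ≤ K) :
    Good (Real.cos (2 * Real.pi / K)) (cyclotomic d ℤ) := by
  have hd : d ≠ 0 := by omega
  have hd0 : 0 < d := by omega
  have hpi := Real.pi_pos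
  set S := primitiveRoots d ℂ with hS
  have hmem : ∀ z ∈ S, IsPrimitiveRoot z d := fun z hz => (mem_primitiveRoots hd0).1 hz
  have hnorm : ∀ z ∈ S, z.re ^ 2 + z.im ^ 2 = 1 := fun z hz => by
    have := (hmem z hz).norm'_eq_one hd
    have h2 := Complex.sq_norm z
    rw [this, Complex.normSq_apply] at h2; linarith
  have him : ∀ z ∈ S, z.im ≠ 0 := fun z hz h0 => by
    have h1 := hnorm z hz
    have h2 : z ^ 2 = 1 := by
      apply Complex.ext <;> simp [sq, h0]
      rw [h0] at h1; linarith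
    have := Nat.le_of_dvd (by norm_num) ((hmem z hz).dvd_of_pow_eq_one 2 h2)
    omega
  refine ⟨ℂ, S.filter (fun z => 0 < z.im), fun z => z.re, fun z hz => ?_, ?_⟩
  · have hz := (mem_filter.1 hz).1
    refine ⟨by nlinarith [hnorm z hz, sq_nonneg z.im], ?_⟩
    obtain ⟨i, hi, hc, rfl⟩ := (Complex.isPrimitiveRoot_iff z d hd).1 (hmem z hz)
    have hi0 : 1 ≤ i := by
      rcases i with _ | i
      · simp at hc; omega
      · omega
    have e : (2 * Real.pi * Complex.I * (i / d) : ℂ) = ((2 * Real.pi * (i / d) : ℝ) : ℂ) * Complex.I := by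
      push_cast; ring
    simp only [e, Complex.exp_ofReal_mul_I_re]
    have hdr : (3 : ℝ) ≤ d := by exact_mod_cast h3
    have hKr : (d : ℝ) ≤ K := by exact_mod_cast hK
    have hi1 : (1 : ℝ) ≤ i := by exact_mod_cast hi0
    have hi2 : (i : ℝ) + 1 ≤ d := by exact_mod_cast hi
    have a1 : 2 * Real.pi / K ≤ 2 * Real.pi * (1 / d) := by
      rw [mul_one_div]; gcongr
    have a0 : 0 ≤ 2 * Real.pi / K := by positivity
    have a2 : 1 / (d : ℝ) ≤ i / d := by gcongr
    have a3 : (i : ℝ) / d ≤ 1 - 1 / d := by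
      rw [div_le_iff₀ (by linarith)]; field_simp; linarith
    rcases le_total (2 * Real.pi * (i / d)) Real.pi with h | h
    · apply Real.cos_le_cos_of_nonneg_of_le_pi a0 h; nlinarith
    · rw [← Real.cos_two_pi_sub]
      apply Real.cos_le_cos_of_nonneg_of_le_pi a0 (by linarith); nlinarith
  · rw [map_cyclotomic_int, cyclotomic_eq_prod_X_sub_primitiveRoots
      (Complex.isPrimitiveRoot_exp d hd), ← hS,
      ← prod_filter_mul_prod_filter_not S (fun z => 0 < z.im)]
    have hconj : ∀ z ∈ S, (starRingEnd ℂ) z ∈ S := fun z hz =>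
      (mem_primitiveRoots hd0).2 ((hmem z hz).map_of_injective (starRingEnd ℂ).injective)
    have : ∏ z ∈ S.filter (fun z => ¬ 0 < z.im), (X - C z)
        = ∏ z ∈ S.filter (fun z => 0 < z.im), (X - C ((starRingEnd ℂ) z)) := by
      refine prod_nbij' (fun z => (starRingEnd ℂ) z) (fun z => (starRingEnd ℂ) z) ?_ ?_ ?_ ?_ ?_
      · intro z hz
        have hz := mem_filter.1 hz
        refine mem_filter.2 ⟨hconj z hz.1, ?_⟩
        have := him z hz.1
        have h2 := hz.2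
        simp only [Complex.conj_im, not_lt] at *
        exact neg_pos.2 (lt_of_le_of_ne h2 this)
      · intro z hz
        have hz := mem_filter.1 hz
        refine mem_filter.2 ⟨hconj z hz.1, ?_⟩
        have h2 := hz.2
        simp only [Complex.conj_im, not_lt] at *
        linarith
      · intro z _; simp
      · intro z _; simp
      · intro z _; simp
    rw [this, ← prod_mul_distrib]
    refine prod_congr rfl fun z hz => ?_
    have h1 := hnorm z (mem_filter.1 hz).1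
    have h2 : z * (starRingEnd ℂ) z = 1 := by
      rw [Complex.mul_conj, Complex.normSq_apply]; norm_cast; linarith
    have h4 : z + (starRingEnd ℂ) z = 2 * (z.re : ℂ) := by rw [Complex.add_conj]; push_cast; ring
    rw [← h4, ← C_1, ← h2, C_add, C_mul]; ring

lemma good_Dn (n : ℕ) : Good (Real.cos (2 * Real.pi / (15 * n : ℕ))) (Dn n) := by
  unfold Dn cyc
  apply prod_induction _ (Good _) (fun _ _ => Good.mul) (Good.one _)
  intro d hd
  have hd := mem_Icc.1 hd
  by_cases h : 3 ≤ d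
  · exact (Good.cyclo h hd.2).pow _
  · have : ex n d = 0 := by
      have : d = 1 ∨ d = 2 := by omega
      rcases this with rfl | rfl <;> unfold ex <;> omega
    rw [this, pow_zero]; exact Good.one _

lemma roots_Dn (n : ℕ) : ∃ (ι : Type) (s : Finset ι) (c : ι → ℝ), s.card = 26 * n ^ 2 ∧
    (∀ i ∈ s, -1 ≤ c i ∧ c i ≤ Real.cos (2 * Real.pi / (15 * n : ℕ))) ∧
    ∀ z : ℂ, aeval z (Dn n) = ∏ i ∈ s, (z ^ 2 - 2 * (c i : ℂ) * z + 1) := by
  obtain ⟨ι, s, c, h1, h2⟩ := good_Dn n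
  refine ⟨ι, s, c, ?_, h1, fun z => ?_⟩
  · have h3 := congrArg natDegree h2
    rw [natDegree_map_eq_of_injective Int.cast_injective, (pal_Dn n).2.1,
      natDegree_prod_of_monic _ _ (fun i _ => by monicity!),
      sum_congr rfl (g := fun _ => 2) (fun i _ => by compute_degree!)] at h3
    simp at h3; omega
  · rw [aeval_def, eval₂_eq_eval_map, show algebraMap ℤ ℂ = Int.castRingHom ℂ from rfl, h2,
      eval_prod]
    simp

end Pool.Agent.Lib.MP_e3fe77_co
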