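import Pool.Agent.Lib.MP_e3fe77_co.Poly

/-! Reduction to the first half of the coefficients of `(1 - X) D`. -/

namespace Pool.Agent.Lib.MP_e3fe77_co
open Polynomial Finset

/-- the polynomial `(1 - X) D` -/
noncomputable def En (n : ℕ) : ℤ[X] := (1 - X) * Dn n

lemma nn_of_mul {P F : ℤ[X]} {s M : ℕ} (hs : 1 ≤ s) (h : P * (1 - X ^ s) = F)
    (hF : ∀ m, m ≤ M → 0 ≤ F.coeff m) : ∀ m, m ≤ M → 0 ≤ P.coeff m := by
  intro m
  induction m using Nat.strong_induction_on with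
  | _ m ih =>
    intro hm
    have h1 := hF m hm
    rw [← h, mul_sub, mul_one, coeff_sub, coeff_mul_X_pow'] at h1
    split_ifs at h1 with h2
    · have := ih (m - s) (by omega) (by omega); linarith
    · linarith

lemma Pal.nn {k N M : ℕ} {P : ℤ[X]} (h : Pal k N P) (hk : Even k) (hN : N ≤ 2 * M)
    (hP : ∀ m, m ≤ M → 0 ≤ P.coeff m) (m : ℕ) : 0 ≤ P.coeff m := by
  by_cases h1 : m ≤ M
  · exact hP m h1
  by_cases h2 : m ≤ N
  · have h3 := h.2.2
    rw [hk.neg_one_pow, one_mul] at h3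
    rw [← h3, coeff_reverse, h.2.1, revAt_le h2]
    exact hP _ (by omega)
  · rw [coeff_eq_zero_of_natDegree_lt (by rw [h.2.1]; omega)]

lemma nn_mul {G F : ℤ[X]} {M : ℕ} (hG : ∀ m, 0 ≤ G.coeff m) (hF : ∀ m, m ≤ M → 0 ≤ F.coeff m) :
    ∀ m, m ≤ M → 0 ≤ (G * F).coeff m := by
  intro m hm
  rw [coeff_mul]
  refine sum_nonneg fun x hx => mul_nonneg (hG _) (hF _ ?_)
  have := mem_antidiagonal.1 hx
  omega

lemma geom_nn (k m : ℕ) : 0 ≤ (∑ i ∈ range k, (X : ℤ[X]) ^ i).coeff m := by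
  rw [finsetSum_coeff]
  refine sum_nonneg fun i _ => ?_
  rw [coeff_X_pow]; split_ifs <;> norm_num

theorem reduce {n : ℕ} (hn : 1 ≤ n)
    (h : ∀ m, m + 5 * n ≤ 26 * n ^ 2 + 3 → 0 ≤ (En n).coeff m) :
    (∃ A : ℤ[X], (∀ i, 0 ≤ A.coeff i) ∧
      A * ((1 - X ^ (10 * n + 1)) * pr 0 (10 * n) * pr 0 (4 * n) * pr 0 (3 * n))
        = (1 - X) * pr 0 (15 * n) * pr 0 (2 * n)) ∧
    (∃ B : ℤ[X], (∀ i, 0 ≤ B.coeff i) ∧
      B * ((1 - X) * (1 - X ^ (10 * n + 3)) * pr 0 (10 * n) * pr 0 (4 * n) * pr 0 (3 * n))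
        = (1 - X ^ 3) * (1 - X ^ 7) * pr 0 (15 * n) * pr 0 (2 * n)) := by
  have hn2 : n ≤ n ^ 2 := by nlinarith
  have h' : ∀ m, m ≤ 26 * n ^ 2 + 3 - 5 * n → 0 ≤ (En n).coeff m := fun m hm => h m (by omega)
  have hX : Pal 1 1 (1 - X) := by simpa using pal_base (j := 1) le_rfl
  have hD := Dn_full n
  constructor
  · obtain ⟨A, hA⟩ := exists_A hn
    refine ⟨A, ?_, by linear_combination (pr 0 (10 * n) * pr 0 (4 * n) * pr 0 (3 * n)) * hA
      + (1 - X) * hD⟩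
    have h1 := hX.mul (pal_Dn n)
    rw [← hA] at h1
    exact (h1.cancel (pal_base (by omega))).nn ⟨5 * n + 1, by ring⟩ (by omega)
      (nn_of_mul (by omega) hA h')
  · obtain ⟨B, hB⟩ := exists_B hn
    refine ⟨B, ?_, by linear_combination (pr 0 (10 * n) * pr 0 (4 * n) * pr 0 (3 * n)) * hB
      + (1 - X ^ 3) * (1 - X ^ 7) * hD⟩
    have h1 := ((pal_base (j := 3) (by omega)).mul (pal_base (j := 7) (by omega))).mul (pal_Dn n)
    rw [← hB] at h1
    have h2 : B * (1 - X ^ (10 * n + 3))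
        = (∑ i ∈ range 3, X ^ i) * ((∑ i ∈ range 7, X ^ i) * En n) := by
      apply mul_left_cancel₀ hX.1
      rw [En]
      simp only [sum_range_succ, range_zero, sum_empty]
      linear_combination hB
    exact (h1.cancel (hX.mul (pal_base (by omega)))).nn ⟨5 * n + 2, by ring⟩ (by omega)
      (nn_of_mul (by omega) h2 (nn_mul (geom_nn 3) (nn_mul (geom_nn 7) h')))

end Pool.Agent.Lib.MP_e3fe77_co
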