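import Pool.Agent.Lib.MP_e3fe77_co.Tail

/-! The main arc for radii that are not very close to one. -/

namespace Pool.Agent.Lib.MP_e3fe77_co
open Real Finset

/-- sum over the numerator exponents -/
noncomputable def sA (n : ℕ) (f : ℕ → ℝ) : ℝ := ∑ a ∈ Ioc (10 * n) (15 * n), f a
/-- sum over the denominator exponents -/
noncomputable def sB (n : ℕ) (f : ℕ → ℝ) : ℝ :=
  ∑ b ∈ Ioc 0 (3 * n), f b + ∑ b ∈ Ioc (2 * n) (4 * n), f b

lemma sA_le {n : ℕ} {f g : ℕ → ℝ} (h : ∀ b, 10 * n < b → f b ≤ g b) : sA n f ≤ sA n g :=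
  sum_le_sum fun b hb => h b (mem_Ioc.1 hb).1

lemma sB_le {n : ℕ} {f g : ℕ → ℝ} (h : ∀ b, 0 < b → f b ≤ g b) : sB n f ≤ sB n g :=
  add_le_add (sum_le_sum fun b hb => h b (mem_Ioc.1 hb).1)
    (sum_le_sum fun b hb => h b (by have := (mem_Ioc.1 hb).1; omega))

lemma sA_lin (n : ℕ) (f g : ℕ → ℝ) (x y : ℝ) :
    sA n (fun b => f b * x + g b * y) = sA n f * x + sA n g * y := by
  simp only [sA, sum_add_distrib, sum_mul]

lemma sB_lin (n : ℕ) (f g : ℕ → ℝ) (x y : ℝ) :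
    sB n (fun b => f b * x + g b * y) = sB n f * x + sB n g * y := by
  simp only [sB, sum_add_distrib, ← sum_mul]; ring

lemma sA_const (n : ℕ) (x : ℝ) : sA n (fun _ => x) = 5 * n * x := by
  simp only [sA, sum_const, Nat.card_Ioc, nsmul_eq_mul]
  rw [show 15 * n - 10 * n = 5 * n by omega]; push_cast; ring

lemma sB_const (n : ℕ) (x : ℝ) : sB n (fun _ => x) = 5 * n * x := by
  simp only [sB, sum_const, Nat.card_Ioc, nsmul_eq_mul]
  rw [show 4 * n - 2 * n = 2 * n by omega, Nat.sub_zero]; push_cast; ring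

lemma npos {τ : ℝ} (hτ : 0 < τ) {b : ℕ} (hb : 0 < b) : 0 < (b : ℝ) * τ := by positivity

/-- normalised second cumulant -/
noncomputable def c2 (u : ℝ) : ℝ := u ^ 2 * p2 u
/-- normalised third cumulant -/
noncomputable def c3 (u : ℝ) : ℝ := u ^ 3 * (p2 u * (1 + 2 * p1 u))
/-- normalised fourth cumulant -/
noncomputable def c4 (u : ℝ) : ℝ := u ^ 4 * (p2 u * (1 + 6 * p2 u))

theorem regAB {n m : ℕ} {τ ν : ℝ} (hτ : 0 < τ) (hτ1 : τ ≤ 0.026) (hmu : mu n τ = m)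
    {s0 l1 l2 u om k sg g g2 x0 x1 x2 x3 m1 m2 m3 m4 d1 d2 d3 d4 v k3 k4 θ1 θ2 θ3 : ℝ}
    (ok : CoreOK s0 l1 l2 1 u om k sg g g2 x0 x1 x2 x3 m1 m2 m3 m4 d1 d2 d3 d4)
    (hν : s0 ^ 2 ≤ ν) (hl1 : 1 ≤ l1 * s0 ^ 2 * 0.987) (hl2 : 1 ≤ l2 * ν * τ)
    (hk3 : 0 ≤ k3) (hk4 : 0 ≤ k4) (hg : k3 ≤ 6 * 0.987 * g) (hg2 : k3 ≤ 6 * g2)
    (hk : k ≤ v - k4 * x0 ^ 2 / 12)
    (hU : sB n (fun b => c2 (b * τ)) ≤ u * ν)
    (hV : v * ν ≤ sB n (fun b => c2 (b * τ)) - sA n (fun b => c2 (b * τ)))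
    (h3A : sA n (fun b => c3 (b * τ)) ≤ k3 * ν) (h3B : sB n (fun b => c3 (b * τ)) ≤ k3 * ν)
    (h4 : sB n (fun b => c4 (b * τ)) ≤ k4 * ν)
    (h01 : x0 * τ ≤ θ1) (h12 : θ1 ≤ θ2) (h23 : θ2 ≤ θ3) (h3 : θ3 ≤ π)
    (hx1 : θ1 ≤ x1 * τ) (hx2 : θ2 ≤ x2 * τ) (hx3 : θ3 ≤ x3 * τ)
    (t1 : ∀ θ, x0 * τ ≤ θ → θ ≤ θ1 → rho n τ θ ≤ -(ν * m1))
    (t2 : ∀ θ, θ1 ≤ θ → θ ≤ θ2 → rho n τ θ ≤ -(ν * m2))
    (t3 : ∀ θ, θ2 ≤ θ → θ ≤ θ3 → rho n τ θ ≤ -(ν * m3))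
    (t4 : ∀ θ, θ3 ≤ θ → θ ≤ π → rho n τ θ ≤ -(ν * m4)) : 0 ≤ (En n).coeff m := by
  refine coeff_nonneg n m (polarAB hτ n m) fun H hH hHe => ?_
  have hs0 := ok.1
  have hg0 := ok.2.2.2.2.2.2.1
  have hl0 := ok.2.2.2.2.2.2.2.2.2.2.2.2.1
  have hν0 : 0 < ν := lt_of_lt_of_le (by positivity) hν
  have hc : 0.987 * τ ≤ 1 - exp (-τ) := by have := exp_neg_le_quad hτ.le; nlinarith
  have hc2 : 1 - exp (-τ) ≤ 1 * τ := by have := add_one_le_exp (-τ); linarith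
  have e2 : ∀ (b : ℕ) (θ : ℝ), p2 (b * τ) * (b * θ) ^ 2 / 2 = c2 (b * τ) * ((θ / τ) ^ 2 / 2) := by
    intro b θ; unfold c2; field_simp
  refine core hH ok (γ := k3 * ν / (6 * τ ^ 3)) (exp_pos _).le (x_lt_one hτ) hHe hν hτ ?_ hl2 hc2
    (by positivity) ?_ ?_ h01 h12 h23 h3 hx1 hx2 hx3 (fun θ h0 h1 _ => ?_) (fun θ h0 h1 => ?_)
    (fun θ h0 h1 => ?_) t1 t2 t3 t4
  · calc τ = 1 * τ := by ring
      _ ≤ l1 * s0 ^ 2 * 0.987 * τ := by gcongr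
      _ = l1 * s0 ^ 2 * (0.987 * τ) := by ring
      _ ≤ _ := by gcongr
  · calc k3 * ν / (6 * τ ^ 3) * τ ^ 4 = k3 / 6 * ν * τ := by field_simp
      _ ≤ 0.987 * g * ν * τ := by gcongr; linarith
      _ = g * ν * (0.987 * τ) := by ring
      _ ≤ _ := by gcongr
  · calc k3 * ν / (6 * τ ^ 3) * τ ^ 3 = k3 / 6 * ν := by field_simp
      _ ≤ _ := by gcongr; linarith
  · refine le_trans ?_ (add_one_le_exp _)
    have a1 : sA n (fun _ => 0) ≤ SA n τ θ :=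
      sA_le fun b hb => Lg_nonneg (npos hτ (by omega)) _
    have a2 : SB n τ θ ≤ sB n (fun b => c2 (b * τ) * ((θ / τ) ^ 2 / 2) + c2 (b * τ) * 0) :=
      sB_le fun b hb => by rw [← e2, mul_zero, add_zero]; exact Lg_le (npos hτ hb) _
    rw [sB_lin] at a2; rw [sA_const] at a1
    have := mul_le_mul_of_nonneg_right hU (show 0 ≤ (θ / τ) ^ 2 / 2 by positivity)
    rw [rho_eq_sub]; linarith
  · have a1 : SA n τ θ ≤ sA n (fun b => c2 (b * τ) * ((θ / τ) ^ 2 / 2) + c2 (b * τ) * 0) :=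
      sA_le fun b hb => by rw [← e2, mul_zero, add_zero]; exact Lg_le (npos hτ (by omega)) _
    have a2 : sB n (fun b => c2 (b * τ) * ((θ / τ) ^ 2 / 2) + c4 (b * τ) * (-((θ / τ) ^ 4 / 24)))
        ≤ SB n τ θ := sB_le fun b hb => by
      refine le_trans (le_of_eq ?_) (le_Lg (npos hτ hb) (v := b * θ) (by positivity))
      unfold c2 c4; field_simp; ring
    rw [sB_lin] at a2; rw [sA_lin] at a1
    have hx : θ / τ ≤ x0 := by rw [div_le_iff₀ hτ]; exact h1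
    have hx0 : 0 ≤ θ / τ := by positivity
    generalize θ / τ = x at *
    have b1 := mul_le_mul_of_nonneg_right hV (show 0 ≤ x ^ 2 / 2 by positivity)
    have b2 := mul_le_mul_of_nonneg_right h4 (show 0 ≤ x ^ 4 / 24 by positivity)
    have b3 : x ^ 2 ≤ x0 ^ 2 := by gcongr
    have b4 := mul_le_mul_of_nonneg_right hk (show 0 ≤ ν * x ^ 2 / 2 by positivity)
    have b5 := mul_le_mul_of_nonneg_left b3 (show 0 ≤ k4 * ν * x ^ 2 / 24 by positivity)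
    rw [rho_eq_sub]; nlinarith
  · have e3 : ∀ b : ℕ, p1 (b * τ) * (b * θ) - p2 (b * τ) * (1 + 2 * p1 (b * τ)) * (b * θ) ^ 3 / 6
        = b * p1 (b * τ) * θ + c3 (b * τ) * (-((θ / τ) ^ 3 / 6)) := by
      intro b; unfold c3; field_simp; ring
    have e4 : ∀ b : ℕ, p1 (b * τ) * (b * θ) = b * p1 (b * τ) * θ + c3 (b * τ) * 0 := by
      intro b; ring
    have a1 := sA_le (n := n) fun b hb => (e3 b).symm.trans_le
      (le_Fa (npos hτ (by omega)) (v := b * θ) (by positivity))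
    have a2 := sA_le (n := n) fun b hb =>
      (Fa_le (npos hτ (show 0 < b by omega)) (v := b * θ) (by positivity)).trans_eq (e4 b)
    have a3 := sB_le (n := n) fun b hb => (e3 b).symm.trans_le
      (le_Fa (npos hτ hb) (v := b * θ) (by positivity))
    have a4 := sB_le (n := n) fun b hb =>
      (Fa_le (npos hτ hb) (v := b * θ) (by positivity)).trans_eq (e4 b)
    rw [sA_lin] at a1 a2; rw [sB_lin] at a3 a4
    have e5 : ph n τ θ = sA n (fun b => Fa (b * τ) (b * θ)) - sB n (fun b => Fa (b * τ) (b * θ)) := rfl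
    have e6 : mu n τ = -(sA n (fun b => b * p1 (b * τ)) - sB n (fun b => b * p1 (b * τ))) := rfl
    have e7 : k3 * ν / (6 * τ ^ 3) * θ ^ 3 = k3 * ν * ((θ / τ) ^ 3 / 6) := by field_simp
    have b1 := mul_le_mul_of_nonneg_right h3A (show 0 ≤ (θ / τ) ^ 3 / 6 by positivity)
    have b2 := mul_le_mul_of_nonneg_right h3B (show 0 ≤ (θ / τ) ^ 3 / 6 by positivity)
    rw [e5, ← hmu, e6, e7, abs_le]
    constructor <;> linarith

end Pool.Agent.Lib.MP_e3fe77_co
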