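import Pool.Agent.Lib.MP_e3fe77_co.RegIa

/-! The ranges `t1 ≤ n τ ≤ t2` for small `t2`. -/

namespace Pool.Agent.Lib.MP_e3fe77_co
open Real Finset

/-- the factor in the Gaussian bound -/
noncomputable def kap (t y : ℝ) : ℝ :=
  1 - (2.001 * (0.50001 * t ^ 2) + y ^ 2 / 4) / (0.50001 * t ^ 2 + 0.0877)

/-- numerical conditions for a range of small `n τ` -/
def OKI (t1 t2 ta tb Eal Eau Ebl Ebu L ul rb G y0 yp y1 y2 b q mf
    z21 z22 z23 z24 mb2 z31 z32 z33 z34 mb3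
    s0 l1 l2 om k sg g g2 m1 m2 m3 m4 d1 d2 d3 d4 : ℝ) : Prop :=
  0 ≤ t1 ∧ t1 ≤ ta ∧ 0 < ta ∧ ta ≤ tb ∧ t2 ≤ tb ∧ tb ≤ 0.3 ∧ EOK ta Eal Eau ∧ EOK tb Ebl Ebu ∧
  AOK Eal Eau L ∧ ul ≤ (63.65 - 183.61 * t2 ^ 2) / 1.0001 ∧ s0 ^ 2 ≤ 64 * ul ∧
  0 ≤ y0 ∧ y0 ≤ yp ∧ yp ≤ 0.8 ∧ yp ≤ y1 ∧ y1 ≤ y2 ∧ y2 ≤ 192 ∧
  1.0001 * y0 ^ 2 / 2 / (t1 ^ 2 / 2 + 0.0877) ≤ rb ∧ rb < 1 ∧
  1.0001 / (t1 ^ 2 / 2 + 0.0877) / (2 * (1 - rb)) ≤ G ∧ 1.0001 * G ≤ 0.997 * g ∧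
  1.0001 * t2 * G ≤ g2 ∧ k ≤ 0.9999 * kap t2 y0 ∧ 0 ≤ kap t2 yp ∧ 0 ≤ kap t2 0 ∧
  m1 ≤ y0 ^ 2 * (0.9999 / 2 * kap t2 y0) ∧ m1 ≤ yp ^ 2 * (0.9999 / 2 * kap t2 yp) ∧
  (1 ≤ l1 * ul * 0.0737 ∨ 1 ≤ l1 * s0 ^ 2 * (0.997 * t1)) ∧ 1 ≤ l2 * ul ∧
  BlockOK tb Ebl (eY tb yp) (eY tb y1) z21 z22 z23 z24 mb2 ∧
  BlockOK tb Ebl (eY tb y1) (eY tb y2) z31 z32 z33 z34 mb3 ∧ FarOK tb Ebu y2 b q mf ∧
  L / ta ≤ mb2 ∧ L / ta ≤ mb3 ∧ L / ta ≤ mf ∧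
  m2 ≤ (mb2 - L / ta) / 66.06 - (0.50001 * ta ^ 2 - t1 ^ 2 / 2) ∧
  m3 ≤ (mb3 - L / ta) / 66.06 - (0.50001 * ta ^ 2 - t1 ^ 2 / 2) ∧
  m4 ≤ (mf - L / ta) / 66.06 - (0.50001 * ta ^ 2 - t1 ^ 2 / 2) ∧
  CoreOK s0 l1 l2 t2 1.001 om k sg g g2 y0 yp y1 y2 m1 m2 m3 m4 d1 d2 d3 d4

lemma kap_eq (t y : ℝ) : kap t y = kap t 0 - 1 / 4 / (0.50001 * t ^ 2 + 0.0877) * y ^ 2 := by
  unfold kap; ring

lemma kap_anti (t : ℝ) {y y' : ℝ} (h0 : 0 ≤ y) (h : y ≤ y') : kap t y' ≤ kap t y := by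
  unfold kap; gcongr

theorem regI {t1 t2 ta tb Eal Eau Ebl Ebu L ul rb G y0 yp y1 y2 b q mf
    z21 z22 z23 z24 mb2 z31 z32 z33 z34 mb3
    s0 l1 l2 om k sg g g2 m1 m2 m3 m4 d1 d2 d3 d4 : ℝ}
    (ok : OKI t1 t2 ta tb Eal Eau Ebl Ebu L ul rb G y0 yp y1 y2 b q mf
      z21 z22 z23 z24 mb2 z31 z32 z33 z34 mb3
      s0 l1 l2 om k sg g g2 m1 m2 m3 m4 d1 d2 d3 d4)
    {n m : ℕ} {τ : ℝ} (hn : 64 ≤ n) (h0 : 0.074 ≤ n ^ 2 * τ) (h1 : t1 ≤ n * τ) (h2 : n * τ ≤ t2)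
    (hmu : mu n τ = m) : 0 ≤ (En n).coeff m := by
  obtain ⟨ht1, ht1a, hta, htab, ht2, htb, hEa, hEb, hA, hul, hs0, hy0, hy0p, hyp, hyp1, hy12, hy2,
    hrb, hrb1, hG, hg, hg2, hk, hkp, hk0, hm1, hm1', hl1, hl2, b2, b3, hf, n2, n3, n4,
    hm2, hm3, hm4, hc⟩ := ok
  obtain ⟨ι, s, c, r1, r2, r3⟩ := roots_Dn n
  have h : Roots n s c := ⟨r1, r2, r3⟩
  have hn' : (64 : ℝ) ≤ n := by exact_mod_cast hn
  have hn0 : (0 : ℝ) < n := by linarith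
  have hτ : 0 < τ := by
    by_contra hh; push Not at hh
    have := mul_nonpos_of_nonneg_of_nonpos (sq_nonneg (n : ℝ)) hh
    linarith
  have hτ1 : τ ≤ 0.005 := by have := mul_le_mul_of_nonneg_right hn' hτ.le; linarith
  obtain ⟨u1, u2⟩ := h.U_bounds hn hτ hτ1 h2
  have hU0 : 0 ≤ ∑ i ∈ s, (cosh τ - c i)⁻¹ := sum_nonneg fun i hi => (inv_pos.2 (h.pos hτ hi)).le
  obtain ⟨ν, hν⟩ : ∃ ν, ∑ i ∈ s, (cosh τ - c i)⁻¹ = ν * n ^ 2 :=
    ⟨(∑ i ∈ s, (cosh τ - c i)⁻¹) / n ^ 2, by field_simp⟩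
  have hs00 := hc.1
  have hul0 : 0 < ul := by have := pow_pos hs00 2; linarith
  have v1 : ul * n ≤ ν := by
    apply le_of_mul_le_mul_right _ (pow_pos hn0 2)
    rw [← hν]; refine le_trans ?_ u1
    calc ul * n * n ^ 2 = ul * n ^ 3 := by ring
      _ ≤ _ := by gcongr
  have v2 : ν ≤ 66.06 * n := by
    apply le_of_mul_le_mul_right _ (pow_pos hn0 2)
    rw [← hν]; linarith
  have hν0 : 0 < ν := lt_of_lt_of_le (by positivity) v1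
  have hνs : s0 ^ 2 ≤ ν := by have := mul_le_mul_of_nonneg_left hn' hul0.le; linarith
  have hsh := sinh_small hτ.le hτ1
  have hsh0 : 0 ≤ sinh τ := sinh_nonneg_iff.2 hτ.le
  have hch : cosh τ ≤ 1.0001 := by
    have := cosh_small hτ.le hτ1
    have : τ ^ 2 ≤ 0.005 ^ 2 := by gcongr
    linarith
  have hD : 0 < t1 ^ 2 / 2 + 0.0877 := by positivity
  have hG0 : 0 ≤ G := le_trans (div_nonneg (by positivity) (by linarith)) hG
  have term : ∀ θ, 0 ≤ θ → θ ≤ y0 * (1 / n) → ∀ i ∈ s,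
      0 < 1 - (cosh τ - c i)⁻¹ * cosh τ * (1 - cos θ) ∧
      |(cosh τ - c i)⁻¹ * sinh τ * θ - arctan ((cosh τ - c i)⁻¹ * sinh τ * sin θ
        / (1 - (cosh τ - c i)⁻¹ * cosh τ * (1 - cos θ)))|
        ≤ (cosh τ - c i)⁻¹ * (sinh τ * (G * n ^ 2 * θ ^ 3)) := by
    intro θ a0 a1 i hi
    rw [mul_one_div, le_div_iff₀ hn0] at a1
    have a2 := h.u_mul hn hτ hτ1 h2 (Y := 0) le_rfl (by norm_num) hi
    have hu := (inv_pos.2 (h.pos hτ hi)).le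
    have a3 := phase_term (rb := rb) hu hsh0 a0
      (by have := mul_le_mul_of_nonneg_left hn' a0; linarith only [this, a1, hy0p, hyp, pi_gt_three]) (cosh_pos τ).le hch
      (h.u_le hn ht1 h1 hi) (by
        have b1 : t1 ^ 2 ≤ 0.3 ^ 2 := by gcongr; linarith
        have b2 : (64 : ℝ) ^ 2 ≤ n ^ 2 := by gcongr
        rw [le_div_iff₀ hD]; linarith only [b1, b2])
      (by unfold kap at hk0; simp only [zero_div, add_zero, ne_eq, OfNat.ofNat_ne_zero,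
            not_false_eq_true, zero_pow] at a2 hk0; linarith)
      (by
        refine le_trans ?_ hrb
        have : (θ * n) ^ 2 ≤ y0 ^ 2 := by gcongr
        calc _ = 1.0001 * (θ * n) ^ 2 / 2 / (t1 ^ 2 / 2 + 0.0877) := by ring
          _ ≤ _ := by gcongr) hrb1
    refine ⟨a3.1, a3.2.trans ?_⟩
    calc _ = (cosh τ - c i)⁻¹ * (sinh τ * (1.0001 / (t1 ^ 2 / 2 + 0.0877) / (2 * (1 - rb))
          * n ^ 2 * θ ^ 3)) := by ring
      _ ≤ _ := by gcongr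
  have up : ∀ θ, 0 ≤ θ → n * θ ≤ yp →
      rho n τ θ ≤ -(ν * ((n * θ) ^ 2 * (0.9999 / 2 * kap t2 (n * θ)))) := by
    intro θ a0 a1
    have := h.rho_up hn hτ hτ1 h2 a0 (a1.trans hyp)
      (hkp.trans (kap_anti t2 (by positivity) a1)) le_rfl
    rw [hν] at this
    refine this.trans (le_of_eq ?_); unfold kap; ring
  obtain ⟨τ', w1, w2, w3, w4⟩ : ∃ τ', τ ≤ τ' ∧ ta ≤ n * τ' ∧ n * τ' ≤ tb ∧
      (cosh τ' - cosh τ) * n ^ 2 ≤ 0.50001 * ta ^ 2 - t1 ^ 2 / 2 := by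
    rcases le_total ta (n * τ) with hh | hh
    · have b1 : t1 ^ 2 ≤ ta ^ 2 := by gcongr
      exact ⟨τ, le_rfl, hh, h2.trans ht2, by linarith only [b1, sq_nonneg ta]⟩
    · have e : n * (ta / n) = ta := mul_div_cancel₀ _ hn0.ne'
      refine ⟨ta / n, by rw [le_div_iff₀ hn0]; linarith, e.ge, e.le.trans htab, ?_⟩
      have a1 := cosh_small (τ := ta / n) (by positivity) (by rw [div_le_iff₀ hn0]; linarith)
      have a2 := cosh_ge' τ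
      have a3 : t1 ^ 2 ≤ (n * τ) ^ 2 := by gcongr
      have a4 : (ta / n) ^ 2 * n ^ 2 = ta ^ 2 := by field_simp
      linarith only [mul_le_mul_of_nonneg_right a1 (sq_nonneg (n : ℝ)),
        mul_le_mul_of_nonneg_right a2 (sq_nonneg (n : ℝ)), a3, a4]
  have hτ' := hτ.trans_le w1
  have fin : ∀ {θ mb m' : ℝ}, L / ta ≤ mb →
      m' ≤ (mb - L / ta) / 66.06 - (0.50001 * ta ^ 2 - t1 ^ 2 / 2) → n * mb ≤ SB n τ' θ →
      rho n τ θ ≤ -(ν * m') := by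
    intro θ mb m' a1 a2 a3
    have a4 := tailA' hEa hA hn hta w2 θ
    have a5 := h.shift hτ w1 θ
    rw [hν, rho_eq_sub n τ'] at a5
    have a6 := mul_le_mul_of_nonneg_left a2 hν0.le
    have a7 := mul_le_mul_of_nonneg_left w4 hν0.le
    have a8 := mul_le_mul_of_nonneg_right v2 (show 0 ≤ (mb - L / ta) / 66.06 by
      apply div_nonneg <;> linarith)
    have a9 : 66.06 * n * ((mb - L / ta) / 66.06) = n * mb - n * (L / ta) := by ring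
    rw [mul_sub] at a6
    linarith only [a3, a4, a5, a6, a7, a8, a9]
  classical
  refine coeff_nonneg (τ := τ) n m (ρ := rho n τ) (φ := fun θ => if 0 ≤ θ ∧ θ ≤ y0 * (1 / n) then
      ∑ i ∈ s, ((cosh τ - c i)⁻¹ * sinh τ * θ - arctan ((cosh τ - c i)⁻¹ * sinh τ * sin θ
          / (1 - (cosh τ - c i)⁻¹ * cosh τ * (1 - cos θ)))) else -ph n τ θ - m * θ)
    (fun θ => ?_) fun H hH hHe => ?_
  · split_ifs with hθ
    · exact h.polar hτ hmu fun i hi => (term θ hθ.1 hθ.2 i hi).1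
    · exact polarAB hτ n m θ
  have hc1 : 0.997 * τ ≤ 1 - exp (-τ) := by
    linarith only [exp_neg_le_quad hτ.le, mul_le_mul_of_nonneg_left hτ1 hτ.le, hτ]
  have hc2 : 1 - exp (-τ) ≤ τ := by have := add_one_le_exp (-τ); linarith
  have hl10 := hc.2.2.2.2.2.2.2.2.2.2.2.2.1
  have hg0 := hc.2.2.2.2.2.2.1
  have e1 : ∀ θ : ℝ, θ / (1 / n) = n * θ := fun θ => by field_simp
  have e2 : ∀ {θ y : ℝ}, θ ≤ y * (1 / n) → n * θ ≤ y := fun a => by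
    rw [mul_one_div, le_div_iff₀ hn0] at a; linarith
  refine core hH hc (γ := ν * n ^ 2 * (sinh τ * (G * n ^ 2))) (l := 1 / n) (ν := ν) (θ1 := yp / n)
    (θ2 := y1 / n) (θ3 := y2 / n) (exp_pos _).le (x_lt_one hτ) hHe hνs (by positivity) ?_ ?_ ?_
    (by positivity) ?_ ?_ (by rw [mul_one_div]; gcongr) (by gcongr) (by gcongr)
    (by rw [div_le_iff₀ hn0]
        linarith only [mul_le_mul_of_nonneg_right pi_gt_three.le hn0.le, hn', hy2]) (mul_one_div _ _).ge (mul_one_div _ _).ge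
    (mul_one_div _ _).ge (fun θ a0 a1 a2 => ?_) (fun θ a0 a1 => ?_) (fun θ a0 a1 => ?_)
    (fun θ a0 a1 => ?_)
    (fun θ a1 a2 => fin n2 hm2 (tailBlock b2 hτ' w3 hEb.2.2.1 hEb.lo (end_Y (by omega) hτ' w3 yp)
      (end_Y (by omega) hτ' w3 y1) (div_nonneg (by linarith) hn0.le) a1 a2))
    (fun θ a1 a2 => fin n3 hm3 (tailBlock b3 hτ' w3 hEb.2.2.1 hEb.lo (end_Y (by omega) hτ' w3 y1)
      (end_Y (by omega) hτ' w3 y2) (div_nonneg (by linarith) hn0.le) a1 a2))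
    (fun θ a1 a2 => fin n4 hm4 (tailFar' hf hn hτ' w3 (by linarith) hEb.hi a1 a2))
  · rw [div_le_iff₀ hn0]
    rcases hl1 with a | a
    · calc 1 ≤ l1 * ul * 0.0737 := a
        _ ≤ l1 * ul * (0.997 * (n ^ 2 * τ)) := by gcongr; linarith
        _ = l1 * (ul * n) * (0.997 * τ) * n := by ring
        _ ≤ _ := by gcongr
    · calc 1 ≤ l1 * s0 ^ 2 * (0.997 * t1) := a
        _ ≤ l1 * s0 ^ 2 * (0.997 * (n * τ)) := by gcongr
        _ = l1 * s0 ^ 2 * (0.997 * τ) * n := by ring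
        _ ≤ _ := by gcongr
  · have hl20 : 0 ≤ l2 := by
      by_contra hh; push Not at hh; linarith only [mul_neg_of_neg_of_pos hh hul0, hl2]
    rw [mul_one_div, le_div_iff₀ hn0]
    linarith only [mul_le_mul_of_nonneg_left v1 hl20, mul_le_mul_of_nonneg_right hl2 hn0.le]
  · rw [mul_one_div, le_div_iff₀ hn0]
    linarith only [mul_le_mul_of_nonneg_right hc2 hn0.le, h2]
  · calc ν * n ^ 2 * (sinh τ * (G * n ^ 2)) * (1 / n) ^ 4 = ν * G * sinh τ := by field_simp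
      _ ≤ ν * G * (1.0001 * τ) := by gcongr
      _ = 1.0001 * G * ν * τ := by ring
      _ ≤ 0.997 * g * ν * τ := by gcongr
      _ = g * ν * (0.997 * τ) := by ring
      _ ≤ _ := by gcongr
  · calc ν * n ^ 2 * (sinh τ * (G * n ^ 2)) * (1 / n) ^ 3 = ν * G * n * sinh τ := by field_simp
      _ ≤ ν * G * n * (1.0001 * τ) := by gcongr
      _ = 1.0001 * (n * τ) * G * ν := by ring
      _ ≤ 1.0001 * t2 * G * ν := by gcongr
      _ ≤ _ := by gcongr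
  · exact h.rho_low hτ hτ1 (by rw [hν, e1]; apply le_of_eq; ring) a2
  · have a2 := e2 a1
    refine (up θ a0 (a2.trans hy0p)).trans (neg_le_neg ?_)
    have := kap_anti t2 (by positivity) a2
    have a3 : k / 2 ≤ 0.9999 / 2 * kap t2 (n * θ) := by linarith
    rw [e1]
    calc _ = ν * ((n * θ) ^ 2 * (k / 2)) := by ring
      _ ≤ _ := by gcongr
  · simp only [if_pos (And.intro a0 a1)]
    refine (abs_sum_le_sum_abs _ _).trans ((sum_le_sum fun i hi => (term θ a0 a1 i hi).2).trans ?_)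
    rw [← sum_mul, hν]; apply le_of_eq; ring
  · have a2 : y0 ≤ n * θ := by rw [mul_one_div, div_le_iff₀ hn0] at a0; linarith
    have a3 : n * θ ≤ yp := by rw [le_div_iff₀ hn0] at a1; linarith
    have a4 : 0 ≤ θ := le_trans (by positivity) a0
    refine (up θ a4 a3).trans (neg_le_neg (mul_le_mul_of_nonneg_left ?_ hν0.le))
    have e : ∀ y : ℝ, y ^ 2 * (0.9999 / 2 * kap t2 y) = y ^ 2 * (0.9999 / 2 * kap t2 0
      - 0.9999 / 2 * (1 / 4 / (0.50001 * t2 ^ 2 + 0.0877)) * y ^ 2) := fun y => by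
      rw [kap_eq t2 y]; ring
    rw [e] at hm1 hm1' ⊢
    exact concave_quad (by positivity) (by gcongr) (by gcongr) hm1 hm1'

end Pool.Agent.Lib.MP_e3fe77_co
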