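import Pool.Agent.Lib.MP_e3fe77_co.RegAB

/-! The ranges `t1 ≤ n τ ≤ t2` of moderate size, and the range of large `n τ`. -/

namespace Pool.Agent.Lib.MP_e3fe77_co
open Real Finset

lemma exp_small {τ : ℝ} (h0 : 0 ≤ τ) (h1 : τ ≤ 0.026) : exp τ ≤ 1 + 1.014 * τ := by
  refine (exp_le_two_add_div_two_sub h0 (by linarith)).trans ?_
  rw [div_le_iff₀ (by linarith)]; nlinarith

/-- two-sided bounds for `exp (-t)` -/
def EOK (t El Eu : ℝ) : Prop := 0 ≤ t ∧ t ≤ 8 ∧ 0 ≤ El ∧ El * eU t ≤ 1 ∧ 1 ≤ Eu * eL t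

lemma EOK.lo {t El Eu : ℝ} (h : EOK t El Eu) : El ≤ exp (-t) :=
  le_exp_neg_of h.1 h.2.1 h.2.2.1 h.2.2.2.1
lemma EOK.hi {t El Eu : ℝ} (h : EOK t El Eu) : exp (-t) ≤ Eu := exp_neg_le_of h.1 h.2.2.2.2

/-- numerical conditions for the estimate of the numerator -/
def AOK (El Eu L : ℝ) : Prop := Eu ^ 20 < 1 ∧ 2 * (Eu ^ 10 - El ^ 15) ≤ L * (1 - Eu ^ 20)

/-- numerical conditions for the far range -/
def FarOK (t E y b q m : ℝ) : Prop := 0 ≤ y ∧ b ^ 2 ≤ y ^ 2 * (1 - (y / 64) ^ 2 / 12) ∧ 0 < q ∧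
  q ^ 2 ≤ t ^ 2 + b ^ 2 ∧
  m ≤ b ^ 2 / (1.014 * t * ((1.014 * t) ^ 2 + b ^ 2)) - E ^ 4 / t - E ^ 4 / q

lemma tailFar' {n : ℕ} {τ θ t E y b q m : ℝ} (ok : FarOK t E y b q m) (hn : 64 ≤ n) (hτ : 0 < τ)
    (ht : n * τ ≤ t) (ht2 : t ≤ 1.65) (hE : exp (-t) ≤ E) (h1 : y / n ≤ θ) (h2 : θ ≤ π) :
    n * m ≤ SB n τ θ := by
  obtain ⟨hy, hb, hq, hq2, hm⟩ := ok
  have hn' : (64 : ℝ) ≤ n := by exact_mod_cast hn
  have hn0 : (0 : ℝ) < n := by linarith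
  have ht0 : 0 < t := lt_of_lt_of_le (by positivity) ht
  refine le_trans ?_ (tailFar (τb := t / n) (β := b / n) (q := q / n) (e := 1.014 * t / n) (E := E)
    hτ (by rw [le_div_iff₀ hn0]; linarith) (by positivity) h1 h2 ?_ (by positivity) ?_ ?_ ?_)
  · refine (mul_le_mul_of_nonneg_left hm hn0.le).trans (le_of_eq ?_)
    field_simp
  · have : (y / n) ^ 2 ≤ (y / 64) ^ 2 := by gcongr
    rw [div_pow, div_pow y, div_mul_eq_mul_div]
    gcongr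
    refine hb.trans ?_
    rw [← div_pow]; gcongr
  · rw [div_pow, div_pow, div_pow, ← add_div]; gcongr
  · have := exp_small (τ := t / n) (by positivity) (by rw [div_le_iff₀ hn0]; linarith)
    rw [mul_div_assoc]; linarith
  · rwa [mul_div_cancel₀ _ hn0.ne']

lemma tailA' {n : ℕ} {τ t El Eu L : ℝ} (hE : EOK t El Eu) (ok : AOK El Eu L) (hn : 64 ≤ n)
    (ht0 : 0 < t) (ht : t ≤ n * τ) (θ : ℝ) : SA n τ θ ≤ n * (L / t) := by
  have hn' : (64 : ℝ) ≤ n := by exact_mod_cast hn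
  have hn0 : (0 : ℝ) < n := by linarith
  have e : n * (t / n) = t := mul_div_cancel₀ _ hn0.ne'
  refine (tailA (τa := t / n) (by positivity) (by rw [div_le_iff₀ hn0]; linarith)
    (by rw [e]; exact hE.hi) hE.2.2.1 (by rw [e]; exact hE.lo) ok.1 ok.2 θ).trans (le_of_eq ?_)
  field_simp

/-- antiderivative polynomial for the lower bound of `c2` -/
noncomputable def Rl : ℝ → ℝ := pol (17 / 6) (11 / 6) (5 / 12) 0 0 0 0
/-- antiderivative polynomial for the upper bound of `c2` -/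
noncomputable def R2 : ℝ → ℝ := pol (7 / 2) (5 / 2) (3 / 4) (1 / 9) (1 / 144) 0 0

lemma c2_ge {a b : ℝ} (ha : 0 < a) (hab : a ≤ b) :
    pol 1 1 (5 / 12) 0 0 0 0 b * exp (-b) ≤ c2 a := by
  refine le_trans (le_of_eq ?_) ((flo_anti ha.le hab).trans (chi_ge ha))
  unfold pol; ring

lemma c2_le {a b : ℝ} (ha : 0 < a) (hab : a ≤ b) :
    c2 b ≤ pol 1 1 (5 / 12) (1 / 12) (1 / 144) 0 0 a * exp (-a) := by
  refine ((chi_le (ha.trans_le hab)).trans (fhi_anti ha.le hab)).trans (le_of_eq ?_)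
  unfold pol; ring

/-- numerical conditions for a range `t1 ≤ n τ ≤ t2` -/
def OKII (t1 t2 E1l E1u E2l E2u L v y1 y2 y3 b q mf
    z11 z12 z13 z14 mb1 z21 z22 z23 z24 mb2 z31 z32 z33 z34 mb3
    l1 l2 om k sg g g2 x0 x1 x2 x3 m1 m2 m3 m4 d1 d2 d3 d4 : ℝ) : Prop :=
  0 < t1 ∧ t2 ≤ 1.65 ∧ EOK t1 E1l E1u ∧ EOK t2 E2l E2u ∧ AOK E1l E1u L ∧
  v ≤ (1 - t2 / 64) * (Rl 0 - Rl (3 * t2) * E2u ^ 3 + (Rl (2 * t2) * E2l ^ 2 - Rl (4 * t2) * E2u ^ 4)) / t2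
    - ((1 + 1.014 * (t1 / 64)) * (R2 (10 * t1) * E1u ^ 10) - R2 (15 * t1) * E1l ^ 15) / t1 ∧
  0 ≤ x0 ∧ x0 * t2 ≤ y1 ∧ y1 ≤ y2 ∧ y2 ≤ y3 ∧ y3 ≤ 192 ∧ y1 ≤ x1 * t1 ∧ y2 ≤ x2 * t1 ∧ y3 ≤ x3 * t1 ∧
  BlockOK t2 E2l (eX t2 x0) (eY t2 y1) z11 z12 z13 z14 mb1 ∧
  BlockOK t2 E2l (eY t2 y1) (eY t2 y2) z21 z22 z23 z24 mb2 ∧
  BlockOK t2 E2l (eY t2 y2) (eY t2 y3) z31 z32 z33 z34 mb3 ∧ FarOK t2 E2u y3 b q mf ∧
  m1 ≤ mb1 - L / t1 ∧ m2 ≤ mb2 - L / t1 ∧ m3 ≤ mb3 - L / t1 ∧ m4 ≤ mf - L / t1 ∧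
  1 ≤ l1 * 8 ^ 2 * 0.987 ∧ 1 ≤ l2 * t1 ∧ 10 ≤ 6 * 0.987 * g ∧ 10 ≤ 6 * g2 ∧
  k ≤ v - 31 * x0 ^ 2 / 12 ∧
  CoreOK 8 l1 l2 1 5 om k sg g g2 x0 x1 x2 x3 m1 m2 m3 m4 d1 d2 d3 d4

theorem regII {t1 t2 E1l E1u E2l E2u L v y1 y2 y3 b q mf
    z11 z12 z13 z14 mb1 z21 z22 z23 z24 mb2 z31 z32 z33 z34 mb3
    l1 l2 om k sg g g2 x0 x1 x2 x3 m1 m2 m3 m4 d1 d2 d3 d4 : ℝ}
    (ok : OKII t1 t2 E1l E1u E2l E2u L v y1 y2 y3 b q mf
      z11 z12 z13 z14 mb1 z21 z22 z23 z24 mb2 z31 z32 z33 z34 mb3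
      l1 l2 om k sg g g2 x0 x1 x2 x3 m1 m2 m3 m4 d1 d2 d3 d4)
    {n m : ℕ} {τ : ℝ} (hn : 64 ≤ n) (h1 : t1 ≤ n * τ) (h2 : n * τ ≤ t2) (hmu : mu n τ = m) :
    0 ≤ (En n).coeff m := by
  obtain ⟨ht1, ht2, hE1, hE2, hA, hv, hx0, hy1, hy12, hy23, hy3, hx1, hx2, hx3, b1, b2, b3, hf,
    hm1, hm2, hm3, hm4, hl1, hl2, hg, hg2, hk, hc⟩ := ok
  have hn' : (64 : ℝ) ≤ n := by exact_mod_cast hn
  have hn0 : (0 : ℝ) < n := by linarith
  have hτ : 0 < τ := by by_contra h; push Not at h; nlinarith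
  have ht20 : 0 < t2 := by linarith
  have hl20 : 0 ≤ l2 := by by_contra h; push Not at h; nlinarith
  have hA' := tailA' hE1 hA hn ht1 h1
  have hx : ∀ y x, 0 ≤ x → y ≤ x * t1 → y / n ≤ x * τ := fun y x h0 h => by
    rw [div_le_iff₀ hn0]; nlinarith [mul_le_mul_of_nonneg_left h1 h0]
  have hy10 : 0 ≤ y1 := le_trans (by positivity) hy1
  have fin : ∀ {θ mb m' : ℝ}, m' ≤ mb - L / t1 → n * mb ≤ SB n τ θ → rho n τ θ ≤ -(n * m') := by
    intro θ mb m' h h'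
    have := hA' θ
    have := mul_le_mul_of_nonneg_left h hn0.le
    rw [rho_eq_sub]; linarith
  refine regAB (ν := n) (v := v) (k3 := 10) (k4 := 31) (θ1 := y1 / n) (θ2 := y2 / n) (θ3 := y3 / n)
    hτ (by nlinarith) hmu hc (by linarith) hl1 (by nlinarith [mul_le_mul_of_nonneg_left h1 hl20])
    (by norm_num) (by norm_num) hg hg2 hk ?_ ?_ ?_ ?_ ?_
    (by rw [le_div_iff₀ hn0]; nlinarith [mul_le_mul_of_nonneg_left h2 hx0]) (by gcongr) (by gcongr)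
    (by rw [div_le_iff₀ hn0]; nlinarith [pi_gt_three])
    (hx _ _ hc.2.2.2.2.2.2.2.2.1 hx1) (hx _ _ hc.2.2.2.2.2.2.2.2.2.1 hx2)
    (hx _ _ hc.2.2.2.2.2.2.2.2.2.2.1 hx3)
    (fun θ a1 a2 => fin hm1 (tailBlock b1 hτ h2 hE2.2.2.1 hE2.lo (end_X hτ h2 hx0)
      (end_Y (by omega) hτ h2 y1) (by positivity) a1 a2))
    (fun θ a1 a2 => fin hm2 (tailBlock b2 hτ h2 hE2.2.2.1 hE2.lo (end_Y (by omega) hτ h2 y1)
      (end_Y (by omega) hτ h2 y2) (by positivity) a1 a2))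
    (fun θ a1 a2 => fin hm3 (tailBlock b3 hτ h2 hE2.2.2.1 hE2.lo (end_Y (by omega) hτ h2 y2)
      (end_Y (by omega) hτ h2 y3) (div_nonneg (by linarith) hn0.le) a1 a2))
    (fun θ a1 a2 => fin hm4 (tailFar' hf hn hτ h2 ht2 hE2.hi a1 a2))
  · refine (sB_le (g := fun _ => 1) fun b hb => chi_le_one (npos hτ hb)).trans ?_
    rw [sB_const]; linarith
  · have e1 : n * (t1 / n) = t1 := mul_div_cancel₀ _ hn0.ne'
    have e2 : n * (t2 / n) = t2 := mul_div_cancel₀ _ hn0.ne'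
    have k1 : ∀ k : ℕ, ((k * n : ℕ) : ℝ) * (t1 / n) = k * t1 := fun k => by push_cast; field_simp
    have k2 : ∀ k : ℕ, ((k * n : ℕ) : ℝ) * (t2 / n) = k * t2 := fun k => by push_cast; field_simp
    have hτ1 : t1 / n ≤ τ := by rw [div_le_iff₀ hn0]; linarith
    have hτ2 : τ ≤ t2 / n := by rw [le_div_iff₀ hn0]; linarith
    have a1 := sB_le (n := n) (g := fun b => c2 (b * τ)) fun b hb =>
      c2_ge (b := b * (t2 / n)) (npos hτ hb) (by gcongr)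
    have a2 := sA_le (n := n) (f := fun b => c2 (b * τ)) fun b hb =>
      c2_le (a := b * (t1 / n)) (npos (by positivity) (by omega)) (by gcongr)
    have a3 := PRlo.lower (τ := t2 / n) (by positivity) (show 0 ≤ 3 * n by omega)
    have a4 := PRlo.lower (τ := t2 / n) (by positivity) (show 2 * n ≤ 4 * n by omega)
    have a5 := PR2.upper (τ := t1 / n) (by positivity) (show 10 * n ≤ 15 * n by omega)
    have u3 := exp_mul_le (n := n) (k := 3) (τ := t2 / n) (E := E2u) (by rw [e2]; exact hE2.hi)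
    have u4 := exp_mul_le (n := n) (k := 4) (τ := t2 / n) (E := E2u) (by rw [e2]; exact hE2.hi)
    have u2 := le_exp_mul (n := n) (k := 2) (τ := t2 / n) hE2.2.2.1 (by rw [e2]; exact hE2.lo)
    have u10 := exp_mul_le (n := n) (k := 10) (τ := t1 / n) (E := E1u) (by rw [e1]; exact hE1.hi)
    have u15 := le_exp_mul (n := n) (k := 15) (τ := t1 / n) hE1.2.2.1 (by rw [e1]; exact hE1.lo)
    have w1 := PRlo.anti (a := (0 : ℕ) * (t2 / n)) (b := (3 * n : ℕ) * (t2 / n)) (by positivity)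
      (by gcongr; omega)
    have w2 := PRlo.anti (a := (2 * n : ℕ) * (t2 / n)) (b := (4 * n : ℕ) * (t2 / n)) (by positivity)
      (by gcongr; omega)
    rw [k1, k1] at a5; rw [k2] at a3 w1; rw [k2, k2] at a4 w2; rw [k2] at u2 u3 u4
    rw [k1] at u10 u15
    rw [← Rl] at a3 a4 w1 w2; rw [← R2] at a5
    have r3 : 0 ≤ Rl (3 * t2) := PRlo.2.2.2.2 _ (by positivity)
    have r2 : 0 ≤ Rl (2 * t2) := PRlo.2.2.2.2 _ (by positivity)
    have r4 : 0 ≤ Rl (4 * t2) := PRlo.2.2.2.2 _ (by positivity)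
    have r10 : 0 ≤ R2 (10 * t1) := PR2.2.2.2.2 _ (by positivity)
    have r15 : 0 ≤ R2 (15 * t1) := PR2.2.2.2.2 _ (by positivity)
    have x1 : 1 - t2 / 64 ≤ exp (-(t2 / n)) := by
      have := add_one_le_exp (-(t2 / n))
      have : t2 / n ≤ t2 / 64 := by gcongr
      linarith
    have x2 : exp (t1 / n) ≤ 1 + 1.014 * (t1 / 64) := by
      have := exp_small (τ := t1 / n) (by positivity) (by rw [div_le_iff₀ hn0]; linarith)
      have : t1 / n ≤ t1 / 64 := by gcongr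
      linarith
    push_cast at a3 a4 a5 w1 w2 u2 u3 u4 u10 u15
    simp only [zero_mul, neg_zero, exp_zero, mul_one] at a3 w1
    have p1 : (1 - t2 / 64) * (Rl 0 - Rl (3 * t2) * E2u ^ 3
        + (Rl (2 * t2) * E2l ^ 2 - Rl (4 * t2) * E2u ^ 4)) ≤ t2 / n * sB n (fun b => c2 (b * τ)) := by
      calc _ ≤ (1 - t2 / 64) * (Rl 0 - Rl (3 * t2) * exp (-(3 * t2))
            + (Rl (2 * t2) * exp (-(2 * t2)) - Rl (4 * t2) * exp (-(4 * t2)))) := by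
            gcongr; linarith
        _ ≤ exp (-(t2 / n)) * (Rl 0 - Rl (3 * t2) * exp (-(3 * t2))
            + (Rl (2 * t2) * exp (-(2 * t2)) - Rl (4 * t2) * exp (-(4 * t2)))) := by
            gcongr
        _ ≤ _ := by
            refine le_trans ?_ (mul_le_mul_of_nonneg_left a1 (by positivity))
            rw [sB, mul_add, mul_add]; exact add_le_add a3 a4
    have p2 : t1 / n * sA n (fun b => c2 (b * τ)) ≤ (1 + 1.014 * (t1 / 64))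
        * (R2 (10 * t1) * E1u ^ 10) - R2 (15 * t1) * E1l ^ 15 := by
      refine (mul_le_mul_of_nonneg_left a2 (by positivity)).trans (a5.trans ?_)
      gcongr
    rw [div_mul_eq_mul_div, le_div_iff₀ hn0, ← div_le_iff₀' ht20, mul_div_right_comm] at p1
    rw [div_mul_eq_mul_div, div_le_iff₀ hn0, ← le_div_iff₀' ht1, mul_div_right_comm] at p2
    have := mul_le_mul_of_nonneg_right hv hn0.le
    linarith
  · refine (sA_le (g := fun _ => 2) fun b hb => F3a (npos hτ (by omega))).trans ?_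
    rw [sA_const]; linarith
  · refine (sB_le (g := fun _ => 2) fun b hb => F3a (npos hτ hb)).trans ?_
    rw [sB_const]; linarith
  · refine (sB_le (g := fun _ => 31 / 5) fun b hb => F4a (npos hτ hb)).trans ?_
    rw [sB_const]; linarith

end Pool.Agent.Lib.MP_e3fe77_co
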