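import Pool.Agent.Lib.MP_e3fe77_co.RegII

/-! Radii very close to one: estimates through the roots on the unit circle. -/

namespace Pool.Agent.Lib.MP_e3fe77_co
open Real Finset

/-- the function `(u/2) coth (u/2) - 1` -/
noncomputable def hh (u : ℝ) : ℝ := u * (1 + p1 u) - 1 - u / 2

lemma tau_mu (n : ℕ) (τ : ℝ) : τ * mu n τ
    = 26 * n ^ 2 * τ - (sA n (fun b => hh (b * τ)) - sB n (fun b => hh (b * τ))) := by
  have e : ∀ b : ℕ, hh (b * τ) = (b * p1 (b * τ) * τ + b * (τ / 2)) * 1 + 1 * (-1) := by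
    intro b; unfold hh; ring
  have e6 : mu n τ = -(sA n (fun b => b * p1 (b * τ)) - sB n (fun b => b * p1 (b * τ))) := rfl
  simp only [e]
  rw [sA_lin, sB_lin, sA_lin, sB_lin, sA_const, sB_const, e6]
  have a1 : sA n (fun b => (b : ℝ)) = _ := sum_one' (by omega)
  have a2 : sB n (fun b => (b : ℝ)) = _ := congrArg₂ (· + ·) (sum_one' (by omega)) (sum_one' (by omega))
  rw [a1, a2]; push_cast; ring

lemma hh_bounds {n : ℕ} (hn : 64 ≤ n) {τ : ℝ} (hτ : 0 < τ) :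
    τ ^ 2 * n ^ 3 * (63.65 - 183.61 * (n * τ) ^ 2)
      ≤ sA n (fun b => hh (b * τ)) - sB n (fun b => hh (b * τ)) ∧
    sA n (fun b => hh (b * τ)) - sB n (fun b => hh (b * τ)) ≤ τ ^ 2 * n ^ 3 * 66.06 := by
  have hn' : (64 : ℝ) ≤ n := by exact_mod_cast hn
  have a1 : sA n (fun b => (b : ℝ) ^ 2) = _ := sum_sq' (by omega)
  have a2 : sB n (fun b => (b : ℝ) ^ 2) = _ := congrArg₂ (· + ·) (sum_sq' (by omega)) (sum_sq' (by omega))
  have a3 : sA n (fun b => (b : ℝ) ^ 4) = _ := sum_four' (by omega)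
  push_cast at a1 a2 a3
  have b1 : sA n (fun b => hh (b * τ)) ≤ sA n (fun b => b ^ 2 * (τ ^ 2 / 12) + b ^ 2 * 0) :=
    sA_le fun b hb => by have := k_le (npos hτ (show 0 < b by omega)); unfold hh; linarith
  have b2 : sB n (fun b => hh (b * τ)) ≤ sB n (fun b => b ^ 2 * (τ ^ 2 / 12) + b ^ 2 * 0) :=
    sB_le fun b hb => by have := k_le (npos hτ hb); unfold hh; linarith
  have b3 : sA n (fun b => b ^ 2 * (τ ^ 2 / 12) + b ^ 4 * (-(τ ^ 4 / 720)))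
      ≤ sA n (fun b => hh (b * τ)) :=
    sA_le fun b hb => by have := le_k (npos hτ (show 0 < b by omega)); unfold hh; linarith
  have b4 : sB n (fun _ => 0) ≤ sB n (fun b => hh (b * τ)) :=
    sB_le fun b hb => by have := le_k' (npos hτ hb); unfold hh; linarith
  rw [sA_lin] at b1 b3; rw [sB_lin] at b2; rw [sB_const] at b4
  generalize (n : ℝ) = x at *
  have x1 : 64 * x ≤ x ^ 2 := by nlinarith
  have x2 : 64 * x ^ 2 ≤ x ^ 3 := by nlinarith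
  have x3 : 64 * x ^ 3 ≤ x ^ 4 := by nlinarith
  have x4 : 64 * x ^ 4 ≤ x ^ 5 := by nlinarith
  have c1 : 791.66 * x ^ 3 ≤ sA n (fun b => (b : ℝ) ^ 2) := by rw [a1]; nlinarith
  have c2 : sA n (fun b => (b : ℝ) ^ 2) ≤ 792.65 * x ^ 3 := by rw [a1]; nlinarith
  have c3 : sB n (fun b => (b : ℝ) ^ 2) ≤ 27.84 * x ^ 3 := by rw [a2]; nlinarith
  have c4 : sA n (fun b => (b : ℝ) ^ 4) ≤ 132195 * x ^ 5 := by rw [a3]; nlinarith
  have t2 : 0 ≤ τ ^ 2 / 12 := by positivity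
  have t4 : 0 ≤ τ ^ 4 / 720 := by positivity
  have d1 := mul_le_mul_of_nonneg_right c1 t2
  have d2 := mul_le_mul_of_nonneg_right c2 t2
  have d3 := mul_le_mul_of_nonneg_right c3 t2
  have d4 := mul_le_mul_of_nonneg_right c4 t4
  have d5 : 0 ≤ x ^ 3 * τ ^ 2 := by positivity
  have d6 : 0 ≤ x ^ 5 * τ ^ 4 := by positivity
  constructor <;> nlinarith

lemma mu_ge {n : ℕ} (hn : 64 ≤ n) {τ : ℝ} (hτ : 0 < τ) : 26 * n ^ 2 - τ * n ^ 3 * 66.06 ≤ mu n τ := by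
  have := (hh_bounds hn hτ).2
  have h := tau_mu n τ
  apply le_of_mul_le_mul_left _ hτ
  nlinarith

lemma cosh_small {τ : ℝ} (h0 : 0 ≤ τ) (h1 : τ ≤ 0.005) : cosh τ ≤ 1 + 0.50001 * τ ^ 2 := by
  have h2 : τ ^ 2 ≤ 0.000025 := by nlinarith
  refine (cosh_le_exp_half_sq τ).trans
    ((exp_le_two_add_div_two_sub (by positivity) (by linarith)).trans ?_)
  rw [div_le_iff₀ (by linarith)]; nlinarith [sq_nonneg τ]

lemma cosh_ge' (τ : ℝ) : 1 + τ ^ 2 / 2 ≤ cosh τ := by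
  have := cosh_ge (u := τ)
  have : 0 ≤ τ ^ 4 := by positivity
  have : 0 ≤ τ ^ 6 := by positivity
  linarith

lemma sinh_small {τ : ℝ} (h0 : 0 ≤ τ) (h1 : τ ≤ 0.005) : sinh τ ≤ 1.0001 * τ := by
  have h2 : τ ^ 2 ≤ 0.000025 := by nlinarith
  have h3 := cosh_small h0 h1
  have h4 := cosh_sq τ
  have h5 := cosh_pos τ
  refine le_of_sq_le_sq ?_ (by positivity)
  have : cosh τ ^ 2 ≤ (1 + 0.50001 * τ ^ 2) ^ 2 := by gcongr
  nlinarith [sq_nonneg τ]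

variable {n : ℕ} {ι : Type} {s : Finset ι} {c : ι → ℝ}

lemma Roots.U_bounds (h : Roots n s c) (hn : 64 ≤ n) {τ t : ℝ} (hτ : 0 < τ) (hτ1 : τ ≤ 0.005)
    (ht : n * τ ≤ t) : (63.65 - 183.61 * t ^ 2) / 1.0001 * n ^ 3 ≤ ∑ i ∈ s, (cosh τ - c i)⁻¹ ∧
      ∑ i ∈ s, (cosh τ - c i)⁻¹ ≤ 66.06 * n ^ 3 := by
  obtain ⟨h1, h2⟩ := hh_bounds hn hτ
  have h3 := tau_mu n τ
  rw [h.mu_eq hτ] at h3
  have h4 : 0 ≤ ∑ i ∈ s, (cosh τ - c i)⁻¹ := sum_nonneg fun i hi => (inv_pos.2 (h.pos hτ hi)).le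
  generalize ∑ i ∈ s, (cosh τ - c i)⁻¹ = U at *
  have h5 := sinh_small hτ.le hτ1
  have h6 : τ ≤ sinh τ := self_le_sinh_iff.2 hτ.le
  have h7 : (n * τ) ^ 2 ≤ t ^ 2 := by gcongr
  have h8 := mul_le_mul_of_nonneg_left h7 (show 0 ≤ τ ^ 2 * (n : ℝ) ^ 3 by positivity)
  have h9 := mul_le_mul_of_nonneg_right h5 (mul_nonneg hτ.le h4)
  have h10 := mul_le_mul_of_nonneg_right h6 (mul_nonneg hτ.le h4)
  constructor
  · rw [div_mul_eq_mul_div, div_le_iff₀ (by norm_num)]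
    apply le_of_mul_le_mul_left _ (pow_pos hτ 2)
    nlinarith
  · apply le_of_mul_le_mul_left _ (pow_pos hτ 2)
    nlinarith

lemma Roots.gap (h : Roots n s c) (hn : 64 ≤ n) {i : ι} (hi : i ∈ s) :
    0.0877 ≤ (n : ℝ) ^ 2 * (1 - c i) := by
  have hn' : (64 : ℝ) ≤ n := by exact_mod_cast hn
  have hn0 : (0 : ℝ) < n := by linarith
  have h1 := (h.bd i hi).2
  have p1 := pi_gt_d4
  have p2 := pi_lt_d2
  obtain ⟨a, ha⟩ : ∃ a, a = 2 * π / ((15 * n : ℕ) : ℝ) := ⟨_, rfl⟩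
  rw [← ha] at h1
  have e : n * a = 2 * π / 15 := by rw [ha]; push_cast; field_simp
  have a0 : 0 ≤ a := by rw [ha]; positivity
  have a1 : a ≤ 0.01 := by nlinarith
  have h2 := cos_le_quartic a0
  have a2 : a ^ 2 ≤ 0.0001 := by nlinarith
  have a3 : 0.99999 * a ^ 2 / 2 ≤ 1 - c i := by nlinarith [sq_nonneg a]
  have a4 : 0.17544 ≤ (n * a) ^ 2 := by rw [e]; nlinarith
  nlinarith [mul_le_mul_of_nonneg_left a3 (sq_nonneg (n : ℝ))]

lemma Roots.u_le (h : Roots n s c) (hn : 64 ≤ n) {τ t : ℝ} (ht0 : 0 ≤ t) (ht : t ≤ n * τ) {i : ι}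
    (hi : i ∈ s) : (cosh τ - c i)⁻¹ ≤ n ^ 2 / (t ^ 2 / 2 + 0.0877) := by
  have h1 := h.gap hn hi
  have h2 := cosh_ge' τ
  have hn0 : (0 : ℝ) < n := by have : (64 : ℝ) ≤ n := by exact_mod_cast hn
                               linarith
  have h3 : t ^ 2 ≤ (n * τ) ^ 2 := by gcongr
  have h4 : t ^ 2 / 2 + 0.0877 ≤ n ^ 2 * (cosh τ - c i) := by
    nlinarith [mul_le_mul_of_nonneg_left h2 (sq_nonneg (n : ℝ))]
  have h5 : 0 < cosh τ - c i := by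
    by_contra hc; push Not at hc; nlinarith [sq_nonneg (n : ℝ), sq_nonneg t]
  rw [le_div_iff₀ (by positivity), inv_mul_le_iff₀ h5]; linarith

lemma Roots.u_mul (h : Roots n s c) (hn : 64 ≤ n) {τ t Y : ℝ} (hτ : 0 < τ) (hτ1 : τ ≤ 0.005)
    (ht : n * τ ≤ t) (hY0 : 0 ≤ Y) (hY : Y ≤ 0.64) {i : ι} (hi : i ∈ s) :
    (cosh τ - c i)⁻¹ * (sinh τ ^ 2 + Y / n ^ 2 / 4)
      ≤ (2.001 * (0.50001 * t ^ 2) + Y / 4) / (0.50001 * t ^ 2 + 0.0877) := by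
  have h1 := h.gap hn hi
  have h2 := cosh_ge' τ
  have h3 := cosh_small hτ.le hτ1
  have h4 := cosh_sq τ
  have h5 := h.pos hτ hi
  have hn0 : (0 : ℝ) < n := by have : (64 : ℝ) ≤ n := by exact_mod_cast hn
                               linarith
  have h6 : (n * τ) ^ 2 ≤ t ^ 2 := by gcongr
  obtain ⟨D, hD⟩ : ∃ D, D = (n : ℝ) ^ 2 * (cosh τ - 1) := ⟨_, rfl⟩
  have hD0 : 0 ≤ D := by rw [hD]; nlinarith [sq_nonneg τ, sq_nonneg (n : ℝ)]
  have hD2 : D ≤ 0.50001 * t ^ 2 := by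
    rw [hD]; nlinarith [mul_le_mul_of_nonneg_left h3 (sq_nonneg (n : ℝ))]
  have h7 : sinh τ ^ 2 ≤ 2.001 * (cosh τ - 1) := by
    have : cosh τ ≤ 1.001 := by nlinarith
    nlinarith [mul_nonneg (sub_nonneg.2 (one_le_cosh τ)) (sub_nonneg.2 this)]
  have h8 : (n : ℝ) ^ 2 * (sinh τ ^ 2 + Y / n ^ 2 / 4) ≤ 2.001 * D + Y / 4 := by
    have : (n : ℝ) ^ 2 * (Y / n ^ 2 / 4) = Y / 4 := by field_simp
    rw [hD]; nlinarith [mul_le_mul_of_nonneg_left h7 (sq_nonneg (n : ℝ))]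
  calc (cosh τ - c i)⁻¹ * (sinh τ ^ 2 + Y / n ^ 2 / 4)
      = n ^ 2 * (sinh τ ^ 2 + Y / n ^ 2 / 4) / (n ^ 2 * (cosh τ - c i)) := by field_simp
    _ ≤ (2.001 * D + Y / 4) / (D + 0.0877) := by gcongr; rw [hD]; linarith
    _ ≤ _ := by
      generalize 0.50001 * t ^ 2 = D2 at *
      rw [div_le_div_iff₀ (by positivity) (by linarith)]
      nlinarith [mul_nonneg (sub_nonneg.2 hD2) (sub_nonneg.2 hY)]

lemma Roots.rho_up (h : Roots n s c) (hn : 64 ≤ n) {τ t θ κ : ℝ} (hτ : 0 < τ) (hτ1 : τ ≤ 0.005)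
    (ht : n * τ ≤ t) (h0 : 0 ≤ θ) (hθ : n * θ ≤ 0.8) (hκ0 : 0 ≤ κ)
    (hκ : κ ≤ 1 - (2.001 * (0.50001 * t ^ 2) + (n * θ) ^ 2 / 4) / (0.50001 * t ^ 2 + 0.0877)) :
    rho n τ θ ≤ -((∑ i ∈ s, (cosh τ - c i)⁻¹) * (0.9999 * θ ^ 2 / 2 * κ)) := by
  have hn' : (64 : ℝ) ≤ n := by exact_mod_cast hn
  have a0 := s_nonneg θ
  have a1 := s_le_sq θ
  have a2 : 0.9999 * θ ^ 2 / 2 ≤ 1 - cos θ := by
    have := cos_le_quartic h0
    have h1 : θ ≤ 0.0125 := by nlinarith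
    have h2 : θ ^ 2 ≤ 0.0002 := by nlinarith
    nlinarith [sq_nonneg θ]
  have a3 : exp (2 * rho n τ θ)
      ≤ exp (∑ i ∈ s, -(2 * ((cosh τ - c i)⁻¹ * (0.9999 * θ ^ 2 / 2 * κ)))) := by
    rw [h.rho_eq hτ, exp_sum]
    refine prod_le_prod (fun i _ => by positivity) fun i hi => le_trans ?_ (add_one_le_exp _)
    have b1 := h.u_mul hn hτ hτ1 ht (Y := (n * θ) ^ 2) (by positivity)
      (by nlinarith [mul_nonneg (Nat.cast_nonneg (α := ℝ) n) h0]) hi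
    have b2 : ((n : ℝ) * θ) ^ 2 / n ^ 2 / 4 = θ ^ 2 / 4 := by field_simp
    rw [b2] at b1
    have hu := (inv_pos.2 (h.pos hτ hi)).le
    generalize (cosh τ - c i)⁻¹ = u at *
    have b3 := cosh_sq τ
    have b4 := sin_sq θ
    have b5 := one_le_cosh τ
    have e : (1 - u * cosh τ * (1 - cos θ)) ^ 2 + (u * sinh τ * sin θ) ^ 2
        = 1 - 2 * (u * ((1 - cos θ) * (cosh τ - u * (sinh τ ^ 2 + (1 - cos θ) / 2)))) := by
      linear_combination (u ^ 2 * (1 - cos θ) ^ 2) * b3 + (u ^ 2 * sinh τ ^ 2) * b4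
    have b6 : κ ≤ cosh τ - u * (sinh τ ^ 2 + (1 - cos θ) / 2) := by
      nlinarith [mul_le_mul_of_nonneg_left a1 hu]
    have b7 : 0.9999 * θ ^ 2 / 2 * κ
      ≤ (1 - cos θ) * (cosh τ - u * (sinh τ ^ 2 + (1 - cos θ) / 2)) := by gcongr
    rw [e]; nlinarith [mul_le_mul_of_nonneg_left b7 hu]
  rw [exp_le_exp, sum_neg_distrib, ← mul_sum, ← sum_mul] at a3
  linarith

lemma one_sub_sum_le {a : ι → ℝ} (s : Finset ι) (h0 : ∀ i ∈ s, 0 ≤ a i) (h1 : ∑ i ∈ s, a i ≤ 1) :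
    1 - ∑ i ∈ s, a i ≤ ∏ i ∈ s, (1 - a i) := by
  classical
  induction s using Finset.induction_on with
  | empty => simp
  | insert j s hj ih =>
    rw [sum_insert hj] at h1 ⊢; rw [prod_insert hj]
    have a1 := h0 j (mem_insert_self _ _)
    have a2 : 0 ≤ ∑ i ∈ s, a i := sum_nonneg fun i hi => h0 i (mem_insert_of_mem hi)
    have := ih (fun i hi => h0 i (mem_insert_of_mem hi)) (by linarith)
    nlinarith [mul_le_mul_of_nonneg_left this (show 0 ≤ 1 - a j by linarith), mul_nonneg a1 a2]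

lemma Roots.rho_low (h : Roots n s c) {τ θ W : ℝ} (hτ : 0 < τ) (hτ1 : τ ≤ 0.005)
    (hW : 1.001 * (∑ i ∈ s, (cosh τ - c i)⁻¹) * θ ^ 2 ≤ W) (hW2 : W ≤ 2) :
    1 - W / 2 ≤ exp (rho n τ θ) := by
  have a0 := s_nonneg θ
  have a1 := s_le_sq θ
  have a2 : cosh τ ≤ 1.001 := by have := cosh_small hτ.le hτ1; nlinarith
  have a3 := cosh_pos τ
  have hu : ∀ i ∈ s, 0 ≤ (cosh τ - c i)⁻¹ := fun i hi => (inv_pos.2 (h.pos hτ hi)).le
  have a4 : ∑ i ∈ s, (cosh τ - c i)⁻¹ * cosh τ * (1 - cos θ) ≤ W / 2 := by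
    rw [← sum_mul, ← sum_mul]
    have := sum_nonneg hu
    calc _ ≤ (∑ i ∈ s, (cosh τ - c i)⁻¹) * 1.001 * (θ ^ 2 / 2) := by gcongr
      _ ≤ _ := by linarith
  have a5 := one_sub_sum_le s (fun i hi => mul_nonneg (mul_nonneg (hu i hi) a3.le) a0)
    (a4.trans (by linarith))
  refine le_trans (by linarith) (a5.trans (le_of_sq_le_sq ?_ (exp_pos _).le))
  rw [← exp_nat_mul, Nat.cast_ofNat, h.rho_eq hτ, ← prod_pow]
  exact prod_le_prod (fun i _ => sq_nonneg _) fun i _ => le_add_of_nonneg_right (sq_nonneg _)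

lemma Roots.shift (h : Roots n s c) {τ τ' : ℝ} (hτ : 0 < τ) (hle : τ ≤ τ') (θ : ℝ) :
    rho n τ θ ≤ rho n τ' θ + (cosh τ' - cosh τ) * ∑ i ∈ s, (cosh τ - c i)⁻¹ := by
  have hτ' := hτ.trans_le hle
  have a1 : cosh τ ≤ cosh τ' := cosh_le_cosh.2 (by rw [abs_of_pos hτ, abs_of_pos hτ']; exact hle)
  have a3 : exp (2 * rho n τ θ)
      ≤ exp (2 * rho n τ' θ + ∑ i ∈ s, 2 * ((cosh τ' - cosh τ) * (cosh τ - c i)⁻¹)) := by
    rw [exp_add, h.rho_eq hτ, h.rho_eq hτ', exp_sum, ← prod_mul_distrib]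
    refine prod_le_prod (fun i _ => by positivity) fun i hi => ?_
    have p := h.pos hτ hi
    have p' := h.pos hτ' hi
    have e : ∀ t, 0 < cosh t - c i → (1 - (cosh t - c i)⁻¹ * cosh t * (1 - cos θ)) ^ 2
        + ((cosh t - c i)⁻¹ * sinh t * sin θ) ^ 2
        = (cosh t ^ 2 - 2 * c i * cos θ * cosh t + c i ^ 2 - sin θ ^ 2) / (cosh t - c i) ^ 2 := by
      intro t ht
      have b3 := cosh_sq t
      have b4 := sin_sq θ
      field_simp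
      linear_combination (-sin θ ^ 2) * b3 + (cosh t ^ 2) * b4
    have q0 := e τ p
    have q1 : 0 ≤ cosh τ ^ 2 - 2 * c i * cos θ * cosh τ + c i ^ 2 - sin θ ^ 2 := by
      have : 0 ≤ (cosh τ ^ 2 - 2 * c i * cos θ * cosh τ + c i ^ 2 - sin θ ^ 2)
        / (cosh τ - c i) ^ 2 := by rw [← q0]; positivity
      rwa [le_div_iff₀ (by positivity), zero_mul] at this
    rw [q0, e τ' p']
    have b1 : c i * cos θ ≤ 1 := by
      have := h.bd i hi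
      have := this.2.trans (cos_le_one _)
      nlinarith [neg_one_le_cos θ, cos_le_one θ]
    have b2 := one_le_cosh τ
    have b3 : cosh τ ^ 2 - 2 * c i * cos θ * cosh τ + c i ^ 2 - sin θ ^ 2
        ≤ cosh τ' ^ 2 - 2 * c i * cos θ * cosh τ' + c i ^ 2 - sin θ ^ 2 := by
      nlinarith [mul_nonneg (sub_nonneg.2 a1) (show 0 ≤ cosh τ' + cosh τ - 2 * (c i * cos θ) by linarith)]
    have b4 : ((cosh τ' - c i) / (cosh τ - c i)) ^ 2
        ≤ exp (2 * ((cosh τ' - cosh τ) * (cosh τ - c i)⁻¹)) := by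
      rw [show (2 : ℝ) = (2 : ℕ) by norm_num, exp_nat_mul]
      gcongr
      refine le_trans (le_of_eq ?_) (add_one_le_exp _)
      field_simp; ring
    calc _ ≤ (cosh τ' ^ 2 - 2 * c i * cos θ * cosh τ' + c i ^ 2 - sin θ ^ 2) / (cosh τ - c i) ^ 2 := by
          gcongr
      _ = (cosh τ' ^ 2 - 2 * c i * cos θ * cosh τ' + c i ^ 2 - sin θ ^ 2) / (cosh τ' - c i) ^ 2
          * ((cosh τ' - c i) / (cosh τ - c i)) ^ 2 := by field_simp
      _ ≤ _ := by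
          have := q1.trans b3
          gcongr
  rw [exp_le_exp, ← mul_sum, ← mul_sum] at a3
  linarith

lemma phase_term {u sh ch θ ub rb : ℝ} (hu : 0 ≤ u) (hsh : 0 ≤ sh) (h0 : 0 ≤ θ) (h1 : θ ≤ π)
    (hch0 : 0 ≤ ch) (hch : ch ≤ 1.0001) (hub : u ≤ ub) (hub1 : 1 ≤ ub) (hus : u * sh ^ 2 ≤ 1)
    (hrb : 1.0001 * ub * θ ^ 2 / 2 ≤ rb) (hrb1 : rb < 1) :
    0 < 1 - u * ch * (1 - cos θ) ∧
    |u * sh * θ - arctan (u * sh * sin θ / (1 - u * ch * (1 - cos θ)))|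
      ≤ u * sh * (1.0001 * ub / (2 * (1 - rb)) * θ ^ 3) := by
  have a0 := s_nonneg θ
  have a1 := s_le_sq θ
  have a2 : 0 ≤ sin θ := sin_nonneg_of_nonneg_of_le_pi h0 h1
  have a3 := sin_le h0
  have a4 := sin_ge_sub_cube h0
  have b1 : u * ch * (1 - cos θ) ≤ 1.0001 * ub * θ ^ 2 / 2 := by
    calc _ ≤ ub * 1.0001 * (θ ^ 2 / 2) := by gcongr
      _ = _ := by ring
  have b0 : 0 ≤ u * ch * (1 - cos θ) := by positivity
  generalize u * ch * (1 - cos θ) = r at *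
  have hr : 0 < 1 - r := by linarith
  have hr' : 0 < 1 - rb := by linarith
  obtain ⟨A, hA⟩ : ∃ A, A = u * sh := ⟨_, rfl⟩
  have hA0 : 0 ≤ A := by rw [hA]; positivity
  have hA2 : A ^ 2 ≤ ub := by rw [hA]; nlinarith [mul_le_mul_of_nonneg_left hus hu]
  rw [← hA]
  refine ⟨hr, abs_le.2 ⟨?_, ?_⟩⟩
  · have c1 := arctan_le_self' (x := A * sin θ / (1 - r)) (by positivity)
    have c2 : A * sin θ / (1 - r) ≤ A * θ / (1 - r) := by gcongr
    have c3 : A * θ / (1 - r) = A * θ + A * θ * r / (1 - r) := by field_simp; ring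
    have c4 : A * θ * r / (1 - r) ≤ A * θ * (1.0001 * ub * θ ^ 2 / 2) / (1 - rb) := by
      gcongr; linarith
    have c5 : A * θ * (1.0001 * ub * θ ^ 2 / 2) / (1 - rb)
      = A * (1.0001 * ub / (2 * (1 - rb)) * θ ^ 3) := by field_simp
    linarith
  · have c1 : arctan (A * sin θ) ≤ arctan (A * sin θ / (1 - r)) := by
      rw [arctan_le_arctan_iff, le_div_iff₀ hr]; nlinarith [mul_nonneg (mul_nonneg hA0 a2) b0]
    have c2 := arctan_ge_cube (mul_nonneg hA0 a2)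
    have c3 : (A * sin θ) ^ 3 ≤ A * ub * θ ^ 3 := by
      calc (A * sin θ) ^ 3 = A * A ^ 2 * sin θ ^ 3 := by ring
        _ ≤ _ := by gcongr
    have c4 : ub / 2 ≤ 1.0001 * ub / (2 * (1 - rb)) := by
      have : 0 ≤ rb := le_trans (by positivity) hrb
      rw [le_div_iff₀ (by positivity)]; nlinarith
    have c5 : 0 ≤ A * θ ^ 3 := by positivity
    nlinarith [mul_le_mul_of_nonneg_left a4 hA0, mul_le_mul_of_nonneg_left c4 c5,
      mul_le_mul_of_nonneg_left hub1 c5]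

lemma Roots.polar (h : Roots n s c) {τ θ : ℝ} (hτ : 0 < τ) {m : ℕ} (hmu : mu n τ = m)
    (hp : ∀ i ∈ s, 0 < 1 - (cosh τ - c i)⁻¹ * cosh τ * (1 - cos θ)) :
    Polynomial.aeval (zz τ θ) (Dn n) * Complex.exp (-(m * θ : ℝ) * Complex.I)
      = Complex.exp ((lD n τ : ℝ) + ((rho n τ θ : ℝ) + (∑ i ∈ s, ((cosh τ - c i)⁻¹ * sinh τ * θ
        - arctan ((cosh τ - c i)⁻¹ * sinh τ * sin θ
          / (1 - (cosh τ - c i)⁻¹ * cosh τ * (1 - cos θ)))) : ℝ) * Complex.I)) := by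
  have e1 : rho n τ θ = ∑ i ∈ s, log ((1 - (cosh τ - c i)⁻¹ * cosh τ * (1 - cos θ)) ^ 2
        + ((cosh τ - c i)⁻¹ * sinh τ * sin θ) ^ 2) / 2 := by
    rw [← sum_div, ← log_prod (fun i hi => by have := hp i hi; positivity), ← h.rho_eq hτ, log_exp]
    ring
  have e2 := h.mu_eq hτ
  rw [hmu] at e2
  rw [h.prod_eq hτ, prod_congr rfl fun i hi => MP_e3fe77_co.polar (hp i hi), ← Complex.exp_sum,
    Complex.ofReal_exp, ← Complex.exp_add, ← Complex.exp_add, ← Complex.exp_add, e1, e2,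
    sum_sub_distrib, sum_sub_distrib, ← sum_mul, ← sum_mul, ← sum_mul, ← Complex.ofReal_sum,
    ← Complex.ofReal_sum]
  congr 1
  generalize ∑ i ∈ s, (cosh τ - c i)⁻¹ = U
  simp only [Complex.ofReal_sub, Complex.ofReal_mul]
  ring

end Pool.Agent.Lib.MP_e3fe77_co
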