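import Pool.Agent.Lib.MP_e3fe77_co.Reduce
import Pool.Agent.Lib.MP_e3fe77_co.Factor
import Pool.Agent.Lib.MP_e3fe77_co.Core

/-! Coefficient extraction and the two polar forms of the polynomial on a circle. -/

namespace Pool.Agent.Lib.MP_e3fe77_co
open Real Finset Polynomial

/-- signed sum over the numerator and denominator exponents -/
noncomputable def sAB (n : ℕ) (f : ℕ → ℝ) : ℝ :=
  ∑ a ∈ Ioc (10 * n) (15 * n), f a - (∑ b ∈ Ioc 0 (3 * n), f b + ∑ b ∈ Ioc (2 * n) (4 * n), f b)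

/-- logarithm of `|D(r e^{iθ})| / D(r)` -/
noncomputable def rho (n : ℕ) (τ θ : ℝ) : ℝ := sAB n fun b => Lg (b * τ) (b * θ)
/-- minus an argument of `D(r e^{iθ})` -/
noncomputable def ph (n : ℕ) (τ θ : ℝ) : ℝ := sAB n fun b => Fa (b * τ) (b * θ)
/-- logarithm of `D(r)` -/
noncomputable def lD (n : ℕ) (τ : ℝ) : ℝ := sAB n fun b => log (1 - exp (-(b * τ)))
/-- the logarithmic derivative `r D'(r) / D(r)` -/
noncomputable def mu (n : ℕ) (τ : ℝ) : ℝ := -sAB n fun b => b * p1 (b * τ)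

/-- the point `e^{-τ + iθ}` -/
noncomputable def zz (τ θ : ℝ) : ℂ := Complex.exp (-(τ : ℂ) + θ * Complex.I)

lemma bpos {τ : ℝ} (hτ : 0 < τ) {lo hi b : ℕ} (hb : b ∈ Ioc lo hi) : 0 < (b : ℝ) * τ := by
  have : 0 < b := by have := (mem_Ioc.1 hb).1; omega
  positivity

lemma aeval_pr {τ : ℝ} (hτ : 0 < τ) (θ : ℝ) (lo hi : ℕ) : aeval (zz τ θ) (pr lo hi)
    = Complex.exp ((∑ b ∈ Ioc lo hi, log (1 - exp (-(b * τ))) : ℝ)
      + ((∑ b ∈ Ioc lo hi, Lg (b * τ) (b * θ) : ℝ)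
        - (∑ b ∈ Ioc lo hi, Fa (b * τ) (b * θ) : ℝ) * Complex.I)) := by
  rw [pr, map_prod]
  push_cast
  rw [sum_mul, ← sum_sub_distrib, ← sum_add_distrib, Complex.exp_sum]
  refine prod_congr rfl fun b hb => ?_
  have h := factor_eq (bpos hτ hb) (b * θ)
  have hx := x_lt_one (bpos hτ hb)
  rw [Complex.exp_add, ← Complex.ofReal_exp, exp_log (by linarith), ← h, map_sub, map_one, map_pow,
    aeval_X, zz, ← Complex.exp_nat_mul]
  congr 2; push_cast; ring

lemma aeval_Dn {τ : ℝ} (hτ : 0 < τ) (n : ℕ) (θ : ℝ) : aeval (zz τ θ) (Dn n)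
    = Complex.exp ((lD n τ : ℝ) + ((rho n τ θ : ℝ) - (ph n τ θ : ℝ) * Complex.I)) := by
  have h := congrArg (aeval (zz τ θ)) (Dn_eq n)
  rw [map_mul, map_mul, aeval_pr hτ, aeval_pr hτ, aeval_pr hτ, ← Complex.exp_add] at h
  rw [eq_div_of_mul_eq (Complex.exp_ne_zero _) h, ← Complex.exp_sub]
  congr 1
  simp only [lD, rho, ph, sAB, Complex.ofReal_sub, Complex.ofReal_add]; ring

lemma fourier (P : ℤ[X]) (τ : ℝ) (m : ℕ) :
    ∫ θ in (0 : ℝ)..π, (aeval (zz τ θ) P * Complex.exp (-(m * θ : ℝ) * Complex.I)).re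
      = π * (P.coeff m * exp (-(m * τ))) := by
  have e : ∀ θ : ℝ, (aeval (zz τ θ) P * Complex.exp (-(m * θ : ℝ) * Complex.I)).re
      = ∑ k ∈ range (P.natDegree + m + 1), P.coeff k * exp (-(k * τ)) * cos ((k - m) * θ) := by
    intro θ
    rw [aeval_eq_sum_range' (n := P.natDegree + m + 1) (by omega), sum_mul, Complex.re_sum]
    refine sum_congr rfl fun k _ => ?_
    rw [zz, ← Complex.exp_nat_mul, smul_mul_assoc, ← Complex.exp_add, zsmul_eq_mul,
      show (k : ℂ) * (-(τ : ℂ) + θ * Complex.I) + -(m * θ : ℝ) * Complex.I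
        = (-(k * τ) : ℝ) + ((k - m) * θ : ℝ) * Complex.I by push_cast; ring,
      ← Complex.ofReal_intCast, Complex.re_ofReal_mul, Complex.exp_re]
    simp only [Complex.add_re, Complex.ofReal_re, Complex.mul_re, Complex.I_re, Complex.ofReal_im,
      Complex.I_im, Complex.add_im, Complex.mul_im]
    ring_nf
  simp_rw [e]
  rw [intervalIntegral.integral_finsetSum (fun k _ => by
    apply Continuous.intervalIntegrable; fun_prop),
    sum_eq_single m (fun k _ hk => ?_) (fun h => by simp at h)]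
  · simp; ring
  · have hk' : ((k : ℝ) - m) ≠ 0 := sub_ne_zero.2 (by exact_mod_cast hk)
    rw [intervalIntegral.integral_const_mul, intervalIntegral.integral_comp_mul_left _ hk',
      integral_cos]
    have : sin ((k - m) * π) = 0 := by exact_mod_cast sin_int_mul_pi ((k : ℤ) - m)
    simp [this]

theorem coeff_nonneg {τ : ℝ} (n m : ℕ) {ρ φ : ℝ → ℝ}
    (h : ∀ θ : ℝ, aeval (zz τ θ) (Dn n) * Complex.exp (-(m * θ : ℝ) * Complex.I)
      = Complex.exp ((lD n τ : ℝ) + ((ρ θ : ℝ) + (φ θ : ℝ) * Complex.I)))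
    (h2 : ∀ H : ℝ → ℝ, Continuous H →
      (∀ θ, H θ = exp (ρ θ) * (cos (φ θ) - exp (-τ) * cos (θ + φ θ))) →
      0 ≤ ∫ θ in (0 : ℝ)..π, H θ) : 0 ≤ (En n).coeff m := by
  have h3 := h2 (fun θ => exp (-lD n τ)
    * (aeval (zz τ θ) (En n) * Complex.exp (-(m * θ : ℝ) * Complex.I)).re)
    (by
      have : Continuous fun θ : ℝ => aeval (zz τ θ) (En n) :=
        (En n).continuous_aeval.comp (by unfold zz; fun_prop)
      fun_prop)
    (fun θ => by
      rw [En, map_mul, mul_assoc, h, map_sub, map_one, aeval_X, zz, sub_mul, one_mul,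
        ← Complex.exp_add, Complex.sub_re, Complex.exp_re, Complex.exp_re]
      simp only [Complex.add_re, Complex.ofReal_re, Complex.mul_re, Complex.I_re, Complex.ofReal_im,
        Complex.I_im, Complex.add_im, Complex.mul_im, Complex.neg_re, Complex.neg_im, mul_zero,
        mul_one, sub_zero, add_zero, zero_add, neg_zero]
      rw [exp_add, exp_add, exp_add, exp_neg (lD n τ)]
      field_simp)
  rw [intervalIntegral.integral_const_mul, fourier] at h3
  have h4 : (0 : ℝ) ≤ (En n).coeff m := by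
    by_contra hc
    push Not at hc
    have : 0 < exp (-lD n τ) * (π * (-((En n).coeff m : ℝ) * exp (-(m * τ)))) := by
      have := pi_pos
      have : 0 < -((En n).coeff m : ℝ) := by linarith
      positivity
    linarith
  exact_mod_cast h4

lemma polarAB {τ : ℝ} (hτ : 0 < τ) (n m : ℕ) (θ : ℝ) :
    aeval (zz τ θ) (Dn n) * Complex.exp (-(m * θ : ℝ) * Complex.I)
      = Complex.exp ((lD n τ : ℝ) + ((rho n τ θ : ℝ) + (-ph n τ θ - m * θ : ℝ) * Complex.I)) := by
  rw [aeval_Dn hτ, ← Complex.exp_add]; congr 1; push_cast; ring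

/-- description of `D` through its roots -/
structure Roots (n : ℕ) {ι : Type} (s : Finset ι) (c : ι → ℝ) : Prop where
  card : s.card = 26 * n ^ 2
  bd : ∀ i ∈ s, -1 ≤ c i ∧ c i ≤ cos (2 * π / (15 * n : ℕ))
  ev : ∀ z : ℂ, aeval z (Dn n) = ∏ i ∈ s, (z ^ 2 - 2 * (c i : ℂ) * z + 1)

variable {n : ℕ} {ι : Type} {s : Finset ι} {c : ι → ℝ}

lemma Roots.pos (h : Roots n s c) {τ : ℝ} (hτ : 0 < τ) {i : ι} (hi : i ∈ s) : 0 < cosh τ - c i := by
  have := (h.bd i hi).2.trans (cos_le_one _)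
  have := one_lt_cosh.2 hτ.ne'
  linarith

lemma quad_zz (τ θ c : ℝ) : zz τ θ ^ 2 - 2 * (c : ℂ) * zz τ θ + 1
    = 2 * zz τ θ * ((cosh τ * cos θ - c : ℝ) - (sinh τ * sin θ : ℝ) * Complex.I) := by
  have h1 : zz τ θ * Complex.exp (τ - θ * Complex.I) = 1 := by
    rw [zz, ← Complex.exp_add]; simp
  have h2 : zz τ θ + Complex.exp (τ - θ * Complex.I)
      = 2 * ((cosh τ * cos θ : ℝ) - (sinh τ * sin θ : ℝ) * Complex.I) := by
    have := Complex.two_cosh (τ - θ * Complex.I)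
    rw [Complex.cosh_sub, Complex.cosh_mul_I, Complex.sinh_mul_I] at this
    rw [zz, show -(τ : ℂ) + θ * Complex.I = -(τ - θ * Complex.I) by ring]
    push_cast; linear_combination -this
  push_cast at *
  linear_combination (zz τ θ) * h2 - h1

lemma Roots.lD_eq (h : Roots n s c) {τ : ℝ} (hτ : 0 < τ) :
    exp (lD n τ) = ∏ i ∈ s, (2 * exp (-τ) * (cosh τ - c i)) := by
  have h1 := aeval_Dn hτ n 0
  rw [h.ev] at h1
  simp only [quad_zz] at h1
  have e1 : rho n τ 0 = 0 := by simp [rho, sAB, Lg]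
  have e2 : ph n τ 0 = 0 := by simp [ph, sAB, Fa]
  rw [e1, e2] at h1
  apply Complex.ofReal_injective
  simpa [zz] using h1.symm

lemma Roots.prod_eq (h : Roots n s c) {τ : ℝ} (hτ : 0 < τ) (θ : ℝ) :
    aeval (zz τ θ) (Dn n) = (exp (lD n τ) : ℝ) * Complex.exp ((26 * n ^ 2 * θ : ℝ) * Complex.I)
      * ∏ i ∈ s, (((1 - (cosh τ - c i)⁻¹ * cosh τ * (1 - cos θ) : ℝ) : ℂ)
        - ((cosh τ - c i)⁻¹ * sinh τ * sin θ : ℝ) * Complex.I) := by
  have e : Complex.exp ((26 * n ^ 2 * θ : ℝ) * Complex.I) = ∏ _i ∈ s, Complex.exp (θ * Complex.I) := by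
    rw [prod_const, h.card, ← Complex.exp_nat_mul]; congr 1; push_cast; ring
  rw [h.ev, h.lD_eq hτ, e, Complex.ofReal_prod, ← prod_mul_distrib, ← prod_mul_distrib]
  refine prod_congr rfl fun i hi => ?_
  have h1 : ((cosh τ - c i : ℝ) : ℂ) ≠ 0 := by exact_mod_cast (h.pos hτ hi).ne'
  rw [quad_zz, zz, Complex.exp_add]
  push_cast at *
  field_simp
  ring

lemma Roots.rho_eq (h : Roots n s c) {τ : ℝ} (hτ : 0 < τ) (θ : ℝ) :
    exp (2 * rho n τ θ) = ∏ i ∈ s, ((1 - (cosh τ - c i)⁻¹ * cosh τ * (1 - cos θ)) ^ 2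
        + ((cosh τ - c i)⁻¹ * sinh τ * sin θ) ^ 2) := by
  have h1 := congrArg Complex.normSq ((aeval_Dn hτ n θ).symm.trans (h.prod_eq hτ θ))
  rw [map_mul, map_mul, map_prod, Complex.normSq_eq_norm_sq, Complex.normSq_eq_norm_sq,
    Complex.normSq_eq_norm_sq, Complex.norm_exp_ofReal_mul_I, Complex.norm_exp, Complex.norm_real,
    Real.norm_eq_abs, sq_abs] at h1
  simp only [Complex.add_re, Complex.ofReal_re, Complex.mul_re, Complex.I_re, Complex.ofReal_im,
    Complex.I_im, Complex.sub_re, mul_zero, mul_one, sub_zero, one_pow, Complex.normSq_apply,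
    Complex.sub_im, Complex.mul_im, add_zero, zero_sub] at h1
  rw [exp_add, mul_pow] at h1
  have h2 := mul_left_cancel₀ (pow_ne_zero 2 (exp_pos _).ne') h1
  rw [show 2 * rho n τ θ = (2 : ℕ) * rho n τ θ by norm_num, exp_nat_mul, h2]
  exact prod_congr rfl fun i _ => by ring

lemma Roots.mu_eq (h : Roots n s c) {τ : ℝ} (hτ : 0 < τ) :
    mu n τ = 26 * n ^ 2 - sinh τ * ∑ i ∈ s, (cosh τ - c i)⁻¹ := by
  have d1 : ∀ lo hi : ℕ, HasDerivAt (fun t => ∑ b ∈ Ioc lo hi, log (1 - exp (-(b * t))))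
      (∑ b ∈ Ioc lo hi, b * p1 (b * τ)) τ := by
    intro lo hi
    refine HasDerivAt.fun_sum fun b hb => ?_
    have hx := x_lt_one (bpos hτ hb)
    have := ((((hasDerivAt_id' τ).const_mul (b : ℝ)).neg.exp).const_sub 1).log
      (by simp only [Pi.neg_apply]; linarith)
    refine HasDerivAt.congr_deriv this ?_
    simp only [Pi.neg_apply, p1]; ring
  have d2 : HasDerivAt (lD n) (-mu n τ) τ := by
    have := (d1 (10 * n) (15 * n)).sub ((d1 0 (3 * n)).add (d1 (2 * n) (4 * n)))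
    refine HasDerivAt.congr_deriv this ?_
    simp [mu, sAB]
  have d3 : HasDerivAt (fun t => ∑ i ∈ s, (log 2 - t + log (cosh t - c i)))
      (∑ i ∈ s, (-1 + sinh τ * (cosh τ - c i)⁻¹)) τ := by
    refine HasDerivAt.fun_sum fun i hi => ?_
    have := ((hasDerivAt_id' τ).const_sub (log 2)).add
      (((hasDerivAt_cosh τ).sub_const (c i)).log (h.pos hτ hi).ne')
    refine HasDerivAt.congr_deriv this ?_
    rw [div_eq_mul_inv]
  have e : lD n =ᶠ[nhds τ] fun t => ∑ i ∈ s, (log 2 - t + log (cosh t - c i)) := by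
    filter_upwards [lt_mem_nhds hτ] with t ht
    apply exp_injective
    rw [h.lD_eq ht, exp_sum]
    refine prod_congr rfl fun i hi => ?_
    rw [exp_add, exp_log (h.pos ht hi), sub_eq_add_neg (log 2), exp_add, exp_log (by norm_num)]
  have := d2.unique (d3.congr_of_eventuallyEq e)
  rw [sum_add_distrib, sum_const, h.card, ← mul_sum] at this
  simp only [nsmul_eq_mul] at this
  push_cast at this
  linarith

end Pool.Agent.Lib.MP_e3fe77_co
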