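import Pool.Agent.Lib.MP_e3fe77_co.Basic

/-! Telescoping bounds for finite sums. -/

namespace Pool.Agent.Lib.MP_e3fe77_co
open Real Finset

lemma sum_Ioc_le {f F : ℕ → ℝ} {lo hi : ℕ} (h : lo ≤ hi) (hF : ∀ k, f (k + 1) ≤ F (k + 1) - F k) :
    ∑ b ∈ Ioc lo hi, f b ≤ F hi - F lo := by
  induction hi, h using Nat.le_induction with
  | base => simp
  | succ k hk ih => rw [sum_Ioc_succ_top hk]; have := hF k; linarith

lemma le_sum_Ioc {f F : ℕ → ℝ} {lo hi : ℕ} (h : lo ≤ hi) (hF : ∀ k, F (k + 1) - F k ≤ f (k + 1)) :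
    F hi - F lo ≤ ∑ b ∈ Ioc lo hi, f b := by
  induction hi, h using Nat.le_induction with
  | base => simp
  | succ k hk ih => rw [sum_Ioc_succ_top hk]; have := hF k; linarith

lemma sum_Ioc_eq {f F : ℕ → ℝ} {lo hi : ℕ} (h : lo ≤ hi) (hF : ∀ k, f (k + 1) = F (k + 1) - F k) :
    ∑ b ∈ Ioc lo hi, f b = F hi - F lo :=
  le_antisymm (sum_Ioc_le h fun k => (hF k).le) (le_sum_Ioc h fun k => (hF k).ge)

lemma sum_one' {lo hi : ℕ} (h : lo ≤ hi) :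
    ∑ b ∈ Ioc lo hi, (b : ℝ) = (hi * (hi + 1) - lo * (lo + 1)) / 2 := by
  rw [sum_Ioc_eq (F := fun k => (k : ℝ) * (k + 1) / 2) h (fun k => by push_cast; ring)]; ring

lemma sum_sq' {lo hi : ℕ} (h : lo ≤ hi) : ∑ b ∈ Ioc lo hi, (b : ℝ) ^ 2
    = (hi * (hi + 1) * (2 * hi + 1) - lo * (lo + 1) * (2 * lo + 1)) / 6 := by
  rw [sum_Ioc_eq (F := fun k => (k : ℝ) * (k + 1) * (2 * k + 1) / 6) h
    (fun k => by push_cast; ring)]; ring

lemma sum_four' {lo hi : ℕ} (h : lo ≤ hi) : ∑ b ∈ Ioc lo hi, (b : ℝ) ^ 4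
    = (hi * (hi + 1) * (2 * hi + 1) * (3 * hi ^ 2 + 3 * hi - 1)
      - lo * (lo + 1) * (2 * lo + 1) * (3 * lo ^ 2 + 3 * lo - 1)) / 30 := by
  rw [sum_Ioc_eq (F := fun k => (k : ℝ) * (k + 1) * (2 * k + 1) * (3 * k ^ 2 + 3 * k - 1) / 30) h
    (fun k => by push_cast; ring)]; ring

/-- `-R e^{-u}` is an antiderivative of `P e^{-u}`, both polynomials being monotone -/
def PR (P R : ℝ → ℝ) : Prop :=
  (∀ u, HasDerivAt (fun u => R u * exp (-u)) (-(P u * exp (-u))) u) ∧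
  (∀ a b, 0 ≤ a → a ≤ b → P a ≤ P b) ∧ (∀ a b, 0 ≤ a → a ≤ b → R a ≤ R b) ∧
  (∀ a, 0 ≤ a → 0 ≤ P a) ∧ (∀ a, 0 ≤ a → 0 ≤ R a)

/-- a polynomial of degree at most six -/
def pol (a0 a1 a2 a3 a4 a5 a6 u : ℝ) : ℝ :=
  a0 + a1 * u + a2 * u ^ 2 + a3 * u ^ 3 + a4 * u ^ 4 + a5 * u ^ 5 + a6 * u ^ 6

lemma PR_pol {a0 a1 a2 a3 a4 a5 a6 r0 r1 r2 r3 r4 r5 : ℝ} (h0 : 0 ≤ a0) (h1 : 0 ≤ a1) (h2 : 0 ≤ a2)
    (h3 : 0 ≤ a3) (h4 : 0 ≤ a4) (h5 : 0 ≤ a5) (h6 : 0 ≤ a6) (e5 : r5 = a5 + 6 * a6)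
    (e4 : r4 = a4 + 5 * r5) (e3 : r3 = a3 + 4 * r4) (e2 : r2 = a2 + 3 * r3) (e1 : r1 = a1 + 2 * r2)
    (e0 : r0 = a0 + r1) : PR (pol a0 a1 a2 a3 a4 a5 a6) (pol r0 r1 r2 r3 r4 r5 a6) := by
  have g5 : 0 ≤ r5 := by linarith
  have g4 : 0 ≤ r4 := by linarith
  have g3 : 0 ≤ r3 := by linarith
  have g2 : 0 ≤ r2 := by linarith
  have g1 : 0 ≤ r1 := by linarith
  have g0 : 0 ≤ r0 := by linarith
  refine ⟨fun u => ?_, fun a b ha hab => ?_, fun a b ha hab => ?_, fun a ha => ?_, fun a ha => ?_⟩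
  · have := ((((((((hasDerivAt_id' u).const_mul r1).const_add r0).add
      ((hasDerivAt_pow 2 u).const_mul r2)).add ((hasDerivAt_pow 3 u).const_mul r3)).add
      ((hasDerivAt_pow 4 u).const_mul r4)).add ((hasDerivAt_pow 5 u).const_mul r5)).add
      ((hasDerivAt_pow 6 u).const_mul a6)).mul (hd_exp_neg u)
    refine HasDerivAt.congr_deriv this ?_
    subst e0 e1 e2 e3 e4 e5
    simp [pol]; ring
  · unfold pol; gcongr
  · unfold pol; gcongr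
  · unfold pol; positivity
  · unfold pol; positivity

lemma PR.mvt {P R : ℝ → ℝ} (h : PR P R) {a b : ℝ} (hab : a < b) :
    ∃ x, a ≤ x ∧ x ≤ b ∧ R a * exp (-a) - R b * exp (-b) = (b - a) * (P x * exp (-x)) := by
  obtain ⟨x, hx, e⟩ := exists_hasDerivAt_eq_slope (fun u => R u * exp (-u))
    (fun u => -(P u * exp (-u))) hab (fun y _ => (h.1 y).continuousAt.continuousWithinAt)
    (fun y _ => h.1 y)
  refine ⟨x, hx.1.le, hx.2.le, ?_⟩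
  rw [eq_div_iff (by linarith)] at e
  linarith

lemma PR.anti {P R : ℝ → ℝ} (h : PR P R) {a b : ℝ} (ha : 0 ≤ a) (hab : a ≤ b) :
    R b * exp (-b) ≤ R a * exp (-a) := by
  rcases hab.eq_or_lt with rfl | hab
  · exact le_rfl
  obtain ⟨x, h1, h2, e⟩ := h.mvt hab
  have := h.2.2.2.1 x (ha.trans h1)
  have : 0 ≤ (b - a) * (P x * exp (-x)) := mul_nonneg (by linarith) (by positivity)
  linarith

lemma PR.nonneg {P R : ℝ → ℝ} (h : PR P R) {a : ℝ} (ha : 0 ≤ a) : 0 ≤ R a * exp (-a) :=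
  mul_nonneg (h.2.2.2.2 a ha) (exp_pos _).le

lemma PR.upper {P R : ℝ → ℝ} (h : PR P R) {τ : ℝ} (hτ : 0 < τ) {lo hi : ℕ} (hl : lo ≤ hi) :
    τ * ∑ b ∈ Ioc lo hi, P (b * τ) * exp (-(b * τ))
      ≤ exp τ * (R (lo * τ) * exp (-(lo * τ))) - R (hi * τ) * exp (-(hi * τ)) := by
  rw [mul_sum]
  refine (sum_Ioc_le (F := fun k => -(exp τ * (R ((k + 1) * τ) * exp (-((k + 1) * τ))))) hl
    (fun k => ?_)).trans ?_
  · have hk : (0 : ℝ) ≤ (k + 1) * τ := by positivity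
    obtain ⟨x, h1, h2, e⟩ := h.mvt (a := (k + 1) * τ) (b := (k + 1 + 1) * τ) (by nlinarith)
    have h3 := h.2.1 _ _ hk h1
    have h4 : exp (-((k + 1) * τ)) ≤ exp τ * exp (-x) := by
      rw [← exp_add]; apply exp_le_exp.2; linarith
    have h5 := h.2.2.2.1 _ hk
    have h6 : P ((k + 1) * τ) * exp (-((k + 1) * τ)) ≤ P x * (exp τ * exp (-x)) := by
      apply mul_le_mul h3 h4 (exp_pos _).le (h5.trans h3)
    push_cast
    have h7 := mul_le_mul_of_nonneg_left h6 hτ.le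
    have e2 := congrArg (fun y => exp τ * y) e
    nlinarith
  · have h1 := h.anti (a := lo * τ) (b := (lo + 1) * τ) (by positivity) (by nlinarith)
    have h2 := h.2.2.1 (hi * τ) ((hi + 1) * τ) (by positivity) (by nlinarith)
    have h3 : exp τ * exp (-((hi + 1) * τ)) = exp (-(hi * τ)) := by
      rw [← exp_add]; congr 1; ring
    have h4 := mul_le_mul_of_nonneg_left h1 (exp_pos τ).le
    have h5 := mul_le_mul_of_nonneg_right h2 (exp_pos (-(hi * τ))).le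
    have h6 : exp τ * (R ((hi + 1) * τ) * exp (-((hi + 1) * τ)))
      = R ((hi + 1) * τ) * exp (-(hi * τ)) := by rw [← h3]; ring
    linarith

lemma PR.upper' {P R : ℝ → ℝ} (h : PR P R) {τ : ℝ} (hτ : 0 < τ) {lo hi : ℕ} (hl : lo ≤ hi) :
    τ * ∑ b ∈ Ioc lo hi, P (b * τ) * exp (-(b * τ))
      ≤ exp τ * (R (lo * τ) * exp (-(lo * τ))) := by
  have := h.upper hτ hl
  have := h.nonneg (a := hi * τ) (by positivity)
  linarith

lemma PR.lower {P R : ℝ → ℝ} (h : PR P R) {τ : ℝ} (hτ : 0 < τ) {lo hi : ℕ} (hl : lo ≤ hi) :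
    exp (-τ) * (R (lo * τ) * exp (-(lo * τ)) - R (hi * τ) * exp (-(hi * τ)))
      ≤ τ * ∑ b ∈ Ioc lo hi, P (b * τ) * exp (-(b * τ)) := by
  rw [mul_sum]
  refine le_trans (le_of_eq (by ring))
    (le_sum_Ioc (F := fun k => -(exp (-τ) * (R (k * τ) * exp (-(k * τ))))) hl (fun k => ?_))
  have hk : (0 : ℝ) ≤ k * τ := by positivity
  obtain ⟨x, h1, h2, e⟩ := h.mvt (a := k * τ) (b := (k + 1) * τ) (by nlinarith)
  have h3 := h.2.1 _ _ (hk.trans h1) h2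
  have h4 : exp (-τ) * exp (-x) ≤ exp (-((k + 1) * τ)) := by
    rw [← exp_add]; apply exp_le_exp.2; linarith
  have h5 := h.2.2.2.1 _ (hk.trans h1)
  have h6 : P x * (exp (-τ) * exp (-x)) ≤ P ((k + 1) * τ) * exp (-((k + 1) * τ)) := by
    apply mul_le_mul h3 h4 (by positivity) (h5.trans h3)
  push_cast
  have h7 := mul_le_mul_of_nonneg_left h6 hτ.le
  have e2 := congrArg (fun y => exp (-τ) * y) e
  nlinarith

lemma PRlo : PR (pol 1 1 (5 / 12) 0 0 0 0) (pol (17 / 6) (11 / 6) (5 / 12) 0 0 0 0) := by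
  apply PR_pol <;> norm_num
lemma PR1 : PR (pol 1 (1 / 2) (1 / 12) 0 0 0 0) (pol (5 / 3) (2 / 3) (1 / 12) 0 0 0 0) := by
  apply PR_pol <;> norm_num
lemma PR2 : PR (pol 1 1 (5 / 12) (1 / 12) (1 / 144) 0 0)
    (pol (7 / 2) (5 / 2) (3 / 4) (1 / 9) (1 / 144) 0 0) := by
  apply PR_pol <;> norm_num
lemma PR3 : PR (pol 2 2 1 (1 / 3) (1 / 12) (1 / 72) (1 / 864))
    (pol (25 / 2) (21 / 2) (17 / 4) (13 / 12) (3 / 16) (1 / 48) (1 / 864)) := by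
  apply PR_pol <;> norm_num
lemma PR4 : PR (pol 6 6 (7 / 2) (3 / 2) (11 / 24) (1 / 12) (1 / 144))
    (pol 54 48 21 (35 / 6) (13 / 12) (1 / 8) (1 / 144)) := by
  apply PR_pol <;> norm_num

lemma geom_Ioc {τ : ℝ} (hτ : 0 < τ) {lo hi : ℕ} (hl : lo ≤ hi) :
    ∑ b ∈ Ioc lo hi, exp (-(b * τ)) = (exp (-(lo * τ)) - exp (-(hi * τ))) / (exp τ - 1) := by
  have h : exp τ - 1 ≠ 0 := by have := add_one_lt_exp hτ.ne'; linarith
  rw [sum_Ioc_eq (F := fun k => -(exp (-(k * τ)) / (exp τ - 1))) hl (fun k => ?_)]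
  · ring
  · have : exp (-(k * τ)) = exp τ * exp (-((k + 1) * τ)) := by rw [← exp_add]; congr 1; ring
    push_cast; rw [this]; field_simp; ring

lemma osc_lower {τ θ β q e E : ℝ} (hτ : 0 < τ) (K : ℕ) (hβ : β ^ 2 ≤ 2 * (1 - cos θ)) (hq : 0 < q)
    (hq2 : q ^ 2 ≤ τ ^ 2 + β ^ 2) (he : exp τ - 1 ≤ e) (hE : exp (-(K * τ)) ≤ E) :
    β ^ 2 / (e * (e ^ 2 + β ^ 2)) - E / τ - E / q
      ≤ ∑ b ∈ Ioc 0 K, exp (-(b * τ)) * (1 - cos (b * θ)) := by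
  have h1 : τ ≤ exp τ - 1 := by have := add_one_le_exp τ; linarith
  obtain ⟨ε, hε⟩ : ∃ ε, ε = exp τ - 1 := ⟨_, rfl⟩
  have hy : exp τ = ε + 1 := by linarith
  rw [← hε] at h1 he
  have hε0 : 0 < ε := by linarith
  have hs : 0 ≤ 1 - cos θ := by have := cos_le_one θ; linarith
  obtain ⟨D, hD⟩ : ∃ D, D = ε ^ 2 + 2 * (ε + 1) * (1 - cos θ) := ⟨_, rfl⟩
  have hD1 : ε ^ 2 + β ^ 2 ≤ D := by nlinarith
  have hD0 : 0 < D := lt_of_lt_of_le (by positivity) hD1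
  simp_rw [mul_sub, mul_one]
  rw [sum_sub_distrib, geom_Ioc hτ (Nat.zero_le K), ← hε,
    sum_Ioc_eq (F := fun k => -(exp (-(k * τ)) * ((ε + 1) * cos ((k + 1) * θ) - cos (k * θ)) / D))
      (Nat.zero_le K) (fun k => ?_)]
  swap
  · have e1 : exp (-(k * τ)) = (ε + 1) * exp (-((k + 1) * τ)) := by
      rw [← hy, ← exp_add]; congr 1; ring
    have e2 : cos ((k + 1 + 1) * θ) = 2 * cos θ * cos ((k + 1) * θ) - cos (k * θ) := by
      have a1 := cos_add ((k + 1) * θ) θ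
      have a2 := cos_sub ((k + 1) * θ) θ
      rw [show ((k : ℝ) + 1) * θ + θ = (k + 1 + 1) * θ by ring] at a1
      rw [show ((k : ℝ) + 1) * θ - θ = k * θ by ring] at a2
      linarith
    push_cast
    rw [e1, e2]; field_simp; rw [hD]; ring
  simp only [Nat.cast_zero, zero_mul, neg_zero, exp_zero, zero_add, one_mul, cos_zero]
  have hx := exp_pos (-(K * τ))
  generalize exp (-(K * τ)) = x at *
  have hE0 : 0 ≤ E := hx.le.trans hE
  have b1 : -q⁻¹ ≤ ((ε + 1) * cos ((K + 1) * θ) - cos (K * θ)) / D := by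
    have a1 := cos_add (K * θ) θ
    rw [show (K : ℝ) * θ + θ = (K + 1) * θ by ring] at a1
    have a2 := sin_sq_add_cos_sq θ
    have a3 := sin_sq_add_cos_sq (K * θ)
    have a4 : ((ε + 1) * cos ((K + 1) * θ) - cos (K * θ)) ^ 2 ≤ D := by
      rw [a1]
      have : D = (((ε + 1) * cos θ - 1) ^ 2 + ((ε + 1) * sin θ) ^ 2)
          * (sin (K * θ) ^ 2 + cos (K * θ) ^ 2) := by
        rw [a3, hD]; linear_combination (-(ε + 1) ^ 2) * a2
      rw [this]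
      nlinarith [sq_nonneg (((ε + 1) * cos θ - 1) * sin (K * θ) + (ε + 1) * sin θ * cos (K * θ))]
    have a5 : q ^ 2 ≤ D := by nlinarith
    have a6 : (((ε + 1) * cos ((K + 1) * θ) - cos (K * θ)) * q) ^ 2 ≤ D ^ 2 := by
      rw [mul_pow, sq D]; gcongr
    have a7 := (abs_le_of_sq_le_sq' a6 hD0.le).1
    rw [le_div_iff₀ hD0, neg_mul, inv_mul_eq_div, neg_le, le_div_iff₀ hq]
    linarith
  have b2 : ((ε + 1) * cos θ - 1) / D ≤ ε / (ε ^ 2 + β ^ 2) := by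
    calc _ ≤ ε / D := by gcongr; nlinarith
      _ ≤ _ := by gcongr
  have b3 : β ^ 2 / (e * (e ^ 2 + β ^ 2)) ≤ 1 / ε - ε / (ε ^ 2 + β ^ 2) := by
    have : 1 / ε - ε / (ε ^ 2 + β ^ 2) = β ^ 2 / (ε * (ε ^ 2 + β ^ 2)) := by field_simp; ring
    have : 0 ≤ e := by linarith
    rw [‹1 / ε - _ = _›]; gcongr
  have b4 : x / ε ≤ E / τ := by gcongr
  have b5 : x * q⁻¹ ≤ E / q := by rw [div_eq_mul_inv]; gcongr
  have b6 := mul_le_mul_of_nonneg_left b1 hx.le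
  rw [sub_div, mul_div_assoc]
  linarith

end Pool.Agent.Lib.MP_e3fe77_co
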