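import Pool.Agent.Lib.MP_e3fe77_co.Setup

/-! Bounds away from the saddle point. -/

namespace Pool.Agent.Lib.MP_e3fe77_co
open Real Finset

lemma exp_mul_le {n k : ℕ} {τ E : ℝ} (h : exp (-(n * τ)) ≤ E) : exp (-((k * n : ℕ) * τ)) ≤ E ^ k := by
  rw [show -(((k * n : ℕ) : ℝ) * τ) = k * -(n * τ) by push_cast; ring, exp_nat_mul]
  gcongr

lemma le_exp_mul {n k : ℕ} {τ E : ℝ} (h0 : 0 ≤ E) (h : E ≤ exp (-(n * τ))) :
    E ^ k ≤ exp (-((k * n : ℕ) * τ)) := by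
  rw [show -(((k * n : ℕ) : ℝ) * τ) = k * -(n * τ) by push_cast; ring, exp_nat_mul]
  gcongr

/-- the numerator part of `rho` -/
noncomputable def SA (n : ℕ) (τ θ : ℝ) : ℝ := ∑ a ∈ Ioc (10 * n) (15 * n), Lg (a * τ) (a * θ)
/-- the denominator part of `rho` -/
noncomputable def SB (n : ℕ) (τ θ : ℝ) : ℝ :=
  ∑ b ∈ Ioc 0 (3 * n), Lg (b * τ) (b * θ) + ∑ b ∈ Ioc (2 * n) (4 * n), Lg (b * τ) (b * θ)

lemma rho_eq_sub (n : ℕ) (τ θ : ℝ) : rho n τ θ = SA n τ θ - SB n τ θ := rfl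

lemma tailA {n : ℕ} {τ τa El Eu L : ℝ} (ha : 0 < τa) (hτ : τa ≤ τ) (hu : exp (-(n * τa)) ≤ Eu)
    (hl0 : 0 ≤ El) (hl : El ≤ exp (-(n * τa))) (h1 : Eu ^ 20 < 1)
    (hL : 2 * (Eu ^ 10 - El ^ 15) ≤ L * (1 - Eu ^ 20)) (θ : ℝ) : SA n τ θ ≤ L / τa := by
  have hd : 0 < 1 - Eu ^ 20 := by linarith
  have a1 := exp_mul_le (k := 10) hu
  have a2 := le_exp_mul (k := 15) hl0 hl
  have a3 : τa ≤ exp τa - 1 := by have := add_one_le_exp τa; linarith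
  have a4 : exp (-((15 * n : ℕ) * τa)) ≤ exp (-((10 * n : ℕ) * τa)) := by
    apply exp_le_exp.2; push_cast
    have : (0 : ℝ) ≤ n * τa := by positivity
    linarith
  calc SA n τ θ ≤ ∑ a ∈ Ioc (10 * n) (15 * n), 2 / (1 - Eu ^ 20) * exp (-(a * τa)) := by
        refine sum_le_sum fun a hab => (Lg_le_x (bpos (ha.trans_le hτ) hab) _).trans ?_
        have b1 : exp (-(a * τ)) ≤ exp (-(a * τa)) := by gcongr
        have b2 : exp (-(a * τa)) ≤ exp (-((10 * n : ℕ) * τa)) := by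
          have : ((10 * n : ℕ) : ℝ) ≤ a := by exact_mod_cast (mem_Ioc.1 hab).1.le
          gcongr
        have b3 : exp (-(a * τ)) ^ 2 ≤ Eu ^ 20 := by
          rw [show 20 = 10 * 2 from rfl, pow_mul]; gcongr; linarith
        rw [div_mul_eq_mul_div]
        gcongr
    _ = 2 / (1 - Eu ^ 20) * ((exp (-((10 * n : ℕ) * τa)) - exp (-((15 * n : ℕ) * τa)))
          / (exp τa - 1)) := by rw [← mul_sum, geom_Ioc ha (by omega)]
    _ ≤ 2 / (1 - Eu ^ 20) * ((Eu ^ 10 - El ^ 15) / τa) := by gcongr; linarith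
    _ = 2 * (Eu ^ 10 - El ^ 15) / (1 - Eu ^ 20) / τa := by ring
    _ ≤ L / τa := by gcongr; rw [div_le_iff₀ hd]; exact hL

lemma SB_split (n : ℕ) (f : ℕ → ℝ) : ∑ b ∈ Ioc 0 (3 * n), f b + ∑ b ∈ Ioc (2 * n) (4 * n), f b
    = ∑ b ∈ Ioc 0 n, f b + ∑ b ∈ Ioc n (2 * n), f b + 2 * ∑ b ∈ Ioc (2 * n) (3 * n), f b
      + ∑ b ∈ Ioc (3 * n) (4 * n), f b := by
  rw [← sum_Ioc_consecutive f (show 0 ≤ 2 * n by omega) (show 2 * n ≤ 3 * n by omega),
    ← sum_Ioc_consecutive f (show 0 ≤ n by omega) (show n ≤ 2 * n by omega),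
    ← sum_Ioc_consecutive f (show 2 * n ≤ 3 * n by omega) (show 3 * n ≤ 4 * n by omega)]
  ring

lemma tailFar {n : ℕ} {τ τb θ θ3 β q e E : ℝ} (hτ : 0 < τ) (hb : τ ≤ τb) (h0 : 0 ≤ θ3)
    (h3 : θ3 ≤ θ) (hπ : θ ≤ π) (hβ : β ^ 2 ≤ θ3 ^ 2 * (1 - θ3 ^ 2 / 12)) (hq : 0 < q)
    (hq2 : q ^ 2 ≤ τb ^ 2 + β ^ 2) (he : exp τb - 1 ≤ e) (hE : exp (-(n * τb)) ≤ E) :
    β ^ 2 / (e * (e ^ 2 + β ^ 2)) - E ^ 4 / τb - E ^ 4 / q ≤ SB n τ θ := by
  have a1 := cos_le_cos_of_nonneg_of_le_pi h0 hπ h3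
  have a2 := cos_le_quartic h0
  refine (osc_lower (θ := θ) (hτ.trans_le hb) (4 * n) (by nlinarith) hq hq2 he
    (exp_mul_le hE)).trans ?_
  have a3 : ∑ b ∈ Ioc 0 (4 * n), exp (-(b * τb)) * (1 - cos (b * θ))
      ≤ ∑ b ∈ Ioc 0 (4 * n), Lg (b * τ) (b * θ) := by
    refine sum_le_sum fun b hb' => le_trans ?_ (xs_le_Lg (bpos hτ hb') _)
    have := s_nonneg (b * θ)
    gcongr
  have a4 : 0 ≤ ∑ b ∈ Ioc (2 * n) (3 * n), Lg (b * τ) (b * θ) :=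
    sum_nonneg fun b hb' => Lg_nonneg (bpos hτ hb') _
  refine a3.trans ?_
  rw [SB, ← sum_Ioc_consecutive _ (show 2 * n ≤ 3 * n by omega) (show 3 * n ≤ 4 * n by omega),
    ← sum_Ioc_consecutive _ (show 0 ≤ 3 * n by omega) (show 3 * n ≤ 4 * n by omega)]
  linarith

/-- lower bound for `u^2 p2 u` on a block -/
noncomputable def Fk (k : ℕ) (t E : ℝ) : ℝ := (1 + k * t + 5 / 12 * (k * t) ^ 2) * E ^ k

lemma block {n k lo : ℕ} {τ θ t E z : ℝ} (hτ : 0 < τ) (ht : n * τ ≤ t) (hθ : 0 ≤ θ) (hE0 : 0 ≤ E)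
    (hE : E ≤ exp (-t)) (hz : z = 0 ∨ (0 < z ∧ z ≤ θ / τ * (1 - k * n * θ / 6.28)))
    (hlo : lo + n = k * n) :
    n * (log (1 + Fk k t E * z ^ 2) / 2) ≤ ∑ b ∈ Ioc lo (k * n), Lg (b * τ) (b * θ) := by
  have hc : (Ioc lo (k * n)).card = n := by rw [Nat.card_Ioc]; omega
  rw [← nsmul_eq_mul]
  nth_rewrite 1 [← hc]
  refine card_nsmul_le_sum _ _ _ fun b hb => ?_
  have hu := bpos hτ hb
  rcases hz with rfl | ⟨hz0, hz⟩
  · simpa using Lg_nonneg hu _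
  have ht0 : 0 ≤ t := le_trans (by positivity) ht
  have hbk : (b : ℝ) ≤ k * n := by exact_mod_cast (mem_Ioc.1 hb).2
  have hb0 : (0 : ℝ) ≤ b := Nat.cast_nonneg b
  have a1 : b * θ ≤ k * n * θ := by gcongr
  have a0 : 0 ≤ θ / τ := by positivity
  have a2 : 0 < 1 - k * n * θ / 6.28 := by
    by_contra h; push Not at h; nlinarith [mul_nonneg a0 (neg_nonneg.2 h)]
  have a3 : b * θ ≤ 6.28 := by
    have : k * n * θ / 6.28 < 1 := by linarith
    rw [div_lt_one (by norm_num)] at this; linarith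
  have a4 := s_ge_par (mul_nonneg hb0 hθ) a3
  have a5 : Fk k t E ≤ (b * τ) ^ 2 * p2 (b * τ) := by
    refine le_trans ?_ (chi_ge hu)
    refine le_trans ?_ (flo_anti (b := k * t) hu.le ?_)
    · unfold Fk
      have : E ^ k ≤ exp (-(k * t)) := by
        rw [show -((k : ℝ) * t) = k * -t by ring, exp_nat_mul]; gcongr
      gcongr
    · calc b * τ ≤ k * n * τ := by gcongr
        _ = k * (n * τ) := by ring
        _ ≤ k * t := by gcongr
  have a6 : z ≤ θ / τ * (1 - b * θ / 6.28) := by refine hz.trans ?_; gcongr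
  have hF : 0 ≤ Fk k t E := by unfold Fk; positivity
  have hp := p2_pos hu
  have a7 : Fk k t E * z ^ 2 ≤ 2 * p2 (b * τ) * (1 - cos (b * θ)) := by
    calc Fk k t E * z ^ 2 ≤ (b * τ) ^ 2 * p2 (b * τ) * (θ / τ * (1 - b * θ / 6.28)) ^ 2 := by gcongr
      _ = p2 (b * τ) * (b * θ * (1 - b * θ / 6.28)) ^ 2 := by field_simp
      _ ≤ p2 (b * τ) * (2 * (1 - cos (b * θ))) := by gcongr
      _ = _ := by ring
  unfold Lg
  gcongr

/-- `e k` is a lower bound for the concave function of the block estimate at `θ` -/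
def End (n : ℕ) (τ θ : ℝ) (e : ℕ → ℝ) : Prop :=
  ∀ (k : ℕ) (z : ℝ), 0 < z → z ≤ e k → z ≤ θ / τ * (1 - k * n * θ / 6.28)

/-- endpoint bound at `θ = y / n` -/
noncomputable def eY (t y : ℝ) (k : ℕ) : ℝ := y * (1 - k * y / 6.28) / t
/-- endpoint bound at `θ = x τ` -/
noncomputable def eX (t x : ℝ) (k : ℕ) : ℝ := x * (1 - k * x * t / 6.28)

lemma end_Y {n : ℕ} {τ t : ℝ} (hn : 0 < n) (hτ : 0 < τ) (ht : n * τ ≤ t) (y : ℝ) :
    End n τ (y / n) (eY t y) := by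
  intro k z hz h
  have hn' : (0 : ℝ) < n := by exact_mod_cast hn
  have h0 : 0 < n * τ := by positivity
  have e : y / n / τ * (1 - k * n * (y / n) / 6.28) = y * (1 - k * y / 6.28) / (n * τ) := by
    field_simp
  rw [e]
  unfold eY at h
  have : 0 < y * (1 - k * y / 6.28) := by
    have := hz.trans_le h
    exact (div_pos_iff_of_pos_right (h0.trans_le ht)).1 this
  exact h.trans (by gcongr)

lemma end_X {n : ℕ} {τ t x : ℝ} (hτ : 0 < τ) (ht : n * τ ≤ t) (hx : 0 ≤ x) :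
    End n τ (x * τ) (eX t x) := by
  intro k z _ h
  have e : x * τ / τ * (1 - k * n * (x * τ) / 6.28) = x * (1 - k * x * (n * τ) / 6.28) := by
    field_simp
  rw [e]
  exact h.trans (by unfold eX; gcongr)

/-- admissible value in the block estimate -/
def ZOK (z a b : ℝ) : Prop := z = 0 ∨ (0 < z ∧ z ≤ a ∧ z ≤ b)

/-- numerical conditions for the block estimate -/
def BlockOK (t E : ℝ) (ea eb : ℕ → ℝ) (z1 z2 z3 z4 m : ℝ) : Prop :=
  ZOK z1 (ea 1) (eb 1) ∧ ZOK z2 (ea 2) (eb 2) ∧ ZOK z3 (ea 3) (eb 3) ∧ ZOK z4 (ea 4) (eb 4) ∧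
  0 ≤ m ∧ m ≤ 4 ∧ eU (2 * m) ≤ (1 + Fk 1 t E * z1 ^ 2) * (1 + Fk 2 t E * z2 ^ 2)
    * (1 + Fk 3 t E * z3 ^ 2) ^ 2 * (1 + Fk 4 t E * z4 ^ 2)

lemma concave_quad {A B x a b m : ℝ} (hB : 0 ≤ B) (h1 : a ≤ x) (h2 : x ≤ b)
    (ha : m ≤ a * (A - B * a)) (hb : m ≤ b * (A - B * b)) : m ≤ x * (A - B * x) := by
  rcases eq_or_lt_of_le (h1.trans h2) with h | h
  · have : x = a := by linarith
    rw [this]; exact ha
  · have := mul_nonneg hB (mul_nonneg (mul_nonneg (sub_nonneg.2 h1) (sub_nonneg.2 h2))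
      (sub_pos.2 h).le)
    have h3 := mul_le_mul_of_nonneg_left ha (sub_nonneg.2 h2)
    have h4 := mul_le_mul_of_nonneg_left hb (sub_nonneg.2 h1)
    apply le_of_mul_le_mul_left _ (sub_pos.2 h)
    nlinarith

lemma tailBlock {n : ℕ} {τ θ θa θb t E z1 z2 z3 z4 m : ℝ} {ea eb : ℕ → ℝ}
    (ok : BlockOK t E ea eb z1 z2 z3 z4 m) (hτ : 0 < τ) (ht : n * τ ≤ t) (hE0 : 0 ≤ E)
    (hE : E ≤ exp (-t)) (ha : End n τ θa ea) (hb : End n τ θb eb) (h0 : 0 ≤ θa) (h1 : θa ≤ θ)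
    (h2 : θ ≤ θb) : n * m ≤ SB n τ θ := by
  obtain ⟨k1, k2, k3, k4, hm0, hm4, hm⟩ := ok
  have key : ∀ (k : ℕ) z, ZOK z (ea k) (eb k) →
      z = 0 ∨ (0 < z ∧ z ≤ θ / τ * (1 - k * n * θ / 6.28)) := by
    rintro k z (h | ⟨h, g1, g2⟩)
    · exact Or.inl h
    refine Or.inr ⟨h, ?_⟩
    have e : ∀ x : ℝ, x / τ * (1 - k * n * x / 6.28) = x * (1 / τ - k * n / 6.28 / τ * x) :=
      fun x => by ring
    have g3 := ha k z h g1
    have g4 := hb k z h g2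
    rw [e] at g3 g4 ⊢
    exact concave_quad (by positivity) h1 h2 g3 g4
  have hθ := h0.trans h1
  have b1 := block (lo := 0) hτ ht hθ hE0 hE (key 1 z1 k1) (by omega)
  have b2 := block (lo := n) hτ ht hθ hE0 hE (key 2 z2 k2) (by omega)
  have b3 := block (lo := 2 * n) hτ ht hθ hE0 hE (key 3 z3 k3) (by omega)
  have b4 := block (lo := 3 * n) hτ ht hθ hE0 hE (key 4 z4 k4) (by omega)
  rw [one_mul] at b1
  have ht0 : 0 ≤ t := le_trans (by positivity) ht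
  have hF : ∀ k z, 0 < 1 + Fk k t E * z ^ 2 := fun k z => by unfold Fk; positivity
  have h5 := (exp_le_eU (x := 2 * m) (by linarith) (by linarith)).trans hm
  have h6 := (le_log_iff_exp_le (by have := hF 1 z1; have := hF 2 z2; have := hF 3 z3
                                    have := hF 4 z4; positivity)).2 h5
  rw [log_mul (by have := hF 1 z1; have := hF 2 z2; have := hF 3 z3; positivity) (hF _ _).ne',
    log_mul (by have := hF 1 z1; have := hF 2 z2; positivity) (by have := hF 3 z3; positivity),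
    log_mul (hF _ _).ne' (hF _ _).ne', log_pow] at h6
  rw [SB, SB_split]
  have := mul_le_mul_of_nonneg_left h6 (Nat.cast_nonneg (α := ℝ) n)
  push_cast at this
  linarith

end Pool.Agent.Lib.MP_e3fe77_co
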